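import Pool.Agent.Run7.h23.Se.Glb
import Pool.Agent.TH954.SFinV

/-!
# Double coverings without points over infinity
-/

set_option autoImplicit false
set_option linter.all false

open Polynomial Pool.Agent.Y160.SE Topology NumberField IsDedekindDomain
open scoped Classical

namespace Run7.h23.Se

open Run7.h23.Lo
open Pool.Agent.TH954 (GalSection Plc)
open Pool.Agent.W620.SC (unramified)

section sq

variable {K L E : Type} [Field K] [Field L] [Field E] [Algebra K L] [Algebra K E]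
  (q : Plc K L E)

include q

/-- A monic polynomial at infinity. -/
theorem val_monic {x : L} (hx : x ∉ q.W) {p : K[X]} (hp : p.Monic) :
    q.val (aeval x p * x⁻¹ ^ p.natDegree) 1 := by
  have hx0 : x ≠ 0 := by
    rintro rfl
    exact hx q.W.zero_mem
  have h1 := Plc.val_aeval (Plc.val_inv_of_notMem hx) (reverse p)
  have h2 : aeval x⁻¹ (reverse p) = aeval x p * x⁻¹ ^ p.natDegree := by
    haveI : Invertible x := invertibleOfNonzero hx0
    have h3 := eval₂_reverse_mul_pow (algebraMap K L) x p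
    rw [invOf_eq_inv] at h3
    rw [aeval_def, aeval_def, ← h3, mul_assoc, ← mul_pow, mul_inv_cancel₀ hx0, one_pow, mul_one]
  have h4 : aeval (0 : E) (reverse p) = 1 := by
    rw [← coeff_zero_eq_aeval_zero', coeff_zero_reverse, hp.leadingCoeff, map_one]
  rw [h2, h4] at h1
  exact h1

theorem sq_of_val {c : K} {t : L} (h : q.val (algebraMap K L c * t ^ 2) 1) :
    ∃ d : E, algebraMap K E c = d ^ 2 := by
  have hc : c ≠ 0 := by
    rintro rfl
    rw [map_zero, zero_mul] at h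
    exact zero_ne_one (Plc.val_zero.unique h)
  have hcL : algebraMap K L c ≠ 0 := (_root_.map_ne_zero _).2 hc
  have h1 := (Plc.val_alg (pl := q) c⁻¹).mul h
  have h2 : algebraMap K L c⁻¹ * (algebraMap K L c * t ^ 2) = t ^ 2 := by
    rw [map_inv₀]
    field_simp
  rw [h2] at h1
  have htW : t ∈ q.W := by
    have h3 : IsIntegral q.W t := by
      refine ⟨X ^ 2 - C ⟨t ^ 2, h1.mem⟩, monic_X_pow_sub_C _ two_ne_zero, ?_⟩
      rw [eval₂_sub, eval₂_X_pow, eval₂_C]
      exact sub_self _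
    obtain ⟨z, hz⟩ := IsIntegrallyClosed.isIntegral_iff.1 h3
    rw [← hz]
    exact z.2
  obtain ⟨d, hd⟩ := Plc.val_of_mem htW
  have h4 := ((Plc.val_alg (pl := q) c).mul (hd.pow 2)).unique h
  refine ⟨d⁻¹, ?_⟩
  have hd0 : d ≠ 0 := by
    rintro rfl
    rw [zero_pow two_ne_zero, mul_zero] at h4
    exact zero_ne_one h4
  field_simp
  exact h4

theorem sq_of {g : ℕ} {x y z : L} {c : K} {P h : K[X]} (hP : P.Monic)
    (hPd : P.natDegree = 2 * g + 1) (hh : h.Monic) (h1 : y ^ 2 = aeval x P)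
    (h2 : algebraMap K L c * z ^ 2 = aeval x h) (hx : x ∉ q.W) :
    ∃ d : E, algebraMap K E c = d ^ 2 := by
  have hx0 : x ≠ 0 := by
    rintro rfl
    exact hx q.W.zero_mem
  have h3 := val_monic q hx hh
  have h4 := val_monic q hx hP
  rw [← h2] at h3
  rw [← h1, hPd] at h4
  rcases Nat.even_or_odd' h.natDegree with ⟨k, hk | hk⟩
  · rw [hk] at h3
    refine sq_of_val q (t := z * x⁻¹ ^ k) ?_
    have e : algebraMap K L c * (z * x⁻¹ ^ k) ^ 2 = algebraMap K L c * z ^ 2 * x⁻¹ ^ (2 * k) := by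
      ring
    rw [e]
    exact h3
  · rw [hk] at h3
    refine sq_of_val q (t := z * y * x⁻¹ ^ (k + g + 1)) ?_
    have e : algebraMap K L c * (z * y * x⁻¹ ^ (k + g + 1)) ^ 2 =
        (algebraMap K L c * z ^ 2 * x⁻¹ ^ (2 * k + 1)) * (y ^ 2 * x⁻¹ ^ (2 * g + 1)) := by
      ring
    rw [e]
    have h5 := h3.mul h4
    rwa [mul_one] at h5

end sq

section nf

variable {F K : Type} [Field F] [NumberField F] [Field K] [NumberField K] [Algebra F K]

/-- Integers of `K` are congruent to integers of `F` modulo the powers of a prime of degree one. -/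
theorem approx_nf {v : HeightOneSpectrum (𝓞 F)} {w : HeightOneSpectrum (𝓞 K)}
    (h1 : v.asIdeal.map (algebraMap (𝓞 F) (𝓞 K)) ≤ w.asIdeal)
    (h2 : ¬ v.asIdeal.map (algebraMap (𝓞 F) (𝓞 K)) ≤ w.asIdeal ^ 2)
    (h3 : ∀ y : 𝓞 K, ∃ x : 𝓞 F, y - algebraMap (𝓞 F) (𝓞 K) x ∈ w.asIdeal) (n : ℕ) :
    ∀ y : 𝓞 K, ∃ x : 𝓞 F, y - algebraMap (𝓞 F) (𝓞 K) x ∈ w.asIdeal ^ n := by
  -- an element of `v` which generates `w` modulo squares
  obtain ⟨π, hπ, hπ2⟩ : ∃ π ∈ v.asIdeal, algebraMap (𝓞 F) (𝓞 K) π ∉ w.asIdeal ^ 2 := by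
    by_contra hc
    push Not at hc
    exact h2 (Ideal.map_le_iff_le_comap.2 fun x hx => hc x hx)
  have hπ1 : algebraMap (𝓞 F) (𝓞 K) π ∈ w.asIdeal := h1 (Ideal.mem_map_of_mem _ hπ)
  have hw0 : w.asIdeal ≠ ⊥ := w.ne_bot
  have hspan : w.asIdeal ≤ Ideal.span {algebraMap (𝓞 F) (𝓞 K) π} ⊔ w.asIdeal ^ 2 := by
    have h4 : Ideal.span {algebraMap (𝓞 F) (𝓞 K) π} ⊔ w.asIdeal ^ 2 ≤ w.asIdeal :=
      sup_le ((Ideal.span_singleton_le_iff_mem _).2 hπ1) (Ideal.pow_le_self two_ne_zero)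
    set D := Ideal.span {algebraMap (𝓞 F) (𝓞 K) π} ⊔ w.asIdeal ^ 2 with hD
    have h5 : w.asIdeal ∣ D := Ideal.dvd_iff_le.2 h4
    have h6 : D ∣ w.asIdeal ^ 2 := Ideal.dvd_iff_le.2 le_sup_right
    obtain ⟨i, hi, hDi⟩ := (dvd_prime_pow w.prime 2).1 h6
    rw [associated_iff_eq] at hDi
    have hi1 : i ≠ 0 := by
      rintro rfl
      rw [pow_zero] at hDi
      rw [hDi] at h5
      exact w.prime.not_unit (isUnit_of_dvd_one h5)
    have hi2 : i ≠ 2 := by
      rintro rfl
      apply hπ2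
      rw [← hDi]
      have h8 : Ideal.span {algebraMap (𝓞 F) (𝓞 K) π} ≤ D := le_sup_left
      exact h8 (Ideal.mem_span_singleton_self _)
    have hi3 : i = 1 := by omega
    rw [hDi, hi3, pow_one]
  induction n with
  | zero =>
    intro y
    refine ⟨0, ?_⟩
    rw [pow_zero, Ideal.one_eq_top]
    trivial
  | succ n ih =>
    intro y
    obtain ⟨x, hx⟩ := ih y
    have h7 : w.asIdeal ^ n ≤ Ideal.span {(algebraMap (𝓞 F) (𝓞 K) π) ^ n} ⊔ w.asIdeal ^ (n + 1) := by
      clear ih hx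
      induction n with
      | zero =>
        rw [pow_zero, pow_zero, Ideal.span_singleton_one, top_sup_eq]
        exact le_top
      | succ n ih =>
        calc w.asIdeal ^ (n + 1) = w.asIdeal ^ n * w.asIdeal := pow_succ _ _
          _ ≤ (Ideal.span {(algebraMap (𝓞 F) (𝓞 K) π) ^ n} ⊔ w.asIdeal ^ (n + 1)) *
              (Ideal.span {algebraMap (𝓞 F) (𝓞 K) π} ⊔ w.asIdeal ^ 2) := mul_le_mul' ih hspan
          _ ≤ _ := by
            rw [Ideal.sup_mul, Ideal.mul_sup, Ideal.mul_sup, Ideal.span_singleton_mul_span_singleton,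
              ← pow_succ]
            refine sup_le (sup_le le_sup_left ?_) (sup_le ?_ ?_)
            · refine le_trans ?_ le_sup_right
              calc Ideal.span {(algebraMap (𝓞 F) (𝓞 K) π) ^ n} * w.asIdeal ^ 2
                  ≤ w.asIdeal ^ n * w.asIdeal ^ 2 := by
                    refine mul_le_mul' ?_ le_rfl
                    rw [Ideal.span_singleton_le_iff_mem]
                    exact Ideal.pow_mem_pow hπ1 n
                _ = w.asIdeal ^ (n + 1 + 1) := by rw [← pow_add]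
            · refine le_trans ?_ le_sup_right
              calc w.asIdeal ^ (n + 1) * Ideal.span {algebraMap (𝓞 F) (𝓞 K) π}
                  ≤ w.asIdeal ^ (n + 1) * w.asIdeal :=
                    mul_le_mul' le_rfl ((Ideal.span_singleton_le_iff_mem _).2 hπ1)
                _ = w.asIdeal ^ (n + 1 + 1) := by rw [← pow_succ]
            · refine le_trans ?_ le_sup_right
              rw [← pow_add]
              exact Ideal.pow_le_pow_right (by omega)
    obtain ⟨a, ha, b, hb, hab⟩ := Submodule.mem_sup.1 (h7 hx)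
    obtain ⟨u, rfl⟩ := Ideal.mem_span_singleton'.1 ha
    obtain ⟨t, ht⟩ := h3 u
    refine ⟨x + t * π ^ n, ?_⟩
    have e : y - algebraMap (𝓞 F) (𝓞 K) (x + t * π ^ n) =
        b + (u - algebraMap (𝓞 F) (𝓞 K) t) * (algebraMap (𝓞 F) (𝓞 K) π) ^ n := by
      rw [map_add, map_mul, map_pow]
      linear_combination -hab
    rw [e]
    refine add_mem hb ?_
    rw [pow_succ']
    exact Ideal.mul_mem_mul ht (Ideal.pow_mem_pow hπ1 n)

theorem mem_pow_of {v : HeightOneSpectrum (𝓞 F)} {w : HeightOneSpectrum (𝓞 K)}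
    (h1 : v.asIdeal.map (algebraMap (𝓞 F) (𝓞 K)) ≤ w.asIdeal)
    (h2 : ¬ v.asIdeal.map (algebraMap (𝓞 F) (𝓞 K)) ≤ w.asIdeal ^ 2) {n : ℕ} {x : 𝓞 F}
    (hx : algebraMap (𝓞 F) (𝓞 K) x ∈ w.asIdeal ^ n) : x ∈ v.asIdeal ^ n := by
  have hw0 : w.asIdeal ≠ ⊥ := w.ne_bot
  by_contra hc
  -- the exact power
  obtain ⟨k, hk, hk1, hk2⟩ : ∃ k, k < n ∧ x ∈ v.asIdeal ^ k ∧ x ∉ v.asIdeal ^ (k + 1) := by
    have h3 : ∃ m, x ∉ v.asIdeal ^ m := ⟨n, hc⟩
    set m := Nat.find h3 with hm
    have h4 : x ∉ v.asIdeal ^ m := Nat.find_spec h3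
    have h5 : m ≠ 0 := by
      intro h
      rw [h, pow_zero, Ideal.one_eq_top] at h4
      exact h4 trivial
    have h6 : m ≤ n := Nat.find_min' h3 hc
    refine ⟨m - 1, by omega, ?_, ?_⟩
    · have h7 := Nat.find_min h3 (m := m - 1) (by omega)
      exact not_not.1 h7
    · rwa [Nat.sub_add_cancel (Nat.one_le_iff_ne_zero.2 h5)]
  have hD : Ideal.span {x} ⊔ v.asIdeal ^ (k + 1) = v.asIdeal ^ k := by
    set D := Ideal.span {x} ⊔ v.asIdeal ^ (k + 1) with hD
    have h4 : D ≤ v.asIdeal ^ k := sup_le ((Ideal.span_singleton_le_iff_mem _).2 hk1)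
      (Ideal.pow_le_pow_right (Nat.le_succ k))
    have h6 : D ∣ v.asIdeal ^ (k + 1) := Ideal.dvd_iff_le.2 le_sup_right
    obtain ⟨i, hi, hDi⟩ := (dvd_prime_pow v.prime (k + 1)).1 h6
    rw [associated_iff_eq] at hDi
    have h5 : v.asIdeal ^ k ∣ v.asIdeal ^ i := by
      rw [← hDi]
      exact Ideal.dvd_iff_le.2 h4
    have h7 : k ≤ i := by
      rwa [pow_dvd_pow_iff v.ne_bot v.prime.not_unit] at h5
    have h8 : i ≠ k + 1 := by
      intro h
      apply hk2
      rw [← h, ← hDi]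
      have h9 : Ideal.span {x} ≤ D := le_sup_left
      exact h9 (Ideal.mem_span_singleton_self _)
    have h10 : i = k := by omega
    rw [hDi, h10]
  have h3 : (v.asIdeal.map (algebraMap (𝓞 F) (𝓞 K))) ^ k ≤ w.asIdeal ^ (k + 1) := by
    rw [← Ideal.map_pow, ← hD, Ideal.map_sup, Ideal.map_span, Set.image_singleton, Ideal.map_pow]
    refine sup_le ?_ (Ideal.pow_right_mono h1 _)
    rw [Ideal.span_singleton_le_iff_mem]
    exact Ideal.pow_le_pow_right hk hx
  obtain ⟨J, hJ⟩ := Ideal.dvd_iff_le.2 h1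
  rw [hJ, mul_pow, ← Ideal.dvd_iff_le, pow_succ] at h3
  have h4 : w.asIdeal ∣ J ^ k := (mul_dvd_mul_iff_left (pow_ne_zero _ hw0)).1 h3
  have h5 := w.prime.dvd_of_dvd_pow h4
  apply h2
  rw [hJ, ← Ideal.dvd_iff_le, pow_two]
  exact mul_dvd_mul_left _ h5

theorem val_ge {w : HeightOneSpectrum (𝓞 K)} (n : ℕ) (x : 𝓞 K) :
    x ∈ w.asIdeal ^ n ↔ Valued.v (algebraMap K (w.adicCompletion K) (x : K)) ≤
      WithZero.exp (-(n : ℤ)) := by
  have e : Valued.v (algebraMap K (w.adicCompletion K) (algebraMap (𝓞 K) K x)) =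
      w.valuation K (algebraMap (𝓞 K) K x) :=
    HeightOneSpectrum.valuedAdicCompletion_eq_valuation' w _
  rw [HeightOneSpectrum.valuation_of_algebraMap] at e
  rw [e]
  exact (HeightOneSpectrum.intValuation_le_pow_iff_mem w x n).symm

/-- Integers of `K` are dense. -/
theorem approx_loc (w : HeightOneSpectrum (𝓞 K)) (n : ℕ) : ∀ d : w.adicCompletionIntegers K,
    ∃ t : 𝓞 K, Valued.v ((d : w.adicCompletion K) - algebraMap K (w.adicCompletion K) (t : K)) ≤
      WithZero.exp (-(n : ℤ)) := by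
  obtain ⟨π, hπ⟩ := w.intValuation_exists_uniformizer
  have hvπ : Valued.v (algebraMap K (w.adicCompletion K) (π : K)) = WithZero.exp (-1 : ℤ) := by
    have e : Valued.v (algebraMap K (w.adicCompletion K) (algebraMap (𝓞 K) K π)) =
        w.valuation K (algebraMap (𝓞 K) K π) :=
      HeightOneSpectrum.valuedAdicCompletion_eq_valuation' w _
    rw [HeightOneSpectrum.valuation_of_algebraMap, hπ] at e
    exact e
  have hπ0 : algebraMap K (w.adicCompletion K) (π : K) ≠ 0 := by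
    intro h
    rw [h, map_zero] at hvπ
    exact WithZero.exp_ne_zero hvπ.symm
  induction n with
  | zero =>
    intro d
    refine ⟨0, ?_⟩
    have e0 : algebraMap K (w.adicCompletion K) ((0 : 𝓞 K) : K) = 0 :=
      map_zero ((algebraMap K (w.adicCompletion K)).comp (algebraMap (𝓞 K) K))
    rw [e0, sub_zero]
    exact d.2
  | succ n ih =>
    intro d
    obtain ⟨t0, ht0⟩ := alg_surj w (IsLocalRing.residue _ d)
    have h1 : d - algebraMap (𝓞 K) (w.adicCompletionIntegers K) t0 ∈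
        IsLocalRing.maximalIdeal (w.adicCompletionIntegers K) := by
      rw [← IsLocalRing.residue_eq_zero_iff, map_sub, sub_eq_zero]
      exact ht0.symm
    have h2 : Valued.v ((d : w.adicCompletion K) - algebraMap K (w.adicCompletion K) (t0 : K)) < 1 :=
      (Valuation.mem_maximalIdeal_iff _ _).1 h1
    have h3 : Valued.v ((d : w.adicCompletion K) - algebraMap K (w.adicCompletion K) (t0 : K)) ≤
        WithZero.exp (-1 : ℤ) := by
      rw [← WithZero.lt_mul_exp_iff_le WithZero.exp_ne_zero, ← WithZero.exp_add, neg_add_cancel,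
        WithZero.exp_zero]
      exact h2
    set u : w.adicCompletion K := ((d : w.adicCompletion K) -
      algebraMap K (w.adicCompletion K) (t0 : K)) / algebraMap K (w.adicCompletion K) (π : K) with hu
    have hu1 : Valued.v u ≤ 1 := by
      rw [hu, map_div₀, hvπ]
      rw [div_le_iff₀ (WithZero.exp_pos), one_mul]
      exact h3
    obtain ⟨t1, ht1⟩ := ih ⟨u, hu1⟩
    refine ⟨t0 + π * t1, ?_⟩
    have e : (d : w.adicCompletion K) - algebraMap K (w.adicCompletion K) ((t0 + π * t1 : 𝓞 K) : K) =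
        algebraMap K (w.adicCompletion K) (π : K) *
          (u - algebraMap K (w.adicCompletion K) (t1 : K)) := by
      have e1 : algebraMap K (w.adicCompletion K) ((t0 + π * t1 : 𝓞 K) : K) =
          algebraMap K (w.adicCompletion K) (t0 : K) + algebraMap K (w.adicCompletion K) (π : K) *
            algebraMap K (w.adicCompletion K) (t1 : K) := by
        have e2 := map_add ((algebraMap K (w.adicCompletion K)).comp (algebraMap (𝓞 K) K)) t0 (π * t1)
        rw [map_mul ((algebraMap K (w.adicCompletion K)).comp (algebraMap (𝓞 K) K))] at e2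
        exact e2
      rw [mul_sub, hu, mul_div_cancel₀ _ hπ0, e1]
      ring
    rw [e, map_mul, hvπ]
    have h4 : WithZero.exp (-((n + 1 : ℕ) : ℤ)) = WithZero.exp (-1 : ℤ) * WithZero.exp (-(n : ℤ)) := by
      rw [← WithZero.exp_add]
      congr 1
      push_cast
      ring
    rw [h4]
    exact mul_le_mul' le_rfl ht1

/-- Squares in the completion of `K` are squares modulo powers of primes of `F`. -/
theorem sq_nf {v : HeightOneSpectrum (𝓞 F)} {w : HeightOneSpectrum (𝓞 K)}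
    (h1 : v.asIdeal.map (algebraMap (𝓞 F) (𝓞 K)) ≤ w.asIdeal)
    (h2 : ¬ v.asIdeal.map (algebraMap (𝓞 F) (𝓞 K)) ≤ w.asIdeal ^ 2)
    (h3 : ∀ y : 𝓞 K, ∃ x : 𝓞 F, y - algebraMap (𝓞 F) (𝓞 K) x ∈ w.asIdeal) {c : 𝓞 F}
    {d : w.adicCompletion K}
    (hd : algebraMap K (w.adicCompletion K) (algebraMap F K c) = d ^ 2) (n : ℕ) :
    ∃ t : 𝓞 F, t ^ 2 - c ∈ v.asIdeal ^ n := by
  have hc : algebraMap F K c = ((algebraMap (𝓞 F) (𝓞 K) c : 𝓞 K) : K) :=
    (IsScalarTower.algebraMap_apply (𝓞 F) F K c).symm.trans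
      (IsScalarTower.algebraMap_apply (𝓞 F) (𝓞 K) K c)
  have hvint : ∀ z : 𝓞 K, Valued.v (algebraMap K (w.adicCompletion K) (z : K)) ≤ 1 := by
    intro z
    have h4 := (val_ge (w := w) 0 z).1 (by rw [pow_zero, Ideal.one_eq_top]; trivial)
    simpa using h4
  have hd1 : Valued.v d ≤ 1 := by
    have h4 := hvint (algebraMap (𝓞 F) (𝓞 K) c)
    rw [← hc, hd, map_pow] at h4
    exact (pow_le_one_iff two_ne_zero).1 h4
  obtain ⟨t, ht⟩ := approx_loc w n ⟨d, hd1⟩
  obtain ⟨t', ht'⟩ := approx_nf h1 h2 h3 n t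
  refine ⟨t', mem_pow_of h1 h2 ((val_ge (w := w) n _).2 ?_)⟩
  set τ : w.adicCompletion K := algebraMap K (w.adicCompletion K)
    ((algebraMap (𝓞 F) (𝓞 K) t' : 𝓞 K) : K) with hτ
  have h5 : Valued.v (d - τ) ≤ WithZero.exp (-(n : ℤ)) := by
    have h6 := (val_ge (w := w) n _).1 ht'
    have e : d - τ = (d - algebraMap K (w.adicCompletion K) (t : K)) +
        algebraMap K (w.adicCompletion K) ((t - algebraMap (𝓞 F) (𝓞 K) t' : 𝓞 K) : K) := by
      have e1 : algebraMap K (w.adicCompletion K) ((t - algebraMap (𝓞 F) (𝓞 K) t' : 𝓞 K) : K) =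
          algebraMap K (w.adicCompletion K) (t : K) - τ :=
        map_sub ((algebraMap K (w.adicCompletion K)).comp (algebraMap (𝓞 K) K)) _ _
      rw [e1]
      ring
    rw [e]
    exact (Valuation.map_add _ _ _).trans (max_le ht h6)
  have e : algebraMap K (w.adicCompletion K) ((algebraMap (𝓞 F) (𝓞 K) (t' ^ 2 - c) : 𝓞 K) : K) =
      (d - τ) * (-(d + τ)) := by
    have h7 : algebraMap K (w.adicCompletion K) ((algebraMap (𝓞 F) (𝓞 K) (t' ^ 2 - c) : 𝓞 K) : K) =
        τ ^ 2 - d ^ 2 := by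
      rw [← hd, hc, map_sub, map_pow]
      have e2 := map_sub ((algebraMap K (w.adicCompletion K)).comp (algebraMap (𝓞 K) K))
        ((algebraMap (𝓞 F) (𝓞 K) t') ^ 2) (algebraMap (𝓞 F) (𝓞 K) c)
      rw [map_pow ((algebraMap K (w.adicCompletion K)).comp (algebraMap (𝓞 K) K))] at e2
      exact e2
    rw [h7]
    ring
  rw [e, map_mul, Valuation.map_neg]
  calc Valued.v (d - τ) * Valued.v (d + τ) ≤ WithZero.exp (-(n : ℤ)) * 1 :=
        mul_le_mul' h5 ((Valuation.map_add _ _ _).trans (max_le hd1 (hvint _)))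
    _ = _ := mul_one _

end nf

end Run7.h23.Se
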