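import Pool.Agent.Run7.h23.Se.Tors

/-!
# Semilinear actions and the cocycle of a division class
-/

set_option autoImplicit false
set_option linter.all false

open Polynomial Pool.Agent.Y160.SE Topology
open scoped Classical

namespace Run7.h23.Se

open Run7.h23.Lo
open Pool.Agent.TH115.GD (incl rs ak)

/-- A continuous action of the Galois group of `B` over `K` on `M`, semilinear with respect to `j`. -/
structure SA (K B M : Type) [Field K] [Field B] [Field M] [Algebra K B] [Algebra K M] where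
  j : B →ₐ[K] M
  s : (B ≃ₐ[K] B) →* (M ≃ₐ[K] M)
  hj : ∀ τ z, s τ (j z) = j (τ z)
  cont : ∀ x : M, ∀ᶠ τ in 𝓝 (1 : B ≃ₐ[K] B), s τ x = x

theorem map_fix {R : Type*} [CommRing R] (φ : R →+* R) {s : Finset R} {I : Ideal R}
    (hs : Submodule.span R (s : Set R) = I) (h : ∀ a ∈ s, φ a = a) : I.map φ = I := by
  rw [Ideal.submodule_span_eq] at hs
  rw [← hs, Ideal.map_span]
  congr 1
  ext b
  constructor
  · rintro ⟨a, ha, rfl⟩
    rw [h a ha]
    exact ha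
  · intro hb
    exact ⟨b, hb, h b hb⟩

section act

variable {K B M : Type} [Field K] [Field B] [Field M] [Algebra K B] [Algebra K M]
  (A : SA K B M) (f : K[X])

/-- The action on the classes. -/
noncomputable def SA.ac (τ : B ≃ₐ[K] B) : Jac 2 f M →+ Jac 2 f M := jm 2 f (ak (A.s τ))

theorem SA.ac_mul (σ τ : B ≃ₐ[K] B) (x : Jac 2 f M) : A.ac f (σ * τ) x = A.ac f σ (A.ac f τ x) := by
  unfold SA.ac
  rw [jm_jm, map_mul]
  rfl

theorem SA.ac_j (τ : B ≃ₐ[K] B) (x : Jac 2 f B) :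
    A.ac f τ (jm 2 f A.j x) = jm 2 f A.j (jm 2 f (ak τ) x) := by
  unfold SA.ac
  rw [jm_jm, jm_jm]
  congr 1
  have h : (ak (A.s τ)).comp A.j = A.j.comp (ak τ) := AlgHom.ext fun z => A.hj τ z
  rw [h]

theorem SA.ac_one (x : Jac 2 f M) : A.ac f 1 x = x := by
  unfold SA.ac
  rw [map_one]
  exact jm_id x

variable {f} (hg : Good 2 (-1 : K) f)

omit hg in
theorem SA.cont_poly (p : M[X]) : ∀ᶠ τ in 𝓝 (1 : B ≃ₐ[K] B),
    p.map ((ak (A.s τ) : M →ₐ[K] M) : M →+* M) = p := by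
  have h1 : ∀ᶠ τ in 𝓝 (1 : B ≃ₐ[K] B), ∀ n ∈ p.support, A.s τ (p.coeff n) = p.coeff n :=
    (Filter.eventually_all_finset _).2 fun n _ => A.cont _
  filter_upwards [h1] with τ hτ
  ext n
  rw [coeff_map]
  by_cases hn : n ∈ p.support
  · exact hτ n hn
  · rw [notMem_support_iff.1 hn, map_zero]

omit hg in
theorem SA.cont_cr (a : CR 2 (f.map (algebraMap K M))) : ∀ᶠ τ in 𝓝 (1 : B ≃ₐ[K] B),
    cm 2 f (ak (A.s τ)) a = a := by
  filter_upwards [A.cont_poly (c0 a), A.cont_poly (c1 a)] with τ h0 h1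
  apply el_ext
  · rw [cm, c0_map]; exact h0
  · rw [cm, c1_map]; exact h1

include hg

theorem SA.cont_jac (x : Jac 2 f M) : ∀ᶠ τ in 𝓝 (1 : B ≃ₐ[K] B), A.ac f τ x = x := by
  haveI := hyps.ring 2 M _ _ (hg.up M)
  obtain ⟨I, hI, hIx⟩ := exists_cl (Ω := M) hyps hg x
  obtain ⟨s, hs⟩ := (isNoetherianRing_iff_ideal_fg _).1 inferInstance I
  have h1 : ∀ᶠ τ in 𝓝 (1 : B ≃ₐ[K] B), ∀ a ∈ s, cm 2 f (ak (A.s τ)) a = a :=
    (Filter.eventually_all_finset _).2 fun a _ => A.cont_cr a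
  filter_upwards [h1] with τ hτ
  have h2 : I.map (cm 2 f (ak (A.s τ))) = I := map_fix _ hs hτ
  have h3 := cl_map hyps hg hIx (ak (A.s τ))
  rw [h2] at h3
  exact cl_uniq hg h3 hIx

/-- The cocycle of a division class. -/
theorem SA.exists_coc {n : ℕ} {Q : Jac 2 f M}
    (hQ : ∀ τ, A.ac f τ (2 ^ n • Q) = 2 ^ n • Q)
    (htor : ∀ T : Jac 2 f M, 2 ^ n • T = 0 → ∃ T0 : Jac 2 f B, 2 ^ n • T0 = 0 ∧
      jm 2 f A.j T0 = T)
    (hinj : ∀ T0 : Jac 2 f B, 2 ^ n • T0 = 0 → jm 2 f A.j T0 = 0 → T0 = 0) :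
    ∃ c : (B ≃ₐ[K] B) → Jac 2 f B, IsLocallyConstant c ∧
      (∀ σ τ, c (σ * τ) = c σ + jm 2 f (ak σ) (c τ)) ∧ (∀ σ, 2 ^ n • c σ = 0) ∧
      ∀ σ, jm 2 f A.j (c σ) = A.ac f σ Q - Q := by
  have h1 : ∀ σ, ∃ T0 : Jac 2 f B, 2 ^ n • T0 = 0 ∧ jm 2 f A.j T0 = A.ac f σ Q - Q := by
    intro σ
    apply htor
    rw [smul_sub, ← map_nsmul, hQ, sub_self]
  choose c hc1 hc2 using h1
  have hmul : ∀ σ τ, c (σ * τ) = c σ + jm 2 f (ak σ) (c τ) := by
    intro σ τ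
    rw [← sub_eq_zero]
    apply hinj
    · rw [smul_sub, smul_add, ← map_nsmul, hc1, hc1, hc1, map_zero, add_zero, sub_zero]
    · rw [map_sub, map_add, ← A.ac_j, hc2, hc2, hc2, A.ac_mul, map_sub]
      abel
  refine ⟨c, ?_, hmul, hc1, hc2⟩
  rw [IsLocallyConstant.iff_eventually_eq]
  intro σ
  have h2 : Filter.Tendsto (fun τ : B ≃ₐ[K] B => σ⁻¹ * τ) (𝓝 σ) (𝓝 1) := by
    have h3 : Continuous fun τ : B ≃ₐ[K] B => σ⁻¹ * τ := continuous_const_mul σ⁻¹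
    have h4 := h3.tendsto σ
    rwa [inv_mul_cancel] at h4
  filter_upwards [h2.eventually (A.cont_jac hg Q)] with τ hτ
  have h5 : c (σ⁻¹ * τ) = 0 := by
    apply hinj _ (hc1 _)
    rw [hc2, hτ, sub_self]
  have h6 := hmul σ (σ⁻¹ * τ)
  rw [mul_inv_cancel_left, h5, map_zero, add_zero] at h6
  exact h6

end act

section loc

/-- Restriction of automorphisms. -/
theorem exists_res {K B E C' : Type} [Field K] [Field B] [Field E] [Field C'] [Algebra K B]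
    [Algebra K E] [Algebra E C'] [Algebra K C'] [IsScalarTower K E C'] [Normal K B]
    (ι : B →ₐ[K] C') (σ : C' ≃ₐ[E] C') : ∃ τ : B ≃ₐ[K] B, ∀ z, σ (ι z) = ι (τ z) := by
  letI : Algebra B C' := ι.toRingHom.toAlgebra
  haveI : IsScalarTower K B C' := IsScalarTower.of_algebraMap_eq' ι.comp_algebraMap.symm
  refine ⟨(σ.restrictScalars K).restrictNormal B, fun z => ?_⟩
  exact (AlgEquiv.restrictNormal_commutes (σ.restrictScalars K) B z).symm

/-- A reduction of the classes over `M`, compatible with the action. -/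
structure LR {K B M : Type} [Field K] [Field B] [Field M] [Algebra K B] [Algebra K M]
    (A : SA K B M) (f : K[X]) (E C' : Type) [Field E] [Field C'] [Algebra K E] [Algebra E C']
    [Algebra K C'] [IsScalarTower K E C'] (ι : B →ₐ[K] C') (red : Jac 2 f M →+ Jac 2 f C') :
    Prop where
  const : ∀ T0, red (jm 2 f A.j T0) = jm 2 f ι T0
  aut : ∀ (σ : C' ≃ₐ[E] C') (τ : B ≃ₐ[K] B), (∀ z, σ (ι z) = ι (τ z)) →
    ∀ x, red (A.ac f τ x) = jm 2 f (rs K σ) (red x)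

variable {K B M : Type} [Field K] [Field B] [Field M] [Algebra K B] [Algebra K M]
  {A : SA K B M} {f : K[X]} {E C' : Type} [Field E] [Field C'] [Algebra K E] [Algebra E C']
    [Algebra K C'] [IsScalarTower K E C'] {ι : B →ₐ[K] C'} {red : Jac 2 f M →+ Jac 2 f C'}

theorem LR.coc (R : LR A f E C' ι red) {c : (B ≃ₐ[K] B) → Jac 2 f B} {Q : Jac 2 f M}
    (hc : ∀ σ, jm 2 f A.j (c σ) = A.ac f σ Q - Q) (σ : C' ≃ₐ[E] C') (τ : B ≃ₐ[K] B)
    (h : ∀ z, σ (ι z) = ι (τ z)) :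
    jm 2 f ι (c τ) = jm 2 f (rs K σ) (red Q) - red Q := by
  rw [← R.const, hc, map_sub, R.aut σ τ h]

/-- If the cocycle is a coboundary. -/
theorem LR.fin (hg : Good 2 (-1 : K) f) [IsGalois E C'] [Normal K B] (R : LR A f E C' ι red)
    {c : (B ≃ₐ[K] B) → Jac 2 f B} {Q : Jac 2 f M}
    (hc : ∀ σ, jm 2 f A.j (c σ) = A.ac f σ Q - Q) {T : Jac 2 f B}
    (hT : ∀ σ, c σ = jm 2 f (ak σ) T - T) {n : ℕ} (hn : 2 ^ n • T = 0) :
    ∃ y : Jac 2 f E, jm 2 f (incl K E C') (2 ^ n • y) = red (2 ^ n • Q) := by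
  obtain ⟨y, hy⟩ := fixed_class (E := E) hyps hg (red Q - jm 2 f ι T) (by
    intro σ
    obtain ⟨τ, hτ⟩ := exists_res ι σ
    have h1 := R.coc hc σ τ hτ
    rw [hT, map_sub] at h1
    have h2 : jm 2 f (rs K σ) (jm 2 f ι T) = jm 2 f ι (jm 2 f (ak τ) T) := by
      rw [jm_jm, jm_jm]
      have h : (rs K σ).comp ι = ι.comp (ak τ) := AlgHom.ext fun z => hτ z
      rw [h]
    rw [map_sub, h2]
    have h3 : jm 2 f (rs K σ) (red Q) = jm 2 f ι (jm 2 f (ak τ) T) - jm 2 f ι T + red Q := by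
      rw [h1]; abel
    rw [h3]; abel)
  refine ⟨y, ?_⟩
  rw [map_nsmul, hy, smul_sub, ← map_nsmul, ← map_nsmul, hn, map_zero, sub_zero]

end loc

end Run7.h23.Se
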