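import Pool.Agent.Run7.h23.Lo.Bas

/-!
# The reduction of ideals at a place
-/

set_option autoImplicit false
set_option linter.all false

open Polynomial Pool.Agent.Y160.SE

namespace Run7.h23.Se

open Run7.h23.Lo

section pt

variable {E : Type} [CommRing E]

/-- The ideal of the point `(a, b)`. -/
noncomputable def pt (f : E[X]) (a b : E) : Ideal (CR 2 f) :=
  Ideal.span {xp 2 f (X - C a), yy 2 f - xp 2 f (C b)}

theorem pt_map {E' : Type} [CommRing E'] (φ : E →+* E') {f : E[X]} {f' : E'[X]}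
    (hf : f.map φ = f') (a b : E) :
    (pt f a b).map (crMap 2 φ f f' hf) = pt f' (φ a) (φ b) := by
  rw [pt, Ideal.map_span, Set.image_pair, pt, map_sub, crMap_xp, crMap_xp, crMap_yy,
    Polynomial.map_sub, map_X, map_C, map_C]

theorem pt_mul {f : E[X]} {a b : E} (h : b ^ 2 = f.eval a)
    (hu : IsUnit (2 * b) ∨ IsUnit (f.derivative.eval a)) :
    pt f a b * pt f a (-b) = Ideal.span {xp 2 f (X - C a)} := by
  obtain ⟨G, hG⟩ := X_sub_C_dvd_sub_C_eval (p := f) (a := a)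
  obtain ⟨G2, hG2⟩ := X_sub_C_dvd_sub_C_eval (p := G) (a := a)
  have hGa : G.eval a = f.derivative.eval a := by
    have h1 := congrArg (fun p => (derivative p).eval a) hG
    simp only [derivative_sub, derivative_C, derivative_mul, derivative_X, eval_sub, eval_add,
      eval_mul, eval_X, eval_C, sub_self, zero_mul, add_zero, sub_zero, eval_one, one_mul,
      eval_zero] at h1
    exact h1.symm
  have hy := yy_pow 2 f
  have hβ : xp 2 f (C b) ^ 2 = xp 2 f (C (f.eval a)) := by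
    rw [← xp_pow, ← C_pow, h]
  have hneg : xp 2 f (C (-b)) = - xp 2 f (C b) := by rw [C_neg, xp_neg]
  have hf : xp 2 f f = xp 2 f (X - C a) * xp 2 f G + xp 2 f (C (f.eval a)) := by
    rw [← xp_mul, ← xp_add, ← hG, sub_add_cancel]
  have hprod : (yy 2 f - xp 2 f (C b)) * (yy 2 f - xp 2 f (C (-b))) =
      xp 2 f (X - C a) * xp 2 f G := by
    rw [hneg]
    linear_combination hy - hβ + hf
  unfold pt
  rw [Ideal.span_pair_mul_span_pair]
  apply le_antisymm
  · rw [Ideal.span_le]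
    rintro z hz
    simp only [Set.mem_insert_iff, Set.mem_singleton_iff] at hz
    rw [SetLike.mem_coe, Ideal.mem_span_singleton]
    rcases hz with rfl | rfl | rfl | rfl
    · exact dvd_mul_right _ _
    · exact dvd_mul_right _ _
    · exact dvd_mul_left _ _
    · rw [hprod]; exact dvd_mul_right _ _
  · rw [Ideal.span_le, Set.singleton_subset_iff, SetLike.mem_coe]
    set I : Ideal (CR 2 f) := Ideal.span {xp 2 f (X - C a) * xp 2 f (X - C a),
      xp 2 f (X - C a) * (yy 2 f - xp 2 f (C (-b))),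
      (yy 2 f - xp 2 f (C b)) * xp 2 f (X - C a),
      (yy 2 f - xp 2 f (C b)) * (yy 2 f - xp 2 f (C (-b)))} with hI
    have m1 : xp 2 f (X - C a) * xp 2 f (X - C a) ∈ I := Ideal.subset_span (by simp)
    have m2 : xp 2 f (X - C a) * (yy 2 f - xp 2 f (C (-b))) ∈ I := Ideal.subset_span (by simp)
    have m3 : (yy 2 f - xp 2 f (C b)) * xp 2 f (X - C a) ∈ I := Ideal.subset_span (by simp)
    have m4 : (yy 2 f - xp 2 f (C b)) * (yy 2 f - xp 2 f (C (-b))) ∈ I :=
      Ideal.subset_span (by simp)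
    have key : ∀ c : E, IsUnit c → xp 2 f (C c) * xp 2 f (X - C a) ∈ I →
        xp 2 f (X - C a) ∈ I := by
      intro c hc hm
      have hc' : IsUnit (xp 2 f (C c)) := (hc.map C).map (AdjoinRoot.of _)
      exact (Ideal.unit_mul_mem_iff_mem I hc').1 hm
    rcases hu with hu | hu
    · apply key _ hu
      have e : xp 2 f (C (2 * b)) = xp 2 f (C b) + xp 2 f (C b) := by
        rw [← xp_add, ← C_add, two_mul]
      have e2 : xp 2 f (C (2 * b)) * xp 2 f (X - C a) =
          xp 2 f (X - C a) * (yy 2 f - xp 2 f (C (-b))) -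
            (yy 2 f - xp 2 f (C b)) * xp 2 f (X - C a) := by
        rw [e, hneg]; ring
      rw [e2]
      exact I.sub_mem m2 m3
    · apply key _ hu
      rw [← hGa]
      have e3 : xp 2 f G = xp 2 f (X - C a) * xp 2 f G2 + xp 2 f (C (G.eval a)) := by
        rw [← xp_mul, ← xp_add, ← hG2, sub_add_cancel]
      have e4 : xp 2 f (C (G.eval a)) * xp 2 f (X - C a) =
          (yy 2 f - xp 2 f (C b)) * (yy 2 f - xp 2 f (C (-b))) -
            xp 2 f G2 * (xp 2 f (X - C a) * xp 2 f (X - C a)) := by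
        rw [hprod]
        linear_combination (-(xp 2 f (X - C a))) * e3
      rw [e4]
      exact I.sub_mem m4 (I.mul_mem_left _ m1)

end pt

section prime

variable {Λ : Type} [Field Λ] [IsAlgClosed Λ] {f : Λ[X]}

/-- The primes over an algebraically closed field are the points. -/
theorem prime_pt (hG : Good 2 (-1 : Λ) f) {P : Ideal (CR 2 f)} (hP : P.IsPrime) (hP0 : P ≠ ⊥) :
    ∃ a b : Λ, b ^ 2 = f.eval a ∧ P = pt f a b := by
  obtain ⟨p, hp, hpm, hcase⟩ := hyps.max 2 Λ (-1) f hG P hP hP0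
  have hmem : xp 2 f p ∈ P := by
    rcases hcase with ⟨-, h⟩ | ⟨-, c, -, h, -⟩ | ⟨-, h, -⟩
    · rw [h]; exact Ideal.mem_span_singleton_self _
    · rw [h]; exact Ideal.subset_span (by simp)
    · rw [h]; exact Ideal.subset_span (by simp)
  have hdeg : p.degree = 1 := IsAlgClosed.degree_eq_one_of_irreducible Λ hp
  obtain ⟨a, ha⟩ : ∃ a, p = X - C a := by
    refine ⟨-p.coeff 0, ?_⟩
    have h1 := hpm.eq_X_add_C (natDegree_eq_of_degree_eq_some hdeg)
    rw [C_neg, sub_neg_eq_add]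
    exact h1
  subst ha
  obtain ⟨b, hb⟩ := IsAlgClosed.exists_pow_nat_eq (f.eval a) (n := 2) two_pos
  obtain ⟨G, hG'⟩ := X_sub_C_dvd_sub_C_eval (p := f) (a := a)
  have hy := yy_pow 2 f
  have hβ : xp 2 f (C b) ^ 2 = xp 2 f (C (f.eval a)) := by
    rw [← xp_pow, ← C_pow, hb]
  have hf : xp 2 f f = xp 2 f (X - C a) * xp 2 f G + xp 2 f (C (f.eval a)) := by
    rw [← xp_mul, ← xp_add, ← hG', sub_add_cancel]
  have hprod : (yy 2 f - xp 2 f (C b)) * (yy 2 f + xp 2 f (C b)) ∈ P := by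
    have e : (yy 2 f - xp 2 f (C b)) * (yy 2 f + xp 2 f (C b)) =
        xp 2 f G * xp 2 f (X - C a) := by
      linear_combination hy - hβ + hf
    rw [e]
    exact P.mul_mem_left _ hmem
  have hmax : ∀ c : Λ, c ^ 2 = f.eval a → yy 2 f - xp 2 f (C c) ∈ P → P = pt f a c := by
    intro c hc hcP
    have h1 : pt f a c ≤ P := by
      unfold pt
      rw [Ideal.span_le]
      rintro z (rfl | rfl)
      · exact hmem
      · exact hcP
    have h2 : (pt f a c).IsMaximal := by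
      have h3 : pt f a c = RingHom.ker (evP 2 f a c hc) := ptI_eq hc
      rw [h3]
      apply RingHom.ker_isMaximal_of_surjective
      intro z
      exact ⟨xp 2 f (C z), by rw [evP_xp, eval_C]⟩
    exact (h2.eq_of_le hP.ne_top h1).symm
  rcases hP.mem_or_mem hprod with h1 | h1
  · exact ⟨a, b, hb, hmax b hb h1⟩
  · refine ⟨a, -b, by rw [neg_sq]; exact hb, hmax (-b) (by rw [neg_sq]; exact hb) ?_⟩
    rw [C_neg, xp_neg, sub_neg_eq_add]
    exact h1

end prime

/-- A place of `Λ` with the valuation ring `W` and values in `C`. -/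
structure Pl {W Λ C : Type} [CommRing W] [Field Λ] [Field C] (i : W →+* Λ) (ρ : W →+* C) :
    Prop where
  inj : Function.Injective i
  loc : ∀ w, ρ w ≠ 0 → IsUnit w
  val : ∀ z : Λ, (∃ w, i w = z) ∨ ∃ w, ρ w = 0 ∧ i w * z = 1

section main

variable {W Λ C' : Type} [CommRing W] [IsDomain W] [Field Λ] [Field C'] {i : W →+* Λ}
  {ρ : W →+* C'} (P : Pl i ρ)

include P

theorem Pl.fin (s : Finset Λ) (hs : ∃ x ∈ s, x ≠ 0) :
    ∃ c ∈ s, c ≠ 0 ∧ ∀ x ∈ s, ∃ w, x = c * i w := by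
  classical
  induction s using Finset.induction_on with
  | empty => obtain ⟨x, hx, -⟩ := hs; simp at hx
  | insert x s hxs ih =>
    by_cases h0 : ∃ x ∈ s, x ≠ 0
    · obtain ⟨c, hcs, hc0, hc⟩ := ih h0
      rcases P.val (x / c) with ⟨w, hw⟩ | ⟨w, hw0, hw⟩
      · refine ⟨c, Finset.mem_insert_of_mem hcs, hc0, fun y hy => ?_⟩
        rcases Finset.mem_insert.1 hy with rfl | hy
        · exact ⟨w, by rw [hw]; field_simp⟩
        · exact hc y hy
      · have hx0 : x ≠ 0 := by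
          rintro rfl
          rw [zero_div, mul_zero] at hw
          exact zero_ne_one hw
        have hcx : c = x * i w := by
          field_simp at hw
          rw [← hw]; ring
        refine ⟨x, Finset.mem_insert_self _ _, hx0, fun y hy => ?_⟩
        rcases Finset.mem_insert.1 hy with rfl | hy
        · exact ⟨1, by rw [map_one, mul_one]⟩
        · obtain ⟨w', hw'⟩ := hc y hy
          exact ⟨w * w', by rw [hw', map_mul, hcx]; ring⟩
    · push Not at h0
      obtain ⟨y, hy, hy0⟩ := hs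
      rcases Finset.mem_insert.1 hy with rfl | hy
      · refine ⟨y, Finset.mem_insert_self _ _, hy0, fun z hz => ?_⟩
        rcases Finset.mem_insert.1 hz with rfl | hz
        · exact ⟨1, by rw [map_one, mul_one]⟩
        · exact ⟨0, by rw [h0 z hz, map_zero, mul_zero]⟩
      · exact absurd (h0 y hy) hy0

theorem Pl.lift {c : Λ} (hc : c ≠ 0) {p : Λ[X]} (h : ∀ n, ∃ w, p.coeff n = c * i w) :
    ∃ q : W[X], p = C c * q.map i := by
  have h1 : C c⁻¹ * p ∈ lifts i := by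
    rw [lifts_iff_coeff_lifts]
    intro n
    obtain ⟨w, hw⟩ := h n
    refine ⟨w, ?_⟩
    rw [coeff_C_mul, hw, inv_mul_cancel_left₀ hc]
  obtain ⟨q, hq⟩ := (mem_lifts _).1 h1
  refine ⟨q, ?_⟩
  rw [hq, ← mul_assoc, ← C_mul, mul_inv_cancel₀ hc, C_1, one_mul]

variable {F : W[X]} {fL : Λ[X]} {fC : C'[X]} (hi : F.map i = fL) (hρ : F.map ρ = fC)

theorem Pl.prim {z : CR 2 fL} (hz : z ≠ 0) : ∃ (c : Λ) (h : CR 2 F), c ≠ 0 ∧
    z = xp 2 fL (C c) * crMap 2 i F fL hi h ∧ crMap 2 ρ F fC hρ h ≠ 0 := by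
  classical
  obtain ⟨c, hcs, hc0, hc⟩ := P.fin ((c0 z).coeffs ∪ (c1 z).coeffs) (by
    by_contra hcon
    push Not at hcon
    apply hz
    have key : ∀ p : Λ[X], (∀ x ∈ p.coeffs, x = 0) → p = 0 := by
      intro p hp
      ext n
      rw [coeff_zero]
      by_contra hn
      exact hn (hp _ (coeff_mem_coeffs hn))
    apply el_ext
    · rw [c0_zero]
      exact key _ fun x hx => hcon x (Finset.mem_union_left _ hx)
    · rw [c1_zero]
      exact key _ fun x hx => hcon x (Finset.mem_union_right _ hx))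
  have h0 : ∀ n, ∃ w, (c0 z).coeff n = c * i w := by
    intro n
    by_cases hn : (c0 z).coeff n = 0
    · exact ⟨0, by rw [hn, map_zero, mul_zero]⟩
    · exact hc _ (Finset.mem_union_left _ (coeff_mem_coeffs hn))
  have h1 : ∀ n, ∃ w, (c1 z).coeff n = c * i w := by
    intro n
    by_cases hn : (c1 z).coeff n = 0
    · exact ⟨0, by rw [hn, map_zero, mul_zero]⟩
    · exact hc _ (Finset.mem_union_right _ (coeff_mem_coeffs hn))
  obtain ⟨a, ha⟩ := P.lift hc0 h0
  obtain ⟨b, hb⟩ := P.lift hc0 h1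
  refine ⟨c, el F a b, hc0, ?_, ?_⟩
  · rw [map_el, xp_mul_el, ← ha, ← hb, el_eq]
  · rw [map_el]
    intro h2
    have e0 : a.map ρ = 0 := by rw [← c0_el (f := fC) (a.map ρ) (b.map ρ), h2, c0_zero]
    have e1 : b.map ρ = 0 := by rw [← c1_el (f := fC) (a.map ρ) (b.map ρ), h2, c1_zero]
    have key : ∀ (p : Λ[X]) (q : W[X]), p = C c * q.map i → q.map ρ = 0 → c ∉ p.coeffs := by
      intro p q hp hq hcp
      obtain ⟨n, hn, hcn⟩ := mem_coeffs_iff.1 hcp
      rw [hp, coeff_C_mul, coeff_map] at hcn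
      have h3 : i (q.coeff n) = 1 := mul_left_cancel₀ hc0 (by rw [← hcn, mul_one])
      have h4 : q.coeff n = 1 := P.inj (by rw [h3, map_one])
      have h5 := congrArg (fun r => r.coeff n) hq
      simp only [coeff_map, coeff_zero] at h5
      rw [h4, map_one] at h5
      exact one_ne_zero h5
    rcases Finset.mem_union.1 hcs with h | h
    · exact key _ _ ha e0 h
    · exact key _ _ hb e1 h

theorem Pl.gauss (ho : Odd fC.natDegree) {h z : CR 2 F} (hh : crMap 2 ρ F fC hρ h ≠ 0)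
    {q : CR 2 fL} (hq : crMap 2 i F fL hi h * q = crMap 2 i F fL hi z) :
    ∃ r, crMap 2 i F fL hi r = q := by
  haveI := dom ho
  by_cases hq0 : q = 0
  · exact ⟨0, by rw [map_zero, hq0]⟩
  obtain ⟨c, r, hc, hqr, hr⟩ := P.prim hi hρ hq0
  rcases P.val c with ⟨w, hw⟩ | ⟨w, hw0, hw⟩
  · refine ⟨xp 2 F (C w) * r, ?_⟩
    rw [map_mul, crMap_xp, map_C, hw, ← hqr]
  · exfalso
    have h1 : crMap 2 i F fL hi (h * r) = crMap 2 i F fL hi (xp 2 F (C w) * z) := by
      rw [map_mul, map_mul, crMap_xp, map_C, ← hq, hqr]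
      have e : xp 2 fL (C (i w)) * xp 2 fL (C c) = 1 := by
        rw [← xp_mul, ← C_mul, hw, C_1, xp_one]
      linear_combination (-(crMap 2 i F fL hi h * crMap 2 i F fL hi r)) * e
    have h2 := map_inj i hi P.inj h1
    have h3 := congrArg (crMap 2 ρ F fC hρ) h2
    rw [map_mul, map_mul, crMap_xp, map_C, hw0, C_0, xp_zero, zero_mul] at h3
    exact mul_ne_zero hh hr h3

theorem Pl.comap_span (ho : Odd fC.natDegree) {h : CR 2 F} (hh : crMap 2 ρ F fC hρ h ≠ 0) :
    (Ideal.span {crMap 2 i F fL hi h}).comap (crMap 2 i F fL hi) = Ideal.span {h} := by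
  ext z
  rw [Ideal.mem_comap, Ideal.mem_span_singleton, Ideal.mem_span_singleton]
  constructor
  · rintro ⟨q, hq⟩
    obtain ⟨r, rfl⟩ := P.gauss hi hρ ho hh hq.symm
    refine ⟨r, map_inj i hi P.inj ?_⟩
    rw [hq, map_mul]
  · rintro ⟨r, rfl⟩
    exact ⟨crMap 2 i F fL hi r, map_mul _ _ _⟩

theorem Pl.sat (ho : Odd F.natDegree) {J J' : Ideal (CR 2 F)} {u : W[X]} (hu : u.Monic)
    (hJ : J * J' = Ideal.span {xp 2 F u}) :
    (J.map (crMap 2 i F fL hi)).comap (crMap 2 i F fL hi) = J := by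
  haveI := dom ho
  apply le_antisymm _ Ideal.le_comap_map
  intro z hz
  rw [Ideal.mem_comap] at hz
  have h1 : ∀ w ∈ J', z * w ∈ J * J' := by
    intro w hw
    have h2 : crMap 2 i F fL hi (z * w) ∈ (J * J').map (crMap 2 i F fL hi) := by
      rw [map_mul, Ideal.map_mul]
      exact Ideal.mul_mem_mul hz (Ideal.mem_map_of_mem _ hw)
    rw [hJ, Ideal.map_span, Set.image_singleton, crMap_xp, Ideal.mem_span_singleton] at h2
    obtain ⟨q, hq⟩ := h2
    rw [hJ, Ideal.mem_span_singleton]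
    have h3 : u ∣ c0 (z * w) := by
      rw [← map_dvd_map i P.inj hu, ← c0_map i hi, hq, c0_xp_mul]
      exact dvd_mul_right _ _
    have h4 : u ∣ c1 (z * w) := by
      rw [← map_dvd_map i P.inj hu, ← c1_map i hi, hq, c1_xp_mul]
      exact dvd_mul_right _ _
    obtain ⟨p, hp⟩ := h3
    obtain ⟨r, hr⟩ := h4
    refine ⟨el F p r, ?_⟩
    rw [xp_mul_el, ← hp, ← hr, el_eq]
  have h5 : Ideal.span {z} * J' ≤ J * J' := by
    rw [Ideal.span_singleton_mul_le_iff]
    exact h1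
  have h6 : Ideal.span {z} * J' * J ≤ J * J' * J := Ideal.mul_mono_left h5
  have h7 : z * xp 2 F u ∈ J * Ideal.span {xp 2 F u} := by
    have e : J * Ideal.span {xp 2 F u} = J * J' * J := by rw [← hJ]; ring
    rw [e]
    apply h6
    have e2 : Ideal.span {z} * J' * J = Ideal.span {z} * Ideal.span {xp 2 F u} := by
      rw [← hJ]; ring
    rw [e2]
    exact Ideal.mul_mem_mul (Ideal.mem_span_singleton_self _) (Ideal.mem_span_singleton_self _)
  obtain ⟨j, hj, hj2⟩ := Ideal.mem_mul_span_singleton.1 h7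
  have hu0 : xp 2 F u ≠ 0 := by
    intro h0
    exact hu.ne_zero (xp_inj' (f := F) (h0.trans xp_zero.symm))
  have h8 : j = z := mul_right_cancel₀ hu0 hj2
  rw [← h8]
  exact hj

omit P in
/-- The ideal `I` is the product of the image of `J` and an ideal prime to the special fibre. -/
def Sp (hi : F.map i = fL) (hρ : F.map ρ = fC) (I : Ideal (CR 2 fL)) (J : Ideal (CR 2 F)) : Prop :=
  ∃ (J' : Ideal (CR 2 F)) (u : W[X]) (M : Ideal (CR 2 fL)) (e : CR 2 F), u.Monic ∧
    J * J' = Ideal.span {xp 2 F u} ∧ I = J.map (crMap 2 i F fL hi) * M ∧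
    crMap 2 i F fL hi e ∈ M ∧ crMap 2 ρ F fC hρ e = 1

omit P in
/-- The reduction of an ideal. -/
noncomputable def Rd (hi : F.map i = fL) (hρ : F.map ρ = fC) (I : Ideal (CR 2 fL)) :
    Ideal (CR 2 fC) := (I.comap (crMap 2 i F fL hi)).map (crMap 2 ρ F fC hρ)

variable {hi hρ}

theorem Sp.rd (ho : Odd F.natDegree) {I : Ideal (CR 2 fL)} {J : Ideal (CR 2 F)}
    (h : Sp hi hρ I J) : Rd hi hρ I = J.map (crMap 2 ρ F fC hρ) := by
  obtain ⟨J', u, M, e, hu, hJ, hI, he, he1⟩ := h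
  apply le_antisymm
  · refine Ideal.map_mono ?_
    refine le_trans ?_ (P.sat hi ho hu hJ).le
    have h0 : I ≤ J.map (crMap 2 i F fL hi) := by
      rw [hI]
      exact Ideal.mul_le_left
    exact Ideal.comap_mono h0
  · rw [Ideal.map_le_iff_le_comap]
    intro z hz
    rw [Ideal.mem_comap]
    have h1 : z * e ∈ I.comap (crMap 2 i F fL hi) := by
      rw [Ideal.mem_comap, map_mul, hI]
      exact Ideal.mul_mem_mul (Ideal.mem_map_of_mem _ hz) he
    have h2 := Ideal.mem_map_of_mem (crMap 2 ρ F fC hρ) h1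
    rw [map_mul, he1, mul_one] at h2
    exact h2

omit P in
theorem Sp.mul {I₁ I₂ : Ideal (CR 2 fL)} {J₁ J₂ : Ideal (CR 2 F)} (h₁ : Sp hi hρ I₁ J₁)
    (h₂ : Sp hi hρ I₂ J₂) : Sp hi hρ (I₁ * I₂) (J₁ * J₂) := by
  obtain ⟨J₁', u₁, M₁, e₁, hu₁, hJ₁, hI₁, he₁, hf₁⟩ := h₁
  obtain ⟨J₂', u₂, M₂, e₂, hu₂, hJ₂, hI₂, he₂, hf₂⟩ := h₂
  refine ⟨J₁' * J₂', u₁ * u₂, M₁ * M₂, e₁ * e₂, hu₁.mul hu₂, ?_, ?_, ?_, ?_⟩
  · rw [xp_mul, ← Ideal.span_singleton_mul_span_singleton, ← hJ₁, ← hJ₂]; ring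
  · rw [hI₁, hI₂, Ideal.map_mul]; ring
  · rw [map_mul]; exact Ideal.mul_mem_mul he₁ he₂
  · rw [map_mul, hf₁, hf₂, one_mul]

omit P in
theorem Sp.top : Sp hi hρ (⊤ : Ideal (CR 2 fL)) ⊤ := by
  refine ⟨⊤, 1, ⊤, 1, monic_one, ?_, ?_, ?_, ?_⟩
  · rw [xp_one, Ideal.span_singleton_one, Ideal.top_mul]
  · rw [Ideal.map_top, Ideal.top_mul]
  · trivial
  · rw [map_one]

omit P in
theorem Sp.const {J J' : Ideal (CR 2 F)} {u : W[X]} (hu : u.Monic)
    (hJ : J * J' = Ideal.span {xp 2 F u}) : Sp hi hρ (J.map (crMap 2 i F fL hi)) J := by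
  refine ⟨J', u, ⊤, 1, hu, hJ, ?_, ?_, ?_⟩
  · rw [Ideal.mul_top]
  · trivial
  · rw [map_one]

theorem Sp.int (h2 : (2 : C') ≠ 0) (hs : fC.Separable) {a b : W} (hab : b ^ 2 = F.eval a) :
    Sp hi hρ (pt fL (i a) (i b)) (pt F a b) := by
  have h1 : IsUnit (2 * b) ∨ IsUnit (F.derivative.eval a) := by
    by_contra hc
    push Not at hc
    have h3 : ρ (2 * b) = 0 := by
      by_contra h; exact hc.1 (P.loc _ h)
    have h4 : ρ (F.derivative.eval a) = 0 := by
      by_contra h; exact hc.2 (P.loc _ h)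
    rw [map_mul, map_ofNat] at h3
    have h5 : ρ b = 0 := (mul_eq_zero.1 h3).resolve_left h2
    have h6 : fC.eval (ρ a) = 0 := by
      rw [← hρ, eval_map, eval₂_hom, ← hab, map_pow, h5, zero_pow two_ne_zero]
    have h7 : fC.derivative.eval (ρ a) = 0 := by
      rw [← hρ, derivative_map, eval_map, eval₂_hom, h4]
    exact hs.eval₂_derivative_ne_zero (RingHom.id C') (x := ρ a) (by
      rw [← eval_map, Polynomial.map_id]; exact h6) (by
      rw [← eval_map, Polynomial.map_id]; exact h7)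
  refine ⟨pt F a (-b), X - C a, ⊤, 1, monic_X_sub_C a, pt_mul hab h1, ?_, ?_, ?_⟩
  · rw [pt_map, Ideal.mul_top]
  · trivial
  · rw [map_one]

omit P in
theorem Sp.inf {a b : Λ} {w : W} (hw0 : ρ w = 0) (hw : i w * a = 1) :
    Sp hi hρ (pt fL a b) ⊤ := by
  refine ⟨⊤, 1, pt fL a b, xp 2 F (1 - C w * X), monic_one, ?_, ?_, ?_, ?_⟩
  · rw [xp_one, Ideal.span_singleton_one, Ideal.top_mul]
  · rw [Ideal.map_top, Ideal.top_mul]
  · rw [crMap_xp]
    have e : (1 - C w * X : W[X]).map i = - C (i w) * (X - C a) := by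
      rw [Polynomial.map_sub, Polynomial.map_one, Polynomial.map_mul, map_C, map_X]
      have : (1 : Λ[X]) = C (i w) * C a := by rw [← C_mul, hw, C_1]
      rw [this]; ring
    rw [e, xp_mul]
    exact Ideal.mul_mem_left _ _ (Ideal.subset_span (by simp))
  · rw [crMap_xp, Polynomial.map_sub, Polynomial.map_one, Polynomial.map_mul, map_C, hw0, C_0,
      zero_mul, sub_zero, xp_one]

theorem Sp.point (h2 : (2 : C') ≠ 0) (hs : fC.Separable) {a b : Λ} (hab : b ^ 2 = fL.eval a) :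
    ∃ J, Sp hi hρ (pt fL a b) J := by
  rcases P.val a with ⟨w, rfl⟩ | ⟨w, hw0, hw⟩
  · rcases P.val b with ⟨t, rfl⟩ | ⟨t, ht0, ht⟩
    · refine ⟨_, Sp.int P h2 hs (a := w) (b := t) (P.inj ?_)⟩
      rw [map_pow, hab, ← hi, eval_map, eval₂_hom]
    · exfalso
      have h3 : t ^ 2 * F.eval w = 1 := by
        apply P.inj
        rw [map_mul, map_pow, map_one, ← eval₂_hom, ← eval_map, hi, ← hab, ← mul_pow, ht, one_pow]
      have h4 := congrArg ρ h3
      rw [map_mul, map_pow, ht0, zero_pow two_ne_zero, zero_mul, map_one] at h4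
      exact zero_ne_one h4
  · exact ⟨⊤, Sp.inf hw0 hw⟩

theorem exists_Sp [IsAlgClosed Λ] (hGL : Good 2 (-1 : Λ) fL) (h2 : (2 : C') ≠ 0)
    (hs : fC.Separable) (I : Ideal (CR 2 fL)) (hI : I ≠ ⊥) : ∃ J, Sp hi hρ I J := by
  haveI := hyps.ring 2 Λ (-1) _ hGL
  induction I using UniqueFactorizationMonoid.induction_on_prime with
  | h₁ => exact absurd rfl hI
  | h₂ x hx =>
    rw [Ideal.isUnit_iff] at hx
    rw [hx]
    exact ⟨⊤, Sp.top⟩
  | h₃ a p ha hp ih =>
    have hp0 : p ≠ ⊥ := hp.ne_zero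
    obtain ⟨x, y, hxy, rfl⟩ := prime_pt hGL ((Ideal.prime_iff_isPrime hp0).1 hp) hp0
    obtain ⟨J₁, hJ₁⟩ := Sp.point P (hi := hi) (hρ := hρ) h2 hs hxy
    obtain ⟨J₂, hJ₂⟩ := ih ha
    exact ⟨J₁ * J₂, hJ₁.mul hJ₂⟩

end main

end Run7.h23.Se
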