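import Pool.Agent.Run7.h23.Lo.Jac
import Pool.Agent.Run7.h23.Gn.Reg
import Pool.Agent.Run7.h23.Se.Rd
import Pool.Agent.Y791.BS.Loc
import Pool.Agent.Y317.SE.Res

/-!
# The local theorem for one class, over the completions
-/

set_option autoImplicit false
set_option linter.all false

open Polynomial Pool.Agent.Y160.SE IsDedekindDomain NumberField
open scoped Classical nonZeroDivisors WithZero

namespace Run7.h23.Se

open Run7.h23.Lo

section one

variable {O k K : Type} [CommRing O] [IsDomain O] [IsDiscreteValuationRing O] [Field k] [Field K]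
  [Algebra O K] [IsFractionRing O K] {red : O →+* k} {π : O} {g : ℕ}
  {f A B E : O[X]} (D : Dat red π g f A B E)

include D

/-- A class which is divisible by all powers of two is trivial. -/
theorem main_one (hG : Good 2 (-1 : K) (f.map (algebraMap O K)))
    {I : Ideal (CR 2 (f.map (algebraMap O K)))} (hI : I ≠ ⊥)
    (hdiv : ∀ s : ℕ, ∃ J : Ideal (CR 2 (f.map (algebraMap O K))), J ≠ ⊥ ∧ Eqv I (J ^ 2 ^ s)) :
    Eqv I ⊤ := by
  haveI := hyps.ring 2 K (-1) _ hG
  haveI := dom (D.oddK (K := K))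
  have key : ∀ s, 1 ≤ s → ∀ (I : Ideal (CR 2 (f.map (algebraMap O K)))) (u : O[X]),
      Gd red B I u → (∃ J : Ideal (CR 2 (f.map (algebraMap O K))), J ≠ ⊥ ∧ Eqv I (J ^ 2 ^ s)) →
      Gs D I u s := by
    intro s
    induction s with
    | zero => intro h; omega
    | succ s ih =>
      rintro _ I u hI ⟨J, hJ, hIJ⟩
      have hJs : J ^ 2 ^ s ≠ ⊥ := pow_ne_zero _ hJ
      obtain ⟨I₁, u₁, h1, h2⟩ := exists_good D hG hJs
      have hIJ' : Eqv I (J ^ 2 ^ s * J ^ 2 ^ s) := by
        have e : J ^ 2 ^ (s + 1) = J ^ 2 ^ s * J ^ 2 ^ s := by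
          rw [← pow_add]; congr 1; rw [pow_succ]; ring
        rwa [e] at hIJ
      have h3 := Pool.Agent.Y494.SE.Eqv.trans hIJ' (Pool.Agent.Y494.SE.Eqv.mul h1 h1)
      rcases Nat.eq_zero_or_pos s with rfl | hs
      · exact step1 D hG hI h2 h3
      · exact step2 D hG hI h2 h3 hs
          (ih hs I₁ u₁ h2 ⟨J, hJ, Pool.Agent.Y494.SE.Eqv.symm h1⟩)
  obtain ⟨I', u', h1, h2⟩ := exists_good D hG hI
  obtain ⟨a, ha, h3⟩ := last D hG h2 fun s hs => key s hs I' u' h2 (by
    obtain ⟨J, hJ, hIJ⟩ := hdiv s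
    exact ⟨J, hJ, Pool.Agent.Y494.SE.Eqv.trans (Pool.Agent.Y494.SE.Eqv.symm h1) hIJ⟩)
  refine Pool.Agent.Y494.SE.Eqv.trans h1 ⟨1, jj K f a, one_ne_zero, ?_, ?_⟩
  · intro h0
    have : a = 0 := by
      apply jj_inj (K := K)
      rw [h0, map_zero]
    rw [this, map_zero] at ha
    exact ha rfl
  · rw [h3, Ideal.mul_top, Ideal.span_singleton_one, Ideal.top_mul]

end one

section app

variable {R : Type} [CommRing R] [IsDedekindDomain R]

/-- The same over the field of fractions of a Dedekind ring. -/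
theorem app_one {K : Type} [Field K] [Algebra R K] [IsFractionRing R K] (v : HeightOneSpectrum R)
    [Finite (R ⧸ v.asIdeal)] (h2 : (2 : R) ∈ v.asIdeal) {g : ℕ} {f : R[X]} (hm : f.Monic)
    (hd : f.natDegree = 2 * g + 1) (hR : RegAt v g f) {F : K[X]}
    (hF : f.map (algebraMap R K) = F) (hG : Good 2 (-1 : K) F)
    {I : Ideal (CR 2 F)} (hI : I ≠ ⊥)
    (hdiv : ∀ s : ℕ, ∃ J : Ideal (CR 2 F), J ≠ ⊥ ∧ Eqv I (J ^ 2 ^ s)) : Eqv I ⊤ := by
  set O := Localization.AtPrime v.asIdeal with hO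
  haveI : IsDiscreteValuationRing O :=
    IsLocalization.AtPrime.isDiscreteValuationRing_of_dedekind_domain R v.ne_bot O
  obtain ⟨π, A, B, E, D⟩ := dat_of_reg v h2 hm hd hR O
  have hM : v.asIdeal.primeCompl ≤ (R⁰).comap (RingHom.id R) :=
    v.asIdeal.primeCompl_le_nonZeroDivisors
  letI : Algebra O K := (IsLocalization.map (M := v.asIdeal.primeCompl) (T := R⁰) K (RingHom.id R) hM :
    O →+* K).toAlgebra
  haveI : IsScalarTower R O K := IsScalarTower.of_algebraMap_eq' (by
    rw [RingHom.algebraMap_toAlgebra, IsLocalization.map_comp, RingHom.comp_id])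
  haveI : IsFractionRing O K :=
    IsFractionRing.isFractionRing_of_isDomain_of_isLocalization v.asIdeal.primeCompl O K
  have h3 : (f.map (algebraMap R O)).map (algebraMap O K) = F := by
    rw [Polynomial.map_map, ← IsScalarTower.algebraMap_eq, hF]
  subst h3
  exact main_one D hG hI hdiv

end app

section pt

variable {K : Type} [Field K] {P : K[X]}

/-- The ideal of a point is not principal. -/
theorem pt_np {g : ℕ} (hg : 1 ≤ g) (hd : P.natDegree = 2 * g + 1) {a b : K}
    (hab : b ^ 2 = P.eval a) : ¬ Eqv (pt P a b) ⊤ := by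
  intro h
  have ho : Odd P.natDegree := by rw [hd]; exact odd_two_mul_add_one g
  haveI := dom ho
  obtain ⟨z, hz⟩ := principal_of_eqv h
  have h1 : xp 2 P (X - C a) ∈ pt P a b := Ideal.subset_span (by simp)
  have h2 : yy 2 P - xp 2 P (C b) ∈ pt P a b := Ideal.subset_span (by simp)
  rw [hz, Ideal.mem_span_singleton] at h1 h2
  obtain ⟨w, hw⟩ := h1
  obtain ⟨w', hw'⟩ := h2
  have h3 : nm z ∣ (X - C a) ^ 2 := by
    rw [← nm_xp (f := P) (X - C a), hw, nm_mul]
    exact dvd_mul_right _ _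
  have h4 : (nm z).natDegree ≤ 2 := by
    refine (natDegree_le_of_dvd h3 (pow_ne_zero 2 (X_sub_C_ne_zero a))).trans ?_
    rw [natDegree_pow, natDegree_X_sub_C]
  have h5 := (le_iff ho).2 h4
  have h6 : c1 z = 0 := by
    rcases h5.2 with h | h
    · exact h
    · omega
  have h7 : z = xp 2 P (c0 z) := by
    apply el_ext
    · rw [c0_xp]
    · rw [c1_xp, h6]
  have h8 := congrArg c1 hw'
  rw [c1_sub, c1_xp, el_yy, c1_el, h7, c1_xp_mul, sub_zero] at h8
  have h9 : (1 : CR 2 P) ∈ pt P a b := by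
    rw [hz, h7, Ideal.mem_span_singleton]
    exact ⟨xp 2 P (c1 w'), by rw [← xp_mul, ← h8, xp_one]⟩
  have h10 : pt P a b = RingHom.ker (evP 2 P a b hab) := ptI_eq hab
  rw [h10, RingHom.mem_ker, map_one] at h9
  exact one_ne_zero h9

theorem pt_ne {a b : K} : pt P a b ≠ ⊥ := by
  intro h
  have h1 : xp 2 P (X - C a) ∈ pt P a b := Ideal.subset_span (by simp)
  rw [h, Ideal.mem_bot] at h1
  exact X_sub_C_ne_zero a (xp_inj (f := P) two_ne_zero (by rw [h1, xp_zero]))

end pt

section compl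

variable {K : Type} [Field K] [NumberField K] (v : HeightOneSpectrum (𝓞 K))

/-- The maximal ideal of the completion. -/
noncomputable def vc : HeightOneSpectrum (v.adicCompletionIntegers K) where
  asIdeal := IsLocalRing.maximalIdeal _
  isPrime := inferInstance
  ne_bot := IsDiscreteValuationRing.not_a_field _

theorem val_alg (x : 𝓞 K) : Valued.v ((algebraMap (𝓞 K) (v.adicCompletionIntegers K) x :
    v.adicCompletionIntegers K) : v.adicCompletion K) = v.intValuation x := by
  have e : Valued.v (algebraMap K (v.adicCompletion K) (algebraMap (𝓞 K) K x)) =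
      v.valuation K (algebraMap (𝓞 K) K x) :=
    HeightOneSpectrum.valuedAdicCompletion_eq_valuation' v _
  rw [HeightOneSpectrum.valuation_of_algebraMap] at e
  exact e

theorem map_le_vc : v.asIdeal.map (algebraMap (𝓞 K) (v.adicCompletionIntegers K)) ≤
    (vc v).asIdeal := by
  rw [Ideal.map_le_iff_le_comap]
  intro x hx
  rw [Ideal.mem_comap]
  refine (Valuation.mem_maximalIdeal_iff _ _).2 ?_
  rw [val_alg]
  exact (HeightOneSpectrum.intValuation_lt_one_iff_mem v x).2 hx

theorem not_map_le_vc : ¬ v.asIdeal.map (algebraMap (𝓞 K) (v.adicCompletionIntegers K)) ≤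
    (vc v).asIdeal ^ 2 := by
  intro h
  obtain ⟨ϖ, hϖ⟩ := IsDiscreteValuationRing.exists_irreducible (v.adicCompletionIntegers K)
  have hm : (vc v).asIdeal = Ideal.span {ϖ} := hϖ.maximalIdeal_eq
  have hϖm : ϖ ∈ IsLocalRing.maximalIdeal (v.adicCompletionIntegers K) := by
    rw [hϖ.maximalIdeal_eq]
    exact Ideal.mem_span_singleton_self ϖ
  have hϖ1 : Valued.v (ϖ : v.adicCompletion K) < 1 := (Valuation.mem_maximalIdeal_iff _ _).1 hϖm
  have hϖ2 : Valued.v (ϖ : v.adicCompletion K) ≤ WithZero.exp (-1 : ℤ) := by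
    rw [← WithZero.lt_mul_exp_iff_le WithZero.exp_ne_zero, ← WithZero.exp_add, neg_add_cancel,
      WithZero.exp_zero]
    exact hϖ1
  obtain ⟨π, hπ⟩ := v.intValuation_exists_uniformizer
  have hπm : π ∈ v.asIdeal := by
    rw [← HeightOneSpectrum.intValuation_lt_one_iff_mem, hπ, ← WithZero.exp_zero,
      WithZero.exp_lt_exp]
    norm_num
  have h2 := h (Ideal.mem_map_of_mem _ hπm)
  rw [hm, Ideal.span_singleton_pow, Ideal.mem_span_singleton] at h2
  obtain ⟨c, hc⟩ := h2
  have h3 : Valued.v ((algebraMap (𝓞 K) (v.adicCompletionIntegers K) π :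
      v.adicCompletionIntegers K) : v.adicCompletion K) ≤ WithZero.exp (-2 : ℤ) := by
    rw [hc]
    have e : ((ϖ ^ 2 * c : v.adicCompletionIntegers K) : v.adicCompletion K) =
      (ϖ : v.adicCompletion K) * (ϖ : v.adicCompletion K) * (c : v.adicCompletion K) := by
      rw [pow_two]; rfl
    rw [e, map_mul, map_mul]
    have hc1 : Valued.v (c : v.adicCompletion K) ≤ 1 := c.2
    have h4 : WithZero.exp (-2 : ℤ) = WithZero.exp (-1 : ℤ) * WithZero.exp (-1 : ℤ) * 1 := by
      rw [mul_one, ← WithZero.exp_add]; norm_num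
    rw [h4]
    exact mul_le_mul' (mul_le_mul' hϖ2 hϖ2) hc1
  rw [val_alg, hπ, WithZero.exp_le_exp] at h3
  norm_num at h3

theorem alg_surj : Function.Surjective
    ((IsLocalRing.residue (v.adicCompletionIntegers K)).comp
      (algebraMap (𝓞 K) (v.adicCompletionIntegers K))) := Pool.Agent.Y317.SE.residue_surj v

/-- At the primes over `2` the affine points are not divisible. -/
theorem loc_point (h2 : (2 : 𝓞 K) ∈ v.asIdeal) {g : ℕ} (hg : 1 ≤ g) {f : (𝓞 K)[X]} (hm : f.Monic)
    (hd : f.natDegree = 2 * g + 1) (hR : RegAt v g f) {P : (v.adicCompletion K)[X]}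
    (hP : (f.map (algebraMap (𝓞 K) K)).map (algebraMap K (v.adicCompletion K)) = P)
    (hG : Good 2 (-1 : v.adicCompletion K) P) {a b : v.adicCompletion K}
    (hab : b ^ 2 = P.eval a)
    (hdiv : ∀ s : ℕ, ∃ J : Ideal (CR 2 P), J ≠ ⊥ ∧ Eqv (pt P a b) (J ^ 2 ^ s)) : False := by
  have hR' := Run7.h23.Gn.reg_over (map_le_vc v) (not_map_le_vc v) hR
  have hP' : (f.map (algebraMap (𝓞 K) (v.adicCompletionIntegers K))).map
      (algebraMap (v.adicCompletionIntegers K) (v.adicCompletion K)) = P := by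
    rw [← hP, Polynomial.map_map, Polynomial.map_map]
    rfl
  haveI : Finite ((v.adicCompletionIntegers K) ⧸ (vc v).asIdeal) :=
    Pool.Agent.W858.SF.finite_residue (L := K) v
  have h2' : (2 : v.adicCompletionIntegers K) ∈ (vc v).asIdeal := by
    have h3 := map_le_vc v (Ideal.mem_map_of_mem _ h2)
    rwa [map_ofNat] at h3
  have h4 := app_one (vc v) h2' (hm.map _) (by rw [hm.natDegree_map, hd]) hR' hP' hG pt_ne hdiv
  have hPd : P.natDegree = 2 * g + 1 := by
    rw [← hP, (hm.map _).natDegree_map, hm.natDegree_map, hd]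
  exact pt_np hg hPd hab h4

end compl

end Run7.h23.Se
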