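import Pool.Agent.Run7.h23.Se.Sec
import Pool.Agent.Run7.h23.Se.Loc2

/-!
# Sections given locally by places: the point over the primes above `2`
-/

set_option autoImplicit false
set_option linter.all false

open Polynomial Pool.Agent.Y160.SE Topology NumberField IsDedekindDomain
open scoped Classical

namespace Run7.h23.Se

open Run7.h23.Lo
open Pool.Agent.TH115.GD (incl rs ak)
open Pool.Agent.TH954 (GalSection Plc resScal fix_nhds finite_map)
open Pool.Agent.N874.Jac (ShaTwoTrivialReal)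

section inj

theorem inj_ideal {E C' : Type} [Field E] [Field C'] [Algebra E C'] [IsGalois E C'] {F : E[X]}
    {FC : C'[X]} (hF : F.map (algebraMap E C') = FC) (hG : Good 2 (-1 : E) F)
    {I J : Ideal (CR 2 F)} (hI : I ≠ ⊥) (hJ : J ≠ ⊥)
    (h : Eqv (I.map (crMap 2 (algebraMap E C') F FC hF))
      (J.map (crMap 2 (algebraMap E C') F FC hF))) : Eqv I J := by
  have key : ∀ (F' : E[X]) (e : F' = F.map (algebraMap E E))
      (hF' : F'.map (algebraMap E C') = F.map (algebraMap E C')) (I J : Ideal (CR 2 F')),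
      I ≠ ⊥ → J ≠ ⊥ → Eqv (I.map (crMap 2 (algebraMap E C') F' _ hF'))
      (J.map (crMap 2 (algebraMap E C') F' _ hF')) → Eqv I J := by
    rintro F' rfl hF' I J hI hJ h
    obtain ⟨x, hx⟩ := cl_exists (Ω := E) hyps hG hI
    obtain ⟨y, hy⟩ := cl_exists (Ω := E) hyps hG hJ
    have h1 := cl_map hyps hG hx (incl E E C')
    have h2 := cl_map hyps hG hy (incl E E C')
    have h3 : jm 2 F (incl E E C') x = jm 2 F (incl E E C') y :=
      (cl_eq_iff hyps hG h1 h2).2 h
    exact (cl_eq_iff hyps hG hx hy).1 (Pool.Agent.N655.JB.inj E C' F hG h3)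
  subst hF
  exact key F (by rw [Algebra.algebraMap_self, Polynomial.map_id]) rfl I J hI hJ h

theorem cl_pow {K Λ : Type} [Field K] [Field Λ] [Algebra K Λ] {f : K[X]}
    (hg : Good 2 (-1 : K) f) {I : Ideal (CR 2 (f.map (algebraMap K Λ)))} {x : Jac 2 f Λ}
    (hx : IsCl Λ I x) (n : ℕ) : IsCl Λ (I ^ n) (n • x) := by
  induction n with
  | zero =>
    rw [pow_zero, zero_smul, Ideal.one_eq_top]
    exact cl_top hyps hg
  | succ n ih =>
    rw [pow_succ, succ_nsmul]
    exact cl_mul hyps hg ih hx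

/-- Divisibility of the class of a point over `E`. -/
theorem div_pt {K E C' : Type} [Field K] [Field E] [Field C'] [Algebra K E] [Algebra E C']
    [Algebra K C'] [IsScalarTower K E C'] [IsGalois E C'] {P : K[X]} (hG : Good 2 (-1 : K) P)
    {a b : E} {n : ℕ} {z : Jac 2 P E}
    (h : IsCl C' (pt _ (algebraMap E C' a) (algebraMap E C' b)) (jm 2 P (incl K E C') (2 ^ n • z))) :
    ∃ J : Ideal (CR 2 (P.map (algebraMap K E))), J ≠ ⊥ ∧
      Eqv (pt (P.map (algebraMap K E)) a b) (J ^ 2 ^ n) := by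
  obtain ⟨J, hJ, hJz⟩ := exists_cl (Ω := E) hyps hG z
  refine ⟨J, hJ, ?_⟩
  have hJn : J ^ 2 ^ n ≠ ⊥ := by
    haveI := hyps.ring 2 E _ _ (hG.up E)
    exact pow_ne_zero _ hJ
  have h6 := cl_map hyps hG (cl_pow hG hJz (2 ^ n)) (incl K E C')
  have h8 := (cl_eq_iff hyps hG h h6).1 rfl
  have hPC : (P.map (algebraMap K E)).map (algebraMap E C') = P.map (algebraMap K C') := by
    rw [Polynomial.map_map, ← IsScalarTower.algebraMap_eq]
  refine inj_ideal hPC (up' hG) pt_ne hJn ?_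
  rw [pt_map]
  exact h8

/-- The equation of the point. -/
theorem eq_pt {K E C' : Type} [Field K] [Field E] [Field C'] [Algebra K E] [Algebra E C']
    [Algebra K C'] [IsScalarTower K E C'] {P : K[X]} {a b : E}
    (h : (algebraMap E C' b) ^ 2 = (P.map (algebraMap K C')).eval (algebraMap E C' a)) :
    b ^ 2 = (P.map (algebraMap K E)).eval a := by
  have hPC : (P.map (algebraMap K E)).map (algebraMap E C') = P.map (algebraMap K C') := by
    rw [Polynomial.map_map, ← IsScalarTower.algebraMap_eq]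
  apply (algebraMap E C').injective
  rw [map_pow, h, ← hPC, eval_map, eval₂_hom]

end inj

section core

variable {K : Type} [Field K] [NumberField K] {g : ℕ} (hg : 1 ≤ g) {f : (𝓞 K)[X]}
  (hm : f.Monic) (hd : f.natDegree = 2 * g + 1) {P : K[X]}
  (hP : f.map (algebraMap (𝓞 K) K) = P) (hG : Good 2 (-1 : K) P)
  (hS : ShaTwoTrivialReal P (𝓞 K)) (h0 : ∀ x : Jac 2 P K, x = 0)

include hg hm hd hP hG hS h0

theorem core {F M B : Type} [Field F] [Field M] [Field B] [Algebra K F]
    [Algebra F M] [Algebra K M] [Algebra K B] [IsScalarTower K F M] [Algebra.IsAlgebraic F M]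
    [IsAlgClosure K B] (s : GalSection K F M B) {x y : F} (hxy : y ^ 2 = aeval x P)
    (hred : ∀ (C' : Type) [Field C'] [Algebra K C'] [IsAlgClosed C'] (p : Plc K M C'),
      ∃ red, RedOK p P red)
    (htor : ∀ (j : SeparableClosure K →ₐ[K] M) (n : ℕ), ∀ T : Jac 2 P M, 2 ^ n • T = 0 →
      ∃ T0 : Jac 2 P (SeparableClosure K), 2 ^ n • T0 = 0 ∧ jm 2 P j T0 = T)
    (hinj : ∀ (j : SeparableClosure K →ₐ[K] M) (n : ℕ), ∀ T0 : Jac 2 P (SeparableClosure K),
      2 ^ n • T0 = 0 → jm 2 P j T0 = 0 → T0 = 0)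
    (hdiv : ∀ (Q0 : Jac 2 P M), IsCl M (pt _ (algebraMap F M x) (algebraMap F M y)) Q0 →
      ∀ n, ∃ Q, 2 ^ n • Q = Q0)
    (pw : ∀ w : HeightOneSpectrum (𝓞 K), Plc K M (AlgebraicClosure (w.adicCompletion K)))
    (hpw : ∀ w, s.GivenBy (w.adicCompletion K) (pw w))
    (v : HeightOneSpectrum (𝓞 K)) (h2 : (2 : 𝓞 K) ∈ v.asIdeal) (hR : RegAt v g f)
    {C' : Type} [Field C'] [Algebra K C'] [Algebra (v.adicCompletion K) C']
    [IsScalarTower K (v.adicCompletion K) C'] [IsAlgClosure (v.adicCompletion K) C']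
    (p : Plc K M C') (hp : s.GivenBy (v.adicCompletion K) p) : algebraMap F M x ∉ p.W := by
  intro hxW
  haveI hcv : ∀ w : HeightOneSpectrum (𝓞 K), CharZero (w.adicCompletion K) := fun w =>
    charZero_of_injective_algebraMap (algebraMap K (w.adicCompletion K)).injective
  haveI : IsAlgClosed C' := IsAlgClosure.isAlgClosed (v.adicCompletion K)
  haveI : Algebra.IsAlgebraic (v.adicCompletion K) C' := IsAlgClosure.isAlgebraic
  haveI : IsGalois (v.adicCompletion K) C' := ⟨⟩
  haveI : Algebra.IsAlgebraic K B := IsAlgClosure.isAlgebraic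
  have hxyM : (algebraMap F M y) ^ 2 = (P.map (algebraMap K M)).eval (algebraMap F M x) := by
    rw [eval_map_algebraMap, aeval_algebraMap_apply, ← hxy, map_pow]
  -- the values of the coordinates
  have hyW : algebraMap F M y ∈ p.W := by
    have h3 : IsIntegral p.W (algebraMap F M y) := by
      refine ⟨X ^ 2 - C ((fW p P).eval ⟨algebraMap F M x, hxW⟩), monic_X_pow_sub_C _ two_ne_zero, ?_⟩
      rw [eval₂_sub, eval₂_X_pow, eval₂_C, hxyM, ← fW_i p P, eval_map]
      rw [sub_eq_zero]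
      exact eval₂_hom (p := fW p P) (p.W.subtype : p.W →+* M) ⟨algebraMap F M x, hxW⟩
    obtain ⟨z, hz⟩ := IsIntegrallyClosed.isIntegral_iff.1 h3
    rw [← hz]
    exact z.2
  set e : SeparableClosure K ≃ₐ[K] B := IsAlgClosure.equiv K (SeparableClosure K) B with he
  have hval : ∀ z : F, ∀ hz : algebraMap F M z ∈ p.W, ∃ c : v.adicCompletion K,
      algebraMap (v.adicCompletion K) C' c = p.ρ ⟨algebraMap F M z, hz⟩ := by
    intro z hz
    have h3 : ∀ σ : C' ≃ₐ[v.adicCompletion K] C',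
        σ (p.ρ ⟨algebraMap F M z, hz⟩) = p.ρ ⟨algebraMap F M z, hz⟩ := by
      intro σ
      obtain ⟨τ, hτ⟩ := exists_res (p.iot s.j) σ
      have h4 := hp σ τ (fun b c hc => by
        have e4 : p.iot s.j b = c := Plc.val.unique (pl := p) (x := s.j b) ⟨_, rfl⟩ hc
        rw [← e4, hτ]
        exact ⟨_, rfl⟩) _ _ ⟨hz, rfl⟩
      obtain ⟨h5, h6⟩ := h4
      rw [← h6]
      congr 1
      exact Subtype.ext ((s.s τ).commutes z)
    exact (InfiniteGalois.mem_range_algebraMap_iff_fixed (k := v.adicCompletion K) _).2 h3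
  obtain ⟨a, ha⟩ := hval x hxW
  obtain ⟨b, hb⟩ := hval y hyW
  -- the class of the point
  obtain ⟨Q0, hQ0⟩ := cl_exists (Ω := M) hyps hG
    (pt_ne (P := P.map (algebraMap K M)) (a := algebraMap F M x) (b := algebraMap F M y))
  -- the local reductions
  have hloc : ∀ w : HeightOneSpectrum (𝓞 K), ∃ ι red,
      LR (toSA s e) P (w.adicCompletion K) (SeparableClosure (w.adicCompletion K)) ι red := by
    intro w
    obtain ⟨red, hr⟩ := hred _ (pw w)
    obtain ⟨ι, h⟩ := sec_LR hG s e (pw w) (hpw w)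
      (IsAlgClosure.equiv (w.adicCompletion K) (AlgebraicClosure (w.adicCompletion K))
        (SeparableClosure (w.adicCompletion K))) hr
    exact ⟨ι, _, h⟩
  obtain ⟨red, hr⟩ := hred _ p
  obtain ⟨ι, hLR⟩ := sec_LR hG s e p hp (AlgEquiv.refl : C' ≃ₐ[v.adicCompletion K] C') hr
  have hmain := main_div hG hS h0 (toSA s e) (htor _) (hinj _) (P := Q0)
    (sec_fix s e hG hQ0) (hdiv Q0 hQ0) hloc hLR
  have hcl := hr.int (a := algebraMap F M x) (b := algebraMap F M y) ⟨hxW, rfl⟩ ⟨hyW, rfl⟩ hxyM hQ0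
  have hab : (p.ρ ⟨algebraMap F M y, hyW⟩) ^ 2 =
      (P.map (algebraMap K C')).eval (p.ρ ⟨algebraMap F M x, hxW⟩) := by
    have h5 : (⟨algebraMap F M y, hyW⟩ : p.W) ^ 2 = (fW p P).eval ⟨algebraMap F M x, hxW⟩ := by
      apply Subtype.val_injective
      show (algebraMap F M y) ^ 2 = _
      rw [hxyM, ← fW_i p P, eval_map]
      exact eval₂_hom (p := fW p P) (p.W.subtype : p.W →+* M) ⟨algebraMap F M x, hxW⟩
    rw [← map_pow, h5, ← fW_ρ p P, eval_map, eval₂_hom]
  rw [← ha, ← hb] at hcl hab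
  have hPE : (f.map (algebraMap (𝓞 K) K)).map (algebraMap K (v.adicCompletion K)) =
      P.map (algebraMap K (v.adicCompletion K)) := by rw [hP]
  refine loc_point v h2 hg hm hd hR hPE (up' hG) (eq_pt hab) fun n => ?_
  obtain ⟨z, hz⟩ := hmain n
  have h7 : ((jm 2 P (((AlgEquiv.refl : C' ≃ₐ[v.adicCompletion K] C') :
      C' →ₐ[v.adicCompletion K] C').restrictScalars K)).comp red) Q0 = red Q0 := jm_id _
  rw [h7] at hz
  rw [← hz] at hcl
  exact div_pt hG hcl

end core

end Run7.h23.Se
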