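import Pool.Agent.Run7.h23.Se.Sha
import Pool.Agent.TH954.SEt2

/-!
# The local reductions of a section
-/

set_option autoImplicit false
set_option linter.all false

open Polynomial Pool.Agent.Y160.SE Topology
open scoped Classical

namespace Run7.h23.Se

open Run7.h23.Lo
open Pool.Agent.TH115.GD (incl rs ak)
open Pool.Agent.TH954 (GalSection Plc resScal fix_nhds finite_map)

/-- The reduction homomorphism at a place, with its properties. -/
structure RedOK {K M C' : Type} [Field K] [Field M] [Field C'] [Algebra K M] [Algebra K C']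
    (p : Plc K M C') (f : K[X]) (red : Jac 2 f M →+ Jac 2 f C') : Prop where
  const : ∀ {A : Type} [Field A] [Algebra K A] [Algebra.IsAlgebraic K A] (j : A →ₐ[K] M)
    (x : Jac 2 f A), red (jm 2 f j x) = jm 2 f (p.iot j) x
  aut : ∀ (G : M ≃ₐ[K] M) (σ : C' ≃ₐ[K] C'), (∀ x c, p.val x c ↔ p.val (G x) (σ c)) →
    ∀ x, red (jm 2 f (ak G) x) = jm 2 f (ak σ) (red x)
  inf : ∀ {a b : M} {x : Jac 2 f M}, a ∉ p.W → IsCl M (pt _ a b) x → red x = 0
  int : ∀ {a b : M} {a' b' : C'} {x : Jac 2 f M}, p.val a a' → p.val b b' →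
    b ^ 2 = (f.map (algebraMap K M)).eval a → IsCl M (pt _ a b) x →
    IsCl C' (pt _ a' b') (red x)

section closed

variable {K M C' : Type} [Field K] [Field M] [Field C'] [Algebra K M] [Algebra K C']
  {f : K[X]} (hg : Good 2 (-1 : K) f)

include hg

/-- Over an algebraically closed field. -/
theorem exists_ok [IsAlgClosed M] (p : Plc K M C') : ∃ red, RedOK p f red := by
  obtain ⟨red, hred⟩ := exists_red p hg
  refine ⟨red, fun j x => red_const hg hred j x, ?_, fun ha hx => red_inf hg hred ha hx, ?_⟩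
  · intro G σ h x
    refine red_aut hg hred (ak G) (ak σ) (fun w => ?_) x
    obtain ⟨h1, h2⟩ := (h w (p.ρ w)).1 ⟨w.2, rfl⟩
    exact ⟨h1, h2⟩
  · rintro a b a' b' x ⟨ha, rfl⟩ ⟨hb, rfl⟩ hab hx
    exact red_int hg hred (a := ⟨a, ha⟩) (b := ⟨b, hb⟩) hab hx

end closed

section sec

variable {K F M B : Type} [Field K] [Field F] [Field M] [Field B] [Algebra K F]
  [Algebra F M] [Algebra K M] [Algebra K B] [IsScalarTower K F M] [Algebra.IsAlgebraic F M]

/-- The semilinear action of a section. -/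
noncomputable def toSA (s : GalSection K F M B) {B' : Type} [Field B'] [Algebra K B']
    (e : B' ≃ₐ[K] B) : SA K B' M where
  j := s.j.comp (e : B' →ₐ[K] B)
  s := ((resScal K F M).comp s.s).comp e.autCongr.toMonoidHom
  hj := by
    intro τ z
    change s.s (e.autCongr τ) (s.j (e z)) = s.j (e (τ z))
    rw [s.sec]
    congr 1
    change e (τ (e.symm (e z))) = _
    rw [AlgEquiv.symm_apply_apply]
  cont := by
    intro x
    have h1 : {g | s.s g x = x} ∈ nhds (1 : B ≃ₐ[K] B) := by
      have h2 := s.cont.continuousAt (x := 1)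
      have h3 : {g : M ≃ₐ[F] M | g x = x} ∈ nhds (s.s 1) := by
        rw [map_one]
        exact fix_nhds x
      exact h2 h3
    rw [krullTopology_mem_nhds_one_iff] at h1
    obtain ⟨E, hE, h⟩ := h1
    rw [Filter.Eventually, krullTopology_mem_nhds_one_iff]
    refine ⟨E.map (e.symm : B →ₐ[K] B'), finite_map hE _, fun τ hτ => ?_⟩
    change s.s (e.autCongr τ) x = x
    apply h
    rw [SetLike.mem_coe, IntermediateField.mem_fixingSubgroup_iff] at hτ ⊢
    intro z hz
    change e (τ (e.symm z)) = z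
    rw [hτ (e.symm z) ⟨z, hz, rfl⟩, AlgEquiv.apply_symm_apply]

theorem toSA_s (s : GalSection K F M B) {B' : Type} [Field B'] [Algebra K B']
    (e : B' ≃ₐ[K] B) (τ : B' ≃ₐ[K] B') (x : M) :
    (toSA s e).s τ x = s.s (e.autCongr τ) x := rfl

theorem sec_fix (s : GalSection K F M B) {B' : Type} [Field B'] [Algebra K B']
    (e : B' ≃ₐ[K] B) {f : K[X]} (hg : Good 2 (-1 : K) f) {x : Jac 2 f M} {a b : F}
    (hx : IsCl M (pt _ (algebraMap F M a) (algebraMap F M b)) x) (τ : B' ≃ₐ[K] B') :
    (toSA s e).ac f τ x = x := by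
  have h1 := cl_map hyps hg hx (ak ((toSA s e).s τ))
  have h2 : (pt _ (algebraMap F M a) (algebraMap F M b)).map (cm 2 f (ak ((toSA s e).s τ))) =
      pt _ (algebraMap F M a) (algebraMap F M b) := by
    rw [cm, pt_map]
    have h3 : ∀ z : F, ((ak ((toSA s e).s τ) : M →ₐ[K] M) : M →+* M) (algebraMap F M z) =
        algebraMap F M z := fun z => (s.s (e.autCongr τ)).commutes z
    rw [h3, h3]
  rw [h2] at h1
  exact cl_uniq hg h1 hx

variable [Algebra.IsAlgebraic K B]

/-- The local reduction. -/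
theorem sec_LR {f : K[X]} (hg : Good 2 (-1 : K) f) (s : GalSection K F M B) {B' : Type}
    [Field B'] [Algebra K B'] [Algebra.IsAlgebraic K B'] (e : B' ≃ₐ[K] B) {E C C' : Type}
    [Field E] [Field C] [Field C'] [Algebra K E] [Algebra E C] [Algebra K C] [IsScalarTower K E C]
    [Algebra E C'] [Algebra K C'] [IsScalarTower K E C'] (p : Plc K M C) (hp : s.GivenBy E p)
    (φ : C ≃ₐ[E] C') {red : Jac 2 f M →+ Jac 2 f C} (hred : RedOK p f red) :
    ∃ ι, LR (toSA s e) f E C' ι
      ((jm 2 f ((φ : C →ₐ[E] C').restrictScalars K)).comp red) := by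
  set A := toSA s e with hA
  refine ⟨((φ : C →ₐ[E] C').restrictScalars K).comp (p.iot A.j), ?_, ?_⟩
  · intro T0
    rw [AddMonoidHom.comp_apply, hred.const A.j T0, jm_jm]
  · intro σ τ hστ x
    set σ0 : C ≃ₐ[E] C := (φ.trans σ).trans φ.symm with hσ0
    have hφσ : ∀ c, φ (σ0 c) = σ (φ c) := by
      intro c
      show φ (φ.symm (σ (φ c))) = _
      rw [AlgEquiv.apply_symm_apply]
    have hval : ∀ y, p.val (A.j y) (p.iot A.j y) := fun y => ⟨_, rfl⟩
    have hcomp : ∀ y, σ0 (p.iot A.j y) = p.iot A.j (τ y) := by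
      intro y
      apply φ.injective
      rw [hφσ]
      exact hστ y
    have hinv : ∀ c, σ0.symm (σ0 c) = c := fun c => σ0.symm_apply_apply c
    have key : ∀ (σ1 : C ≃ₐ[E] C) (τ1 : B' ≃ₐ[K] B'),
        (∀ y, σ1 (p.iot A.j y) = p.iot A.j (τ1 y)) →
        ∀ x c, p.val x c → p.val (A.s τ1 x) (σ1 c) := by
      intro σ1 τ1 h1
      refine hp σ1 (e.autCongr τ1) ?_
      intro z c hc
      obtain ⟨y, rfl⟩ := e.surjective z
      have e3 : s.j (e.autCongr τ1 (e y)) = A.j (τ1 y) := by
        change s.j (e (τ1 (e.symm (e y)))) = _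
        rw [AlgEquiv.symm_apply_apply]
        rfl
      have e4 : p.iot A.j y = c := (hval y).unique hc
      rw [e3, ← e4, h1]
      exact hval _
    have h2 : ∀ y, σ0.symm (p.iot A.j y) = p.iot A.j (τ⁻¹ y) := by
      intro y
      rw [AlgEquiv.symm_apply_eq, hcomp]
      congr 1
      exact (τ.apply_symm_apply y).symm
    have h3 := hred.aut (A.s τ) (σ0.restrictScalars K) (fun x c => by
      constructor
      · exact key σ0 τ hcomp x c
      · intro h
        have h4 := key σ0.symm τ⁻¹ h2 _ _ h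
        have e5 : A.s τ⁻¹ (A.s τ x) = x := by
          rw [map_inv]
          exact (A.s τ).symm_apply_apply x
        have e6 : σ0.symm ((σ0.restrictScalars K) c) = c := σ0.symm_apply_apply c
        rw [e5, e6] at h4
        exact h4) x
    show jm 2 f _ (red (A.ac f τ x)) = jm 2 f (rs K σ) (jm 2 f _ (red x))
    have h5 : red (A.ac f τ x) = jm 2 f (ak (σ0.restrictScalars K)) (red x) := h3
    rw [h5, jm_jm, jm_jm]
    congr 1
    have h6 : ((φ : C →ₐ[E] C').restrictScalars K).comp (ak (σ0.restrictScalars K)) =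
        (rs K σ).comp ((φ : C →ₐ[E] C').restrictScalars K) := AlgHom.ext fun c => hφσ c
    rw [h6]

end sec

end Run7.h23.Se
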