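import Pool.Agent.Run7.h23.Se.Flat
import Pool.Agent.Run7.h23.Se.Sec

/-!
# Extension of places, and the reduction homomorphism over fields which are not algebraically closed
-/

set_option autoImplicit false
set_option linter.all false

open Polynomial Pool.Agent.Y160.SE Topology
open scoped Classical

namespace Run7.h23.Se

open Run7.h23.Lo
open Pool.Agent.TH115.GD (incl rs ak)
open Pool.Agent.TH954 (GalSection Plc resScal fix_nhds finite_map)

section poly

variable {W Λ C' : Type} [CommRing W] [IsDomain W] [Field Λ] [Field C'] {i : W →+* Λ}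
  {ρ : W →+* C'} (P : Pl i ρ)

include P

theorem Pl.poly {q : Λ[X]} (hq : q ≠ 0) : ∃ (c : Λ) (q0 : W[X]), c ≠ 0 ∧ q = C c * q0.map i ∧
    q0.map ρ ≠ 0 := by
  classical
  obtain ⟨c, hcs, hc0, hc⟩ := P.fin q.coeffs (by
    by_contra hcon
    push Not at hcon
    apply hq
    ext n
    rw [coeff_zero]
    by_contra hn
    exact hn (hcon _ (coeff_mem_coeffs hn)))
  have h0 : ∀ n, ∃ w, q.coeff n = c * i w := by
    intro n
    by_cases hn : q.coeff n = 0
    · exact ⟨0, by rw [hn, map_zero, mul_zero]⟩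
    · exact hc _ (coeff_mem_coeffs hn)
  obtain ⟨a, ha⟩ := P.lift hc0 h0
  refine ⟨c, a, hc0, ha, fun h => ?_⟩
  obtain ⟨n, hn, hcn⟩ := mem_coeffs_iff.1 hcs
  rw [ha, coeff_C_mul, coeff_map] at hcn
  have h3 : i (a.coeff n) = 1 := mul_left_cancel₀ hc0 (by rw [← hcn, mul_one])
  have h4 : a.coeff n = 1 := P.inj (by rw [h3, map_one])
  have h5 := congrArg (fun r => r.coeff n) h
  simp only [coeff_map, coeff_zero] at h5
  rw [h4, map_one] at h5
  exact one_ne_zero h5

end poly

section ext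

variable {K M Λ C' : Type} [Field K] [Field M] [Field Λ] [Field C'] [Algebra K M] [Algebra K Λ]
  [Algebra K C'] [Algebra M Λ] [IsScalarTower K M Λ] [Algebra.IsAlgebraic M Λ] [IsAlgClosed C']

/-- Extension of places. -/
theorem ext_place (p : Plc K M C') : ∃ p' : Plc K Λ C',
    ∀ x c, p.val x c → p'.val (algebraMap M Λ x) c := by
  obtain ⟨V, hV, hloc⟩ := IsLocalRing.exists_factor_valuationRing
    ((algebraMap M Λ).comp (p.W.subtype : p.W →+* M))
  set μ : p.W →+* V := ((algebraMap M Λ).comp (p.W.subtype : p.W →+* M)).codRestrict V.toSubring hV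
    with hμ
  haveI : IsLocalHom μ := hloc
  haveI : IsLocalHom p.ρ := ⟨fun a ha => (pl_ok p).loc a ha.ne_zero⟩
  letI a1 : Algebra (IsLocalRing.ResidueField p.W) (IsLocalRing.ResidueField V) :=
    (IsLocalRing.ResidueField.map μ).toAlgebra
  letI a2 : Algebra (IsLocalRing.ResidueField p.W) C' :=
    (IsLocalRing.ResidueField.lift p.ρ).toAlgebra
  haveI a3 : Algebra.IsAlgebraic (IsLocalRing.ResidueField p.W) (IsLocalRing.ResidueField V) := by
    refine ⟨fun z => ?_⟩
    obtain ⟨z, rfl⟩ := IsLocalRing.residue_surjective z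
    have hz : IsIntegral M (z : Λ) := (Algebra.IsAlgebraic.isAlgebraic (R := M) (z : Λ)).isIntegral
    obtain ⟨c, q0, hc0, hq, hq0⟩ := (pl_ok p).poly (minpoly.ne_zero hz)
    refine ⟨q0.map (IsLocalRing.residue p.W), ?_, ?_⟩
    · intro h
      apply hq0
      have h1 := congrArg (Polynomial.map (IsLocalRing.ResidueField.lift p.ρ)) h
      rw [Polynomial.map_map, IsLocalRing.ResidueField.lift_comp_residue, Polynomial.map_zero] at h1
      exact h1
    · have h1 : eval₂ (algebraMap M Λ) (z : Λ) (q0.map (p.W.subtype : p.W →+* M)) = 0 := by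
        have h2 := minpoly.aeval M (z : Λ)
        rw [hq, map_mul, aeval_C] at h2
        exact (mul_eq_zero.1 h2).resolve_left (fun h => hc0 ((map_eq_zero _).1 h))
      rw [eval₂_map] at h1
      have h3 : eval₂ μ z q0 = 0 := by
        apply Subtype.val_injective
        show (V.subtype : V →+* Λ) (eval₂ μ z q0) = _
        rw [hom_eval₂]
        exact h1
      have h4 := congrArg (IsLocalRing.residue V) h3
      rw [hom_eval₂, map_zero] at h4
      rw [aeval_def, eval₂_map]
      exact h4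
  set ψ : IsLocalRing.ResidueField V →ₐ[IsLocalRing.ResidueField p.W] C' := IsAlgClosed.lift
    with hψ
  have hψ' : ∀ w : p.W, ψ (IsLocalRing.residue V (μ w)) = p.ρ w := by
    intro w
    have h1 := ψ.commutes (IsLocalRing.residue p.W w)
    exact h1
  refine ⟨⟨V, (ψ : IsLocalRing.ResidueField V →+* C').comp (IsLocalRing.residue V), ?_, ?_⟩, ?_⟩
  · intro x hx
    have h1 : IsUnit x := by
      rw [← not_not (a := IsUnit x)]
      intro h
      apply hx
      show ψ (IsLocalRing.residue V x) = 0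
      have h2 : IsLocalRing.residue V x = 0 := by
        rw [IsLocalRing.residue_eq_zero_iff]
        exact h
      rw [h2, map_zero]
    obtain ⟨u, rfl⟩ := h1
    have h2 : ((u : V) : Λ)⁻¹ = ((u⁻¹ : Vˣ) : V) := by
      apply inv_eq_of_mul_eq_one_right
      have h3 : ((u : V) : Λ) * (((u⁻¹ : Vˣ) : V) : Λ) = ((u : V) * ((u⁻¹ : Vˣ) : V) : V) := rfl
      rw [h3, Units.mul_inv]
      rfl
    rw [h2]
    exact ((u⁻¹ : Vˣ) : V).2
  · intro c
    have h1 := hψ' (p.cst c)
    rw [p.rho_cst] at h1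
    have h2 : algebraMap K Λ c = ((μ (p.cst c) : V) : Λ) := by
      rw [IsScalarTower.algebraMap_apply K M Λ]
      rfl
    refine ⟨?_, ?_⟩
    · rw [h2]; exact (μ (p.cst c)).2
    · rw [← h1]
      show ψ (IsLocalRing.residue V _) = _
      congr 2
      exact Subtype.ext h2
  · rintro x c ⟨hx, rfl⟩
    exact ⟨(μ ⟨x, hx⟩).2, hψ' ⟨x, hx⟩⟩

end ext

section comap

variable {W M C' : Type} [CommRing W] [IsDomain W] [Field M] [Field C'] {i : W →+* M}
  {γ γ' : W →+* W} {G G' : M →+* M} (hc : ∀ w, G (i w) = i (γ w)) (hc' : ∀ w, G' (i w) = i (γ' w))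
  (h1 : ∀ w, γ (γ' w) = w) (h2 : ∀ z, G' (G z) = z) {F : W[X]} {fM : M[X]} (hi : F.map i = fM)
  (hF : F.map γ = F) (hF' : F.map γ' = F) (hG : fM.map G = fM) (hG' : fM.map G' = fM)

include hc hc' h1 h2 hF' hG'

theorem comap_aut (I : Ideal (CR 2 fM)) :
    (I.map (crMap 2 G fM fM hG)).comap (crMap 2 i F fM hi) =
      (I.comap (crMap 2 i F fM hi)).map (crMap 2 γ F F hF) := by
  have hcm : (crMap 2 G' fM fM hG').comp (crMap 2 G fM fM hG) = RingHom.id _ := by
    apply cr_hom_ext
    · intro c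
      simp only [RingHom.comp_apply, crMap_xp, map_C, h2]
      rfl
    · simp only [RingHom.comp_apply, crMap_xp, map_X]
      rfl
    · simp only [RingHom.comp_apply, crMap_yy]
      rfl
  apply le_antisymm
  · intro z hz
    rw [Ideal.mem_comap] at hz
    have h3 := Ideal.mem_map_of_mem (crMap 2 G' fM fM hG') hz
    rw [Ideal.map_map, hcm, Ideal.map_id, ← comm_sq γ' G' hc' hi hi hF' hG' z] at h3
    have h4 : z = crMap 2 γ F F hF (crMap 2 γ' F F hF' z) := by
      have h5 : γ.comp γ' = RingHom.id _ := RingHom.ext fun w => h1 w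
      apply el_ext
      · rw [c0_map, c0_map, Polynomial.map_map, h5, Polynomial.map_id]
      · rw [c1_map, c1_map, Polynomial.map_map, h5, Polynomial.map_id]
    rw [h4]
    exact Ideal.mem_map_of_mem _ (Ideal.mem_comap.2 h3)
  · rw [Ideal.map_le_iff_le_comap]
    intro z hz
    rw [Ideal.mem_comap] at hz
    rw [Ideal.mem_comap, Ideal.mem_comap, comm_sq γ G hc hi hi hF hG z]
    exact Ideal.mem_map_of_mem _ hz

include hF in
theorem Rd_aut_gen {ρ : W →+* C'} {σ : C' →+* C'} (hσ : ∀ w, ρ (γ w) = σ (ρ w)) {fC : C'[X]}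
    (hρ : F.map ρ = fC) (hfC : fC.map σ = fC) (I : Ideal (CR 2 fM)) :
    Rd hi hρ (I.map (crMap 2 G fM fM hG)) = (Rd hi hρ I).map (crMap 2 σ fC fC hfC) := by
  rw [Rd, comap_aut hc hc' h1 h2 hi hF hF' hG hG' I, Rd, Ideal.map_map, Ideal.map_map]
  congr 1
  apply cr_hom_ext
  · intro a
    simp only [RingHom.comp_apply, crMap_xp, map_C, hσ]
  · simp only [RingHom.comp_apply, crMap_xp, map_X]
  · simp only [RingHom.comp_apply, crMap_yy]

end comap

section ok

variable {K M C' : Type} [Field K] [Field M] [Field C'] [Algebra K M] [Algebra K C']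
  [IsAlgClosed C'] {f : K[X]} (hg : Good 2 (-1 : K) f)

include hg

/-- The reduction over a field which is not algebraically closed. -/
theorem exists_ok_gen (p : Plc K M C') (Λ : Type) [Field Λ] [Algebra K Λ] [Algebra M Λ]
    [IsScalarTower K M Λ] [Algebra.IsAlgebraic M Λ] [IsAlgClosed Λ] : ∃ red, RedOK p f red := by
  obtain ⟨p', hp'⟩ := ext_place (Λ := Λ) p
  obtain ⟨redL, hredL⟩ := exists_red p' hg
  set l : M →ₐ[K] Λ := IsScalarTower.toAlgHom K M Λ with hl
  have hlv : ∀ x, l x = algebraMap M Λ x := fun x => rfl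
  set μ : p.W →+* p'.W := ((l : M →+* Λ).comp (p.W.subtype : p.W →+* M)).codRestrict p'.W
    (fun w => (hp' w (p.ρ w) ⟨w.2, rfl⟩).1) with hμ
  have hμf : (fW p f).map μ = fW p' f := by
    rw [fW, fW, Polynomial.map_map]
    congr 1
    ext c
    exact l.commutes c
  have hρμ : ∀ w, p'.ρ (μ w) = p.ρ w := by
    intro w
    obtain ⟨h1, h2⟩ := hp' w (p.ρ w) ⟨w.2, rfl⟩
    exact h2
  -- the reduction of the ideals
  have hRd : ∀ I : Ideal (CR 2 (f.map (algebraMap K M))),
      Rd (fW_i p' f) (fW_ρ p' f) (I.map (cm 2 f l)) = Rd (fW_i p f) (fW_ρ p f) I := by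
    intro I
    have h1 := flat_comap (pl_ok p) (pl_ok p').inj μ (l : M →+* Λ) (fun w => rfl) (fW_i p f)
      (fW_i p' f) hμf (map_alg l) (fW_ρ p f) I
    show ((I.map (crMap 2 (l : M →+* Λ) _ _ (map_alg l))).comap _).map _ = _
    rw [h1, Ideal.map_map, Rd]
    have h2 : (crMap 2 _ _ _ (fW_ρ p' f)).comp (crMap 2 μ _ _ hμf) = crMap 2 _ _ _ (fW_ρ p f) := by
      apply cr_hom_ext
      · intro a
        simp only [RingHom.comp_apply, crMap_xp, map_C, hρμ]
      · simp only [RingHom.comp_apply, crMap_xp, map_X]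
      · simp only [RingHom.comp_apply, crMap_yy]
    rw [h2]
  have hred : ∀ I x, IsCl M I x → IsCl C' (Rd (fW_i p f) (fW_ρ p f) I) (redL (jm 2 f l x)) := by
    intro I x hx
    rw [← hRd]
    exact hredL _ _ (cl_map hyps hg hx l)
  refine ⟨redL.comp (jm 2 f l), ?_, ?_, ?_, ?_⟩
  · intro A _ _ _ j x
    rw [AddMonoidHom.comp_apply, jm_jm, red_const hg hredL (l.comp j) x]
    have e : p'.iot (l.comp j) = p.iot j := by
      ext z
      have h1 : p'.val (l (j z)) (p'.iot (l.comp j) z) := ⟨_, rfl⟩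
      have h2 : p.val (j z) (p.iot j z) := ⟨_, rfl⟩
      exact h1.unique (hp' _ _ h2)
    rw [e]
  · intro G σ h x
    have P := pl_ok p
    obtain ⟨I, hI, hIx⟩ := exists_cl (Ω := M) hyps hg x
    have hmem : ∀ w : p.W, G w ∈ p.W := fun w => ((h w (p.ρ w)).1 ⟨w.2, rfl⟩).1
    have hval : ∀ w : p.W, p.ρ ⟨G w, hmem w⟩ = σ (p.ρ w) := by
      intro w
      obtain ⟨h1, h2⟩ := (h w (p.ρ w)).1 ⟨w.2, rfl⟩
      exact h2
    have hmem' : ∀ w : p.W, G.symm w ∈ p.W := by
      intro w
      refine ((h (G.symm w) (σ.symm (p.ρ w))).2 ?_).1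
      rw [AlgEquiv.apply_symm_apply, AlgEquiv.apply_symm_apply]
      exact ⟨w.2, rfl⟩
    set γ : p.W →+* p.W := ((G : M →+* M).comp (p.W.subtype : p.W →+* M)).codRestrict p.W hmem
      with hγ
    set γ' : p.W →+* p.W := ((G.symm : M →+* M).comp (p.W.subtype : p.W →+* M)).codRestrict p.W
      hmem' with hγ'
    have hγf : (fW p f).map γ = fW p f := by
      rw [fW, Polynomial.map_map]
      congr 1
      ext c
      exact G.commutes c
    have hγf' : (fW p f).map γ' = fW p f := by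
      rw [fW, Polynomial.map_map]
      congr 1
      ext c
      exact G.symm.commutes c
    have h2 : Rd (fW_i p f) (fW_ρ p f) (I.map (cm 2 f (ak G))) =
        (Rd (fW_i p f) (fW_ρ p f) I).map (cm 2 f (ak σ)) :=
      Rd_aut_gen (i := (p.W.subtype : p.W →+* M)) (γ := γ) (γ' := γ')
        (G := ((ak G : M →ₐ[K] M) : M →+* M)) (G' := ((ak G.symm : M →ₐ[K] M) : M →+* M))
        (fun w => rfl) (fun w => rfl) (fun w => Subtype.ext (G.apply_symm_apply w))
        (fun z => G.symm_apply_apply z) (fW_i p f) hγf hγf' (map_alg (ak G)) (map_alg (ak G.symm))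
        hval (fW_ρ p f) (map_alg (ak σ)) I
    have h3 := hred _ _ (cl_map hyps hg hIx (ak G))
    rw [h2] at h3
    exact cl_uniq hg h3 (cl_map hyps hg (hred _ _ hIx) (ak σ))
  · intro a b x ha hx
    have h1 := cl_map hyps hg hx l
    rw [cm, pt_map] at h1
    have h2 : l a ∉ p'.W := by
      have h3 := hp' _ _ (Plc.val_inv_of_notMem ha)
      rw [map_inv₀] at h3
      refine Plc.notMem_of_val_inv ?_ h3
      intro h4
      have h5 : a = 0 := (map_eq_zero (l : M →+* Λ)).1 h4
      rw [h5] at ha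
      exact ha p.W.zero_mem
    exact red_inf hg hredL h2 h1
  · rintro a b a' b' x ha hb hab hx
    have h1 := cl_map hyps hg hx l
    rw [cm, pt_map] at h1
    obtain ⟨ha1, ha2⟩ := hp' _ _ ha
    obtain ⟨hb1, hb2⟩ := hp' _ _ hb
    have hab' : (l b) ^ 2 = (f.map (algebraMap K Λ)).eval (l a) := by
      have e1 : (f.map (algebraMap K Λ)).eval (l a) = l ((f.map (algebraMap K M)).eval a) := by
        rw [← map_alg l, eval_map]
        exact eval₂_hom (p := f.map (algebraMap K M)) (l : M →+* Λ) a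
      rw [e1, ← hab, map_pow]
    have h2 := red_int hg hredL (a := ⟨l a, ha1⟩) (b := ⟨l b, hb1⟩) hab' h1
    rw [← ha2, ← hb2]
    exact h2

end ok

end Run7.h23.Se
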