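import Pool.Agent.Run7.h23.Se.Un
import Pool.Agent.N890.KO.All

/-!
# Sections and the point at infinity
-/

set_option autoImplicit false
set_option linter.all false

open Polynomial Pool.Agent.Y160.SE Topology NumberField IsDedekindDomain
open scoped Classical

namespace Run7.h23.Se

open Run7.h23.Lo
open Pool.Agent.TH115.GD (incl rs ak)
open Pool.Agent.TH954 (GalSection Plc)
open Pool.Agent.W620.SC (unramified)
open Pool.Agent.N874.Jac (ShaTwoTrivialReal)

section rest

variable {K L N A E C' : Type} [Field K] [Field L] [Field N] [Field A] [Field E] [Field C']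
  [Algebra K L] [Algebra L N] [Algebra K N] [IsScalarTower K L N] [Algebra K A] [Algebra K E]
  [Algebra E C'] [Algebra K C'] [IsScalarTower K E C'] [IsGalois E C'] [Normal K A]
  [Algebra.IsAlgebraic K A]

/-- The values of the elements of `L` are in `E`. -/
theorem val_base (s : GalSection K L N A) (p : Plc K N C') (hp : s.GivenBy E p) (z : L)
    (hz : algebraMap L N z ∈ p.W) :
    ∃ c : E, algebraMap E C' c = p.ρ ⟨algebraMap L N z, hz⟩ := by
  have h3 : ∀ σ : C' ≃ₐ[E] C', σ (p.ρ ⟨algebraMap L N z, hz⟩) = p.ρ ⟨algebraMap L N z, hz⟩ := by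
    intro σ
    obtain ⟨τ, hτ⟩ := exists_res (p.iot s.j) σ
    have h4 := hp σ τ (fun b c hc => by
      have e4 : p.iot s.j b = c := Plc.val.unique (pl := p) (x := s.j b) ⟨_, rfl⟩ hc
      rw [← e4, hτ]
      exact ⟨_, rfl⟩) _ _ ⟨hz, rfl⟩
    obtain ⟨h5, h6⟩ := h4
    rw [← h6]
    congr 1
    exact Subtype.ext ((s.s τ).commutes z)
  exact (InfiniteGalois.mem_range_algebraMap_iff_fixed (k := E) _).2 h3

/-- The place induces a place of `L` with values in `E`. -/
theorem res_plc (s : GalSection K L N A) (p : Plc K N C') (hp : s.GivenBy E p) :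
    ∃ q : Plc K L E, ∀ z : L, z ∈ q.W ↔ algebraMap L N z ∈ p.W := by
  choose g hg using fun z : p.W.comap (algebraMap L N) => val_base s p hp z.1 z.2
  have hinj := (algebraMap E C').injective
  set ρ : (p.W.comap (algebraMap L N)) →+* E :=
    { toFun := g
      map_one' := hinj (by
        rw [hg, map_one, ← map_one p.ρ]
        congr 1
        exact Subtype.ext (map_one _))
      map_mul' := fun a b => hinj (by
        rw [hg, map_mul, hg, hg, ← map_mul]
        congr 1
        exact Subtype.ext (map_mul _ _ _))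
      map_zero' := hinj (by
        rw [hg, map_zero, ← map_zero p.ρ]
        congr 1
        exact Subtype.ext (map_zero _))
      map_add' := fun a b => hinj (by
        rw [hg, map_add, hg, hg, ← map_add]
        congr 1
        exact Subtype.ext (map_add _ _ _)) } with hρ
  refine ⟨⟨p.W.comap (algebraMap L N), ρ, ?_, ?_⟩, fun z => Iff.rfl⟩
  · intro x hx
    have h1 : p.ρ ⟨algebraMap L N x, x.2⟩ ≠ 0 := by
      rw [← hg x]
      exact (_root_.map_ne_zero _).2 hx
    have h2 := p.loc _ h1
    show algebraMap L N ((x : L)⁻¹) ∈ p.W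
    rw [map_inv₀]
    exact h2
  · intro c
    have h1 : algebraMap L N (algebraMap K L c) = algebraMap K N c :=
      (IsScalarTower.algebraMap_apply K L N c).symm
    obtain ⟨h2, h3⟩ := p.comm c
    have h4 : algebraMap K L c ∈ p.W.comap (algebraMap L N) := by
      show algebraMap L N (algebraMap K L c) ∈ p.W
      rw [h1]; exact h2
    refine ⟨h4, hinj ?_⟩
    have h5 : p.ρ ⟨algebraMap L N (algebraMap K L c), h4⟩ = p.ρ ⟨algebraMap K N c, h2⟩ :=
      congrArg p.ρ (Subtype.ext h1)
    have h6 : algebraMap E C' (algebraMap K E c) = algebraMap K C' c :=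
      (IsScalarTower.algebraMap_apply K E C' c).symm
    exact (hg ⟨_, h4⟩).trans (h5.trans (h3.trans h6.symm))

end rest

section main

variable {K : Type} [Field K] [NumberField K] {g : ℕ} (hg : 1 ≤ g) {f : (𝓞 K)[X]}
  (hm : f.Monic) (hd : f.natDegree = 2 * g + 1) {P : K[X]}
  (hP : f.map (algebraMap (𝓞 K) K) = P) (hG : Good 2 (-1 : K) P)
  (hS : ShaTwoTrivialReal P (𝓞 K)) (h0 : ∀ x : Jac 2 P K, x = 0)

/-- The section is birational or given locally by places. -/
def Adm {K : Type} [Field K] [NumberField K] {L N A : Type} [Field L] [Field N] [Field A]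
    [Algebra L N] [Algebra K N] [Algebra K A] (s : GalSection K L N A) : Prop :=
  IsAlgClosure L N ∨ ∀ w : HeightOneSpectrum (𝓞 K),
    ∃ p : Plc K N (AlgebraicClosure (w.adicCompletion K)), s.GivenBy (w.adicCompletion K) p

theorem Adm.all {L N A : Type} [Field L] [Field N] [Field A]
    [Algebra K L] [Algebra L N] [Algebra K N] [IsScalarTower K L N] [Algebra K A]
    [IsAlgClosure K A] {s : GalSection K L N A} (h : Adm s) (w : HeightOneSpectrum (𝓞 K)) :
    ∃ p : Plc K N (AlgebraicClosure (w.adicCompletion K)), s.GivenBy (w.adicCompletion K) p := by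
  rcases h with h | h
  · exact Pool.Agent.N890.KO.koenigsmann K w K L N A s
  · exact h w

include hg hm hd hP hG hS h0

theorem fin1 {L N Ω A : Type} [Field L] [Field N] [Field Ω] [Field A] [Algebra K L]
    [Algebra L N] [Algebra K N] [IsScalarTower K L N] [Algebra L Ω] [Algebra K Ω]
    [IsScalarTower K L Ω] [IsAlgClosure L Ω] [Algebra K A] [IsAlgClosure K A]
    {x y : L} (hxy : y ^ 2 = aeval x P)
    (U : Set (ValuationSubring L)) (hU : ∀ O ∈ U, ∀ c : K, algebraMap K L c ∈ O)
    (e : N →ₐ[L] Ω) (he : unramified L Ω U ≤ e.fieldRange) (s : GalSection K L N A)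
    (hs : Adm s)
    (v : HeightOneSpectrum (𝓞 K)) (h2 : (2 : 𝓞 K) ∈ v.asIdeal) (hR : RegAt v g f)
    {C' : Type} [Field C'] [Algebra K C'] [Algebra (v.adicCompletion K) C']
    [IsScalarTower K (v.adicCompletion K) C'] [IsAlgClosure (v.adicCompletion K) C']
    (p : Plc K N C') (hp : s.GivenBy (v.adicCompletion K) p) : algebraMap L N x ∉ p.W := by
  haveI : IsAlgClosed Ω := IsAlgClosure.isAlgClosed L
  haveI : Algebra.IsAlgebraic L Ω := IsAlgClosure.isAlgebraic
  haveI : Algebra.IsAlgebraic L N := Algebra.IsAlgebraic.of_injective e e.injective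
  letI a1 : Algebra N Ω := e.toRingHom.toAlgebra
  have hal : ∀ z : N, algebraMap N Ω z = e z := fun z => rfl
  haveI : IsScalarTower L N Ω := IsScalarTower.of_algebraMap_eq fun z => (e.commutes z).symm
  haveI : IsScalarTower K N Ω := IsScalarTower.of_algebraMap_eq fun z => by
    rw [hal, IsScalarTower.algebraMap_apply K L Ω, IsScalarTower.algebraMap_apply K L N]
    exact (e.commutes _).symm
  haveI : Algebra.IsAlgebraic N Ω := Algebra.IsAlgebraic.tower_top (K := L) N
  haveI : CharZero N := charZero_of_injective_algebraMap (algebraMap K N).injective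
  haveI : IsAlgClosure N Ω := ⟨inferInstance, inferInstance⟩
  haveI : Normal N Ω := IsAlgClosure.normal N Ω
  haveI : IsGalois N Ω := ⟨⟩
  choose pw hpw using hs.all
  refine core hg hm hd hP hG hS h0 s hxy (fun C'' _ _ _ q => exists_ok_gen hG q Ω)
    (fun j n T hT => tor_sub (Λ := Ω) hG j n T hT)
    (fun j n T0 hT h => tor_sub_inj (Λ := Ω) hG j n T0 hT h)
    (fun Q0 hQ0 n => ?_) pw hpw v h2 hR p hp
  obtain ⟨Q00, hQ00⟩ := cl_exists (Ω := L) hyps hG
    (pt_ne (P := P.map (algebraMap K L)) (a := x) (b := y))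
  have h1 := cl_map hyps hG hQ00 (IsScalarTower.toAlgHom K L N)
  rw [cm, pt_map] at h1
  obtain ⟨Q, hQ⟩ := div_un hG U hU e he Q00 n
  refine ⟨Q, ?_⟩
  rw [hQ]
  exact cl_uniq hG h1 hQ0

theorem fin2 {L N Ω A : Type} [Field L] [Field N] [Field Ω] [Field A] [Algebra K L]
    [Algebra L N] [Algebra K N] [IsScalarTower K L N] [Algebra L Ω] [Algebra K Ω]
    [IsScalarTower K L Ω] [IsAlgClosure L Ω] [Algebra K A] [IsAlgClosure K A]
    {x y : L} (hxy : y ^ 2 = aeval x P)
    (U : Set (ValuationSubring L)) (hU : ∀ O ∈ U, ∀ c : K, algebraMap K L c ∈ O)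
    (e : N →ₐ[L] Ω) (he : unramified L Ω U ≤ e.fieldRange) (s : GalSection K L N A)
    (hs : Adm s)
    (v : HeightOneSpectrum (𝓞 K)) (h2 : (2 : 𝓞 K) ∈ v.asIdeal) (hR : RegAt v g f) :
    ∃ q : Plc K L (v.adicCompletion K), x ∉ q.W := by
  obtain ⟨p, hp⟩ := hs.all v
  haveI hcv : CharZero (v.adicCompletion K) :=
    charZero_of_injective_algebraMap (algebraMap K (v.adicCompletion K)).injective
  have h1 := fin1 hg hm hd hP hG hS h0 hxy U hU e he s hs v h2 hR p hp
  haveI : Normal K A := IsAlgClosure.normal K A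
  haveI : Algebra.IsAlgebraic K A := IsAlgClosure.isAlgebraic
  obtain ⟨q, hq⟩ := res_plc s p hp
  exact ⟨q, fun h => h1 ((hq x).1 h)⟩

end main

section ex

variable {K : Type} [Field K] [NumberField K]

/-- Coverings without points over infinity. -/
theorem ex_no {L : Type} [Field L] [Algebra K L] (w : HeightOneSpectrum (𝓞 K)) {a : 𝓞 K}
    (ha : ∀ t : 𝓞 K, t ^ 2 + t - a ∉ w.asIdeal) {x z : L}
    (hz : x * (z ^ 2 + z) = algebraMap K L (a : K) * x + 1)
    (q : Plc K L (w.adicCompletion K)) (hx : x ∉ q.W) : False := by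
  have hx0 : x ≠ 0 := by
    rintro rfl
    exact hx q.W.zero_mem
  have h1 := Plc.val_inv_of_notMem hx
  have h2 : z ^ 2 + z = algebraMap K L (a : K) + x⁻¹ := by
    field_simp
    linear_combination hz
  have h3 : q.val (z ^ 2 + z) (algebraMap K (w.adicCompletion K) (a : K)) := by
    rw [h2]
    have h4 := (Plc.val_alg (pl := q) (a : K)).add h1
    rwa [add_zero] at h4
  have hzW : z ∈ q.W := by
    by_contra hzW
    have hz0 : z ≠ 0 := by
      rintro rfl
      exact hzW q.W.zero_mem
    have h4 := Plc.val_inv_of_notMem hzW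
    have h5 := h3.mul (h4.mul h4)
    have h6 : (z ^ 2 + z) * (z⁻¹ * z⁻¹) = 1 + z⁻¹ := by
      field_simp
    rw [h6, mul_zero, mul_zero] at h5
    have h7 := (Plc.val_one (pl := q)).add h4
    rw [add_zero] at h7
    exact one_ne_zero (h7.unique h5)
  obtain ⟨c, hc⟩ := Plc.val_of_mem hzW
  have h4 := ((hc.pow 2).add hc).unique h3
  -- `c` is integral
  set aO : w.adicCompletionIntegers K := algebraMap (𝓞 K) (w.adicCompletionIntegers K) a with haO
  have haO' : (aO : w.adicCompletion K) = algebraMap K (w.adicCompletion K) (a : K) := rfl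
  have hcO : c ∈ w.adicCompletionIntegers K := by
    have h5 : IsIntegral (w.adicCompletionIntegers K) c := by
      refine ⟨X ^ 2 + X - C aO, ?_, ?_⟩
      · monicity!
      · have h6 : c ^ 2 + c - (aO : w.adicCompletion K) = 0 := by
          rw [haO', ← h4, sub_self]
        simpa using h6
    obtain ⟨y, hy⟩ := IsIntegrallyClosed.isIntegral_iff.1 h5
    rw [← hy]
    exact y.2
  obtain ⟨t, ht⟩ := alg_surj w (IsLocalRing.residue _ (⟨c, hcO⟩ : w.adicCompletionIntegers K))
  apply ha t
  have h6 : IsLocalRing.residue (w.adicCompletionIntegers K)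
      (algebraMap (𝓞 K) (w.adicCompletionIntegers K) (t ^ 2 + t - a)) = 0 := by
    have h7 : IsLocalRing.residue (w.adicCompletionIntegers K)
        (algebraMap (𝓞 K) (w.adicCompletionIntegers K) t) =
        IsLocalRing.residue _ (⟨c, hcO⟩ : w.adicCompletionIntegers K) := ht
    rw [map_sub, map_add, map_pow, map_sub, map_add, map_pow, h7, ← map_pow, ← map_add,
      ← map_sub]
    have h8 : (⟨c, hcO⟩ : w.adicCompletionIntegers K) ^ 2 + ⟨c, hcO⟩ -
        algebraMap (𝓞 K) (w.adicCompletionIntegers K) a = 0 := by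
      apply Subtype.ext
      show c ^ 2 + c - (aO : w.adicCompletion K) = 0
      rw [haO', ← h4, sub_self]
    rw [h8, map_zero]
  rw [IsLocalRing.residue_eq_zero_iff] at h6
  have h9 := (Valuation.mem_maximalIdeal_iff _ _).1 h6
  rw [val_alg] at h9
  exact (HeightOneSpectrum.intValuation_lt_one_iff_mem w _).1 h9

end ex

end Run7.h23.Se
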