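import Pool.Agent.Run7.h23.Se.Red

/-!
# The reduction of ideals and extensions of places
-/

set_option autoImplicit false
set_option linter.all false

open Polynomial Pool.Agent.Y160.SE

namespace Run7.h23.Se

open Run7.h23.Lo

section co

variable {E : Type} [CommRing E] [IsDomain E] {f : E[X]}

/-- The coefficients. -/
noncomputable def co (a : CR 2 f) (k : Bool × ℕ) : E :=
  (bif k.1 then c1 a else c0 a).coeff k.2

theorem co_add (a b : CR 2 f) (k : Bool × ℕ) : co (a + b) k = co a k + co b k := by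
  rcases k with ⟨_ | _, n⟩
  · simp only [co, cond_false, c0_add, coeff_add]
  · simp only [co, cond_true, c1_add, coeff_add]

theorem co_sub (a b : CR 2 f) (k : Bool × ℕ) : co (a - b) k = co a k - co b k := by
  rcases k with ⟨_ | _, n⟩
  · simp only [co, cond_false, c0_sub, coeff_sub]
  · simp only [co, cond_true, c1_sub, coeff_sub]

theorem co_smul (c : E) (a : CR 2 f) (k : Bool × ℕ) : co (xp 2 f (C c) * a) k = c * co a k := by
  rcases k with ⟨_ | _, n⟩
  · simp only [co, cond_false, c0_xp_mul, coeff_C_mul]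
  · simp only [co, cond_true, c1_xp_mul, coeff_C_mul]

theorem co_zero (k : Bool × ℕ) : co (0 : CR 2 f) k = 0 := by
  rcases k with ⟨_ | _, n⟩
  · simp only [co, cond_false, c0_zero, coeff_zero]
  · simp only [co, cond_true, c1_zero, coeff_zero]

theorem co_sum {n : ℕ} (v : Fin n → CR 2 f) (k : Bool × ℕ) :
    co (∑ t, v t) k = ∑ t, co (v t) k := by
  induction n with
  | zero => simp [co_zero]
  | succ n ih => rw [Fin.sum_univ_succ, co_add, ih, Fin.sum_univ_succ]

theorem co_ext {a : CR 2 f} (h : ∀ k, co a k = 0) : a = 0 := by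
  apply el_ext
  · ext n
    rw [c0_zero, coeff_zero]
    exact h (false, n)
  · ext n
    rw [c1_zero, coeff_zero]
    exact h (true, n)

theorem co_map {E' : Type} [CommRing E'] [IsDomain E'] (φ : E →+* E') {f' : E'[X]}
    (hf : f.map φ = f') (a : CR 2 f) (k : Bool × ℕ) :
    co (crMap 2 φ f f' hf a) k = φ (co a k) := by
  rcases k with ⟨_ | _, n⟩
  · simp only [co, cond_false, c0_map, coeff_map]
  · simp only [co, cond_true, c1_map, coeff_map]

end co

section span

variable {M Λ : Type} [Field M] [Field Λ] (l : M →+* Λ) {fM : M[X]} {fL : Λ[X]}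
  (hl : fM.map l = fL)

theorem mem_rep (I : Ideal (CR 2 fM)) {z : CR 2 fL} (hz : z ∈ I.map (crMap 2 l fM fL hl)) :
    ∃ (n : ℕ) (ω : Fin n → Λ) (v : Fin n → CR 2 fM), (∀ t, v t ∈ I) ∧
      z = ∑ t, xp 2 fL (C (ω t)) * crMap 2 l fM fL hl (v t) := by
  set S : Submodule Λ (CR 2 fL) := Submodule.span Λ (crMap 2 l fM fL hl '' (I : Set _)) with hS
  have hsm : ∀ (c : Λ) (a : CR 2 fL), c • a = xp 2 fL (C c) * a := fun c a => by
    rw [Algebra.smul_def]; rfl
  -- multiplication by elements of the base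
  have h1 : ∀ (b : CR 2 fM) (z : CR 2 fL), z ∈ S → crMap 2 l fM fL hl b * z ∈ S := by
    intro b z hz
    induction hz using Submodule.span_induction with
    | mem x hx =>
      obtain ⟨i, hi, rfl⟩ := hx
      rw [← map_mul]
      exact Submodule.subset_span ⟨_, I.mul_mem_left _ hi, rfl⟩
    | zero => rw [mul_zero]; exact S.zero_mem
    | add x y _ _ hx hy => rw [mul_add]; exact S.add_mem hx hy
    | smul c x _ hx =>
      rw [hsm, mul_left_comm, ← hsm]
      exact S.smul_mem _ hx
  have h2 : ∀ (p : Λ[X]) (z : CR 2 fL), z ∈ S → xp 2 fL p * z ∈ S := by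
    intro p z hz
    induction p using Polynomial.induction_on' with
    | add p q hp hq => rw [xp_add, add_mul]; exact S.add_mem hp hq
    | monomial n c =>
      rw [← C_mul_X_pow_eq_monomial, xp_mul, mul_assoc, ← hsm]
      apply S.smul_mem
      have e : xp 2 fL (X ^ n) = crMap 2 l fM fL hl (xp 2 fM (X ^ n)) := by
        rw [crMap_xp, Polynomial.map_pow, map_X]
      rw [e]
      exact h1 _ _ hz
  have h3 : ∀ a z : CR 2 fL, z ∈ S → a * z ∈ S := by
    intro a z hz
    rw [← el_eq a, el, add_mul, mul_assoc]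
    refine S.add_mem (h2 _ _ hz) (h2 _ _ ?_)
    have e : yy 2 fL = crMap 2 l fM fL hl (yy 2 fM) := by rw [crMap_yy]
    rw [e]
    exact h1 _ _ hz
  have h4 : z ∈ S := by
    unfold Ideal.map at hz
    induction hz using Submodule.span_induction with
    | mem x hx => exact Submodule.subset_span hx
    | zero => exact S.zero_mem
    | add x y _ _ hx hy => exact S.add_mem hx hy
    | smul c x _ hx => rw [smul_eq_mul]; exact h3 _ _ hx
  rw [hS, Submodule.mem_span_set'] at h4
  obtain ⟨n, ω, v, hv⟩ := h4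
  have h5 : ∀ t, ∃ i ∈ I, crMap 2 l fM fL hl i = v t := fun t => (v t).2
  choose w hw1 hw2 using h5
  refine ⟨n, ω, w, hw1, ?_⟩
  rw [← hv]
  refine Finset.sum_congr rfl fun t _ => ?_
  rw [hw2, hsm]

end span

section ident

theorem ident {R Λ : Type*} [CommRing R] [CommRing Λ] (κ : Λ →+* R) (V z : R) {n : ℕ}
    (ω γ : Fin n → Λ) (U : Fin n → R) (ω0 c lw lb a : Λ) (h : lw * lb = 1)
    (hz : z = κ ω0 * (κ c * V) + ∑ t, κ (ω t) * U t)
    (ha : a = ω0 * (c * lw) + ∑ t, ω t * γ t) :
    z - κ (a * lb) * V = ∑ t, κ (ω t) * (U t - κ (γ t * lb) * V) := by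
  have h1 : ∑ t, κ (ω t) * (U t - κ (γ t * lb) * V) =
      ∑ t, κ (ω t) * U t - κ (∑ t, ω t * γ t) * (κ lb * V) := by
    rw [map_sum, Finset.sum_mul, ← Finset.sum_sub_distrib]
    refine Finset.sum_congr rfl fun t _ => ?_
    rw [map_mul, map_mul]
    ring
  have h2 : a * lb = ω0 * c + (∑ t, ω t * γ t) * lb := by
    rw [ha]
    linear_combination (ω0 * c) * h
  rw [h1, hz, h2, map_add, map_mul, map_mul]
  ring

end ident

section flat

variable {W W' M Λ C' : Type} [CommRing W] [IsDomain W] [CommRing W'] [IsDomain W'] [Field M]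
  [Field Λ] [Field C'] {i : W →+* M} {ρ : W →+* C'} (P : Pl i ρ) {i' : W' →+* Λ}
  (hi' : Function.Injective i') (μ : W →+* W') (l : M →+* Λ) (hc : ∀ w, l (i w) = i' (μ w))
  {F : W[X]} {F' : W'[X]} {fM : M[X]} {fL : Λ[X]} {fC : C'[X]} (hi : F.map i = fM)
  (hF' : F'.map i' = fL) (hμ : F.map μ = F') (hl : fM.map l = fL) (hρ : F.map ρ = fC)

include hc in
theorem comm_sq (w : CR 2 F) : crMap 2 i' F' fL hF' (crMap 2 μ F F' hμ w) =
    crMap 2 l fM fL hl (crMap 2 i F fM hi w) := by
  have h : i'.comp μ = l.comp i := RingHom.ext fun w => (hc w).symm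
  apply el_ext
  · rw [c0_map, c0_map, c0_map, c0_map, Polynomial.map_map, Polynomial.map_map, h]
  · rw [c1_map, c1_map, c1_map, c1_map, Polynomial.map_map, Polynomial.map_map, h]

include P hi' hc hρ

theorem flat_sum (I : Ideal (CR 2 fM)) (n : ℕ) : ∀ (ω : Fin n → Λ) (v : Fin n → CR 2 fM),
    (∀ t, v t ∈ I) → ∀ z' : CR 2 F', crMap 2 i' F' fL hF' z' =
      ∑ t, xp 2 fL (C (ω t)) * crMap 2 l fM fL hl (v t) →
    z' ∈ (I.comap (crMap 2 i F fM hi)).map (crMap 2 μ F F' hμ) := by
  induction n with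
  | zero =>
    intro ω v _ z' hz
    rw [Fin.sum_univ_zero] at hz
    have h0 : z' = 0 := map_inj i' hF' hi' (by rw [hz, map_zero])
    rw [h0]
    exact Ideal.zero_mem _
  | succ n ih =>
    intro ω v hv z' hz
    rw [Fin.sum_univ_succ] at hz
    by_cases hv0 : v 0 = 0
    · rw [hv0, map_zero, mul_zero, zero_add] at hz
      exact ih _ _ (fun t => hv t.succ) z' hz
    · obtain ⟨c, w, hc0, hvw, hw⟩ := P.prim hi hρ hv0
      obtain ⟨k, hk⟩ : ∃ k, co (crMap 2 ρ F fC hρ w) k ≠ 0 := by
        by_contra hcon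
        push Not at hcon
        exact hw (co_ext hcon)
      rw [co_map] at hk
      obtain ⟨u, hu⟩ := P.loc _ hk
      have hwI : crMap 2 i F fM hi w ∈ I := by
        have h2 : crMap 2 i F fM hi w = xp 2 fM (C c⁻¹) * v 0 := by
          rw [hvw, ← mul_assoc, ← xp_mul, ← C_mul, inv_mul_cancel₀ hc0, C_1, xp_one, one_mul]
        rw [h2]
        exact I.mul_mem_left _ (hv 0)
      set b : M := i ((u⁻¹ : Wˣ) : W) with hb
      have hbu : b * i (co w k) = 1 := by
        rw [hb, ← hu, ← map_mul, Units.inv_mul, map_one]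
      have hcomm : crMap 2 i' F' fL hF' (crMap 2 μ F F' hμ w) =
          crMap 2 l fM fL hl (crMap 2 i F fM hi w) := comm_sq μ l hc hi hF' hμ hl w
      have e0 : ∀ t : Fin n, crMap 2 l fM fL hl
          (v t.succ - xp 2 fM (C (co (v t.succ) k * b)) * crMap 2 i F fM hi w) =
          crMap 2 l fM fL hl (v t.succ) - xp 2 fL (C (l (co (v t.succ) k) * l b)) *
            crMap 2 l fM fL hl (crMap 2 i F fM hi w) := by
        intro t
        rw [map_sub, map_mul, crMap_xp, map_C, map_mul]
      have e1 : i' (co z' k) = ω 0 * (l c * l (i (co w k))) +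
          ∑ t : Fin n, ω t.succ * l (co (v t.succ) k) := by
        have g1 : i' (co z' k) = co (crMap 2 i' F' fL hF' z') k := (co_map i' hF' z' k).symm
        have g2 : co (v 0) k = c * i (co w k) := by
          rw [hvw]
          exact (co_smul _ _ _).trans (congrArg _ (co_map i hi w k))
        have g3 : co (xp 2 fL (C (ω 0)) * crMap 2 l fM fL hl (v 0)) k =
            ω 0 * (l c * l (i (co w k))) := by
          rw [co_smul, co_map, g2, map_mul]
        have g4 : co (∑ t : Fin n, xp 2 fL (C (ω t.succ)) * crMap 2 l fM fL hl (v t.succ)) k =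
            ∑ t : Fin n, ω t.succ * l (co (v t.succ) k) := by
          rw [co_sum]
          refine Finset.sum_congr rfl fun t _ => ?_
          rw [co_smul, co_map]
        rw [g1, hz, co_add, g3, g4]
      have e2 : i' (μ ((u⁻¹ : Wˣ) : W)) = l b := by rw [hb, hc]
      have e5 : l (i (co w k)) * l b = 1 := by
        rw [← map_mul, mul_comm, hbu, map_one]
      have e6 : crMap 2 l fM fL hl (v 0) =
          xp 2 fL (C (l c)) * crMap 2 l fM fL hl (crMap 2 i F fM hi w) := by
        rw [hvw, map_mul, crMap_xp, map_C]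
      rw [e6] at hz
      have e7 := ident ((AdjoinRoot.of (X ^ 2 - C fL : Λ[X][X])).comp C)
        (crMap 2 l fM fL hl (crMap 2 i F fM hi w)) (crMap 2 i' F' fL hF' z')
        (fun t : Fin n => ω t.succ) (fun t => l (co (v t.succ) k))
        (fun t => crMap 2 l fM fL hl (v t.succ)) (ω 0) (l c) (l (i (co w k))) (l b)
        (i' (co z' k)) e5 hz e1
      have key := ih (fun t => ω t.succ)
        (fun t => v t.succ - xp 2 fM (C (co (v t.succ) k * b)) * crMap 2 i F fM hi w)
        (fun t => I.sub_mem (hv _) (I.mul_mem_left _ hwI))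
        (z' - xp 2 F' (C (co z' k * μ ((u⁻¹ : Wˣ) : W))) * crMap 2 μ F F' hμ w) (by
          rw [map_sub, map_mul, crMap_xp, map_C, hcomm, map_mul i', e2,
            Finset.sum_congr rfl (fun t _ => congrArg (fun y => xp 2 fL (C (ω t.succ)) * y) (e0 t))]
          exact e7)
      have h7 : xp 2 F' (C (co z' k * μ ((u⁻¹ : Wˣ) : W))) * crMap 2 μ F F' hμ w ∈
          (I.comap (crMap 2 i F fM hi)).map (crMap 2 μ F F' hμ) :=
        Ideal.mul_mem_left _ _ (Ideal.mem_map_of_mem _ (Ideal.mem_comap.2 hwI))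
      have h8 := Ideal.add_mem _ key h7
      rwa [sub_add_cancel] at h8

theorem flat_comap (I : Ideal (CR 2 fM)) :
    (I.map (crMap 2 l fM fL hl)).comap (crMap 2 i' F' fL hF') =
      (I.comap (crMap 2 i F fM hi)).map (crMap 2 μ F F' hμ) := by
  apply le_antisymm
  · intro z hz
    rw [Ideal.mem_comap] at hz
    obtain ⟨n, ω, v, hv, hzs⟩ := mem_rep l hl I hz
    exact flat_sum P hi' μ l hc hi hF' hμ hl hρ I n ω v hv z hzs
  · rw [Ideal.map_le_iff_le_comap]
    intro z hz
    rw [Ideal.mem_comap] at hz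
    rw [Ideal.mem_comap, Ideal.mem_comap]
    have h1 := Ideal.mem_map_of_mem (crMap 2 l fM fL hl) hz
    rw [comm_sq μ l hc hi hF' hμ hl z]
    exact h1

end flat

end Run7.h23.Se
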