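import Pool.Agent.Run7.h23.Se.Fin

/-!
# The point over the fixed field of a section
-/

set_option autoImplicit false
set_option linter.all false

open Polynomial Pool.Agent.Y160.SE Topology NumberField IsDedekindDomain
open scoped Classical

namespace Run7.h23.Se

open Run7.h23.Lo
open Pool.Agent.TH115.GD (incl rs ak)
open Pool.Agent.TH954 (GalSection Plc fix_nhds)
open Pool.Agent.W620.SC (unramified)
open Pool.Agent.N874.Jac (ShaTwoTrivialReal)
open Pool.Agent.N106.JB (ACoc)

section fixed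

variable {F N G : Type} [Field F] [Field N] [Algebra F N] [Algebra.IsAlgebraic F N]
  [Group G] [TopologicalSpace G] [IsTopologicalGroup G] [CompactSpace G]
  (s : G →* (N ≃ₐ[F] N)) (hs : Continuous s)

/-- The elements fixed by the image of `s`. -/
abbrev FF : IntermediateField F N := IntermediateField.fixedField s.range

theorem mem_FF (z : N) : z ∈ FF s ↔ ∀ g, s g z = z := by
  rw [IntermediateField.mem_fixedField_iff]
  constructor
  · intro h g
    exact h _ ⟨g, rfl⟩
  · rintro h _ ⟨g, rfl⟩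
    exact h g

include hs

theorem near_one (z : N) : ∀ᶠ g in 𝓝 (1 : G), s g z = z := by
  have h2 := hs.continuousAt (x := 1)
  have h3 : {g : N ≃ₐ[F] N | g z = z} ∈ nhds (s 1) := by
    rw [map_one]
    exact fix_nhds z
  exact h2 h3

theorem loc_const (z : N) : IsLocallyConstant fun g => s g z := by
  rw [IsLocallyConstant.iff_eventually_eq]
  intro σ
  have h2 : Filter.Tendsto (fun τ : G => σ⁻¹ * τ) (𝓝 σ) (𝓝 1) := by
    have h3 : Continuous fun τ : G => σ⁻¹ * τ := continuous_const_mul σ⁻¹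
    have h4 := h3.tendsto σ
    rwa [inv_mul_cancel] at h4
  filter_upwards [h2.eventually (near_one s hs z)] with τ hτ
  have h5 : s τ z = s σ (s (σ⁻¹ * τ) z) := by
    rw [← AlgEquiv.mul_apply, ← map_mul, mul_inv_cancel_left]
  rw [h5, hτ]

theorem FF_normal : Normal (FF s) N := by
  haveI : Algebra.IsAlgebraic (FF s) N := Algebra.IsAlgebraic.tower_top (K := F) (FF s)
  rw [normal_iff]
  intro z
  refine ⟨Algebra.IsIntegral.isIntegral z, ?_⟩
  have hfin : (Set.range fun g => s g z).Finite := (loc_const s hs z).range_finite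
  set O : Finset N := hfin.toFinset with hO
  set Q : N[X] := ∏ w ∈ O, (X - C w) with hQ
  have hinv : ∀ g, Q.map ((s g : N ≃ₐ[F] N) : N →+* N) = Q := by
    intro g
    rw [hQ, Polynomial.map_prod]
    simp only [Polynomial.map_sub, Polynomial.map_X, Polynomial.map_C]
    refine Finset.prod_bij' (fun w _ => s g w) (fun w _ => s g⁻¹ w) ?_ ?_ ?_ ?_ ?_
    · intro w hw
      rw [hO, Set.Finite.mem_toFinset] at hw ⊢
      obtain ⟨h, rfl⟩ := hw
      refine ⟨g * h, ?_⟩
      show s (g * h) z = s g (s h z)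
      rw [map_mul]; rfl
    · intro w hw
      rw [hO, Set.Finite.mem_toFinset] at hw ⊢
      obtain ⟨h, rfl⟩ := hw
      refine ⟨g⁻¹ * h, ?_⟩
      show s (g⁻¹ * h) z = s g⁻¹ (s h z)
      rw [map_mul]; rfl
    · intro w hw
      rw [map_inv]
      exact (s g).symm_apply_apply w
    · intro w hw
      rw [map_inv]
      exact (s g).apply_symm_apply w
    · intro w hw
      rfl
  have hlift : Q ∈ Polynomial.lifts (algebraMap (FF s) N) := by
    rw [Polynomial.lifts_iff_coeff_lifts]
    intro n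
    refine ⟨⟨Q.coeff n, (mem_FF s _).2 fun g => ?_⟩, rfl⟩
    have h1 := congrArg (fun q => q.coeff n) (hinv g)
    simp only [coeff_map] at h1
    exact h1
  obtain ⟨Q0, hQ0⟩ := (Polynomial.mem_lifts _).1 hlift
  have hz : z ∈ O := by
    rw [hO, Set.Finite.mem_toFinset]
    exact ⟨1, by simp⟩
  have hdvd : minpoly (FF s) z ∣ Q0 := by
    apply minpoly.dvd
    rw [← eval_map_algebraMap, hQ0, hQ, eval_prod]
    exact Finset.prod_eq_zero hz (by simp)
  have hQne : Q ≠ 0 := by
    rw [hQ, Finset.prod_ne_zero_iff]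
    intro w _
    exact X_sub_C_ne_zero w
  have hsp : Splits Q := by
    rw [hQ]
    exact Splits.prod fun w _ => Splits.X_sub_C w
  rw [← hQ0] at hsp hQne
  exact Splits.of_dvd hsp hQne (Polynomial.map_dvd _ hdvd)

/-- `s` as a homomorphism to the Galois group over the fixed field. -/
noncomputable def sF : G →* (N ≃ₐ[FF s] N) where
  toFun g := AlgEquiv.ofRingEquiv (f := ((s g : N ≃ₐ[F] N) : N ≃+* N))
    (fun z => (mem_FF s _).1 z.2 g)
  map_one' := by ext z; simp
  map_mul' a b := by ext z; simp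

theorem sF_cont : Continuous (sF s) := by
  apply continuous_of_continuousAt_one
  intro U hU
  rw [map_one, krullTopology_mem_nhds_one_iff] at hU
  obtain ⟨E, hE, h⟩ := hU
  haveI : FiniteDimensional (FF s) E := hE
  set b := Module.finBasis (FF s) E with hb
  have h1 : ∀ᶠ g in 𝓝 (1 : G), ∀ i, s g (b i : N) = b i :=
    Filter.eventually_all.2 fun i => near_one s hs _
  rw [Filter.mem_map]
  filter_upwards [h1] with g hg
  apply h
  rw [SetLike.mem_coe, IntermediateField.mem_fixingSubgroup_iff]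
  intro z hz
  have h2 : ((sF s g : N ≃ₐ[FF s] N).toAlgHom.toLinearMap).comp E.val.toLinearMap =
      E.val.toLinearMap := b.ext fun i => hg i
  exact LinearMap.congr_fun h2 ⟨z, hz⟩

theorem sF_surj [CharZero F] (τ : N ≃ₐ[FF s] N) : ∃ g, ∀ z, τ z = s g z := by
  haveI := FF_normal s hs
  haveI : Algebra.IsAlgebraic (FF s) N := Algebra.IsAlgebraic.tower_top (K := F) (FF s)
  haveI : CharZero (FF s) := charZero_of_injective_algebraMap (algebraMap F (FF s)).injective
  haveI : IsGalois (FF s) N := ⟨⟩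
  have hcl : IsClosed ((sF s).range : Set (N ≃ₐ[FF s] N)) := by
    rw [MonoidHom.coe_range]
    exact (isCompact_range (sF_cont s hs)).isClosed
  set H : ClosedSubgroup (N ≃ₐ[FF s] N) := ⟨(sF s).range, hcl⟩ with hH
  have h1 := InfiniteGalois.fixingSubgroup_fixedField H
  have h2 : IntermediateField.fixedField H.1 = ⊥ := by
    rw [eq_bot_iff]
    intro z hz
    rw [IntermediateField.mem_fixedField_iff] at hz
    rw [IntermediateField.mem_bot]
    refine ⟨⟨z, (mem_FF s z).2 fun g => ?_⟩, rfl⟩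
    exact hz (sF s g) ⟨g, rfl⟩
  have h3 : τ ∈ (sF s).range := by
    have h4 : τ ∈ (IntermediateField.fixedField H.1).fixingSubgroup := by
      rw [h2, IntermediateField.fixingSubgroup_bot]
      trivial
    rw [h1] at h4
    exact h4
  obtain ⟨g, rfl⟩ := h3
  exact ⟨g, fun z => rfl⟩

end fixed

section glb

variable {K : Type} [Field K] [NumberField K] {f : K[X]} (hg : Good 2 (-1 : K) f)

include hg

/-- The class is divisible over the fixed field. -/
theorem main_glb (hS : ShaTwoTrivialReal f (𝓞 K)) (h0 : ∀ x : Jac 2 f K, x = 0) {M : Type}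
    [Field M] [Algebra K M] (A : SA K (SeparableClosure K) M)
    (htor : ∀ n, ∀ T : Jac 2 f M, 2 ^ n • T = 0 → ∃ T0 : Jac 2 f (SeparableClosure K),
      2 ^ n • T0 = 0 ∧ jm 2 f A.j T0 = T)
    (hinj : ∀ n, ∀ T0 : Jac 2 f (SeparableClosure K), 2 ^ n • T0 = 0 → jm 2 f A.j T0 = 0 →
      T0 = 0)
    {P : Jac 2 f M} (hP : ∀ τ, A.ac f τ P = P) (hdiv : ∀ n, ∃ Q, 2 ^ n • Q = P)
    (hloc : ∀ v : HeightOneSpectrum (𝓞 K), ∃ ι red,
      LR A f (v.adicCompletion K) (SeparableClosure (v.adicCompletion K)) ι red) (n : ℕ) :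
    ∃ Q : Jac 2 f M, (∀ τ, A.ac f τ Q = Q) ∧ 2 ^ n • Q = P := by
  obtain ⟨Q, hQ⟩ := hdiv (n + 1)
  obtain ⟨c, hc1, hc2, hc3, hc4⟩ := A.exists_coc hg (n := n + 1) (Q := Q)
    (fun τ => by rw [hQ]; exact hP τ) (htor (n + 1)) (hinj (n + 1))
  have hc : ACoc c := ⟨hc1, hc2⟩
  have h2c : ∀ σ, jm 2 f A.j (2 • c σ) = A.ac f σ (2 • Q) - 2 • Q := by
    intro σ
    rw [map_nsmul, hc4, map_nsmul, smul_sub]
  obtain ⟨T, hT⟩ := sha_add (c := fun σ => 2 • c σ) hS n (hc.nsmul 2)
    (fun v => by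
      obtain ⟨ι', red', R'⟩ := hloc v
      exact ⟨ι', red' (2 • Q), fun τ σ hx => R'.coc h2c τ σ hx⟩)
    (fun ρ => @real_triv K _ _ f c ρ.toAlgebra hc)
    (fun σ => by rw [← tps]; exact hc3 σ)
  have hfix : ∀ σ : SeparableClosure K ≃ₐ[K] SeparableClosure K,
      jm 2 f (rs K σ) (2 ^ n • T) = 2 ^ n • T := by
    intro σ
    have h1 : 2 ^ n • (2 • c σ) = 2 ^ n • (jm 2 f (ak σ) T - T) := congrArg _ (hT σ)
    rw [← tps, hc3, smul_sub, ← map_nsmul] at h1
    exact (sub_eq_zero.1 h1.symm)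
  obtain ⟨y, hy⟩ := fixed_class (E := K) hyps hg (2 ^ n • T) hfix
  rw [h0 y, map_zero] at hy
  refine ⟨2 • Q - jm 2 f A.j T, fun τ => ?_, ?_⟩
  · have h1 : A.ac f τ (2 • Q) = 2 • Q + jm 2 f A.j (2 • c τ) := by
      rw [h2c]; abel
    have h3 : jm 2 f A.j (2 • c τ) = jm 2 f A.j (jm 2 f (ak τ) T) - jm 2 f A.j T := by
      rw [← map_sub]
      exact congrArg _ (hT τ)
    rw [map_sub, h1, A.ac_j, h3]
    abel
  · rw [smul_sub, ← map_nsmul, ← hy, map_zero, sub_zero, ← tps, hQ]

end glb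

section fin

instance towS {K L N : Type} [Field K] [Field L] [Field N] [Algebra K L] [Algebra L N]
    [Algebra K N] [IsScalarTower K L N] (S : IntermediateField L N) : IsScalarTower K S N :=
  IsScalarTower.of_algebraMap_eq fun z => rfl

variable {K : Type} [Field K] [NumberField K] {P : K[X]} (hG : Good 2 (-1 : K) P)
  (hS : ShaTwoTrivialReal P (𝓞 K)) (h0 : ∀ x : Jac 2 P K, x = 0)

include hG

theorem fix_desc {L N A : Type} [Field L] [Field N] [Field A] [Algebra K L]
    [Algebra L N] [Algebra K N] [IsScalarTower K L N] [Algebra K A] [IsAlgClosure K A]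
    [Algebra.IsAlgebraic L N] [CharZero L]
    (s : GalSection K L N A) {B : Type} [Field B] [Algebra K B] (e : B ≃ₐ[K] A) {Q : Jac 2 P N}
    (hQ : ∀ τ, (toSA s e).ac P τ Q = Q) :
    ∃ y : Jac 2 P (FF s.s), jm 2 P (incl K (FF s.s) N) y = Q := by
  haveI : Algebra.IsAlgebraic K A := IsAlgClosure.isAlgebraic
  haveI := FF_normal s.s s.cont
  haveI : Algebra.IsAlgebraic (FF s.s) N := Algebra.IsAlgebraic.tower_top (K := L) (FF s.s)
  haveI : CharZero (FF s.s) := charZero_of_injective_algebraMap (algebraMap L (FF s.s)).injective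
  haveI : IsGalois (FF s.s) N := ⟨⟩
  refine fixed_class (E := FF s.s) hyps hG Q fun τ => ?_
  obtain ⟨g, hg⟩ := sF_surj s.s s.cont τ
  obtain ⟨g', rfl⟩ := e.autCongr.surjective g
  have h1 : rs K τ = ak ((toSA s e).s g') := AlgHom.ext fun z => hg z
  rw [h1]
  exact hQ g'

include hS h0

theorem glb1 {L N Ω A : Type} [Field L] [Field N] [Field Ω] [Field A] [Algebra K L]
    [Algebra L N] [Algebra K N] [IsScalarTower K L N] [Algebra L Ω] [Algebra K Ω]
    [IsScalarTower K L Ω] [IsAlgClosure L Ω] [Algebra K A] [IsAlgClosure K A]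
    (x y : L)
    (U : Set (ValuationSubring L)) (hU : ∀ O ∈ U, ∀ c : K, algebraMap K L c ∈ O)
    (e : N →ₐ[L] Ω) (he : unramified L Ω U ≤ e.fieldRange) (s : GalSection K L N A)
    (hs : Adm s) (n : ℕ) :
    ∃ J : Ideal (CR 2 (P.map (algebraMap K (FF s.s)))), J ≠ ⊥ ∧
      Eqv (pt (P.map (algebraMap K (FF s.s))) (algebraMap L (FF s.s) x)
        (algebraMap L (FF s.s) y)) (J ^ 2 ^ n) := by
  haveI : IsAlgClosed Ω := IsAlgClosure.isAlgClosed L
  haveI : Algebra.IsAlgebraic L Ω := IsAlgClosure.isAlgebraic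
  haveI : Algebra.IsAlgebraic L N := Algebra.IsAlgebraic.of_injective e e.injective
  letI a1 : Algebra N Ω := e.toRingHom.toAlgebra
  have hal : ∀ z : N, algebraMap N Ω z = e z := fun z => rfl
  haveI : IsScalarTower L N Ω := IsScalarTower.of_algebraMap_eq fun z => (e.commutes z).symm
  haveI : IsScalarTower K N Ω := IsScalarTower.of_algebraMap_eq fun z => by
    rw [hal, IsScalarTower.algebraMap_apply K L Ω, IsScalarTower.algebraMap_apply K L N]
    exact (e.commutes _).symm
  haveI : Algebra.IsAlgebraic N Ω := Algebra.IsAlgebraic.tower_top (K := L) N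
  haveI : CharZero N := charZero_of_injective_algebraMap (algebraMap K N).injective
  haveI : CharZero L := charZero_of_injective_algebraMap (algebraMap K L).injective
  haveI : IsAlgClosure N Ω := ⟨inferInstance, inferInstance⟩
  haveI : Normal N Ω := IsAlgClosure.normal N Ω
  haveI : IsGalois N Ω := ⟨⟩
  haveI : Algebra.IsAlgebraic K A := IsAlgClosure.isAlgebraic
  haveI hcv : ∀ w : HeightOneSpectrum (𝓞 K), CharZero (w.adicCompletion K) := fun w =>
    charZero_of_injective_algebraMap (algebraMap K (w.adicCompletion K)).injective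
  choose pw hpw using hs.all
  set e' : SeparableClosure K ≃ₐ[K] A := IsAlgClosure.equiv K (SeparableClosure K) A with he'
  obtain ⟨Q0, hQ0⟩ := cl_exists (Ω := N) hyps hG
    (pt_ne (P := P.map (algebraMap K N)) (a := algebraMap L N x) (b := algebraMap L N y))
  have hdiv : ∀ n, ∃ Q, 2 ^ n • Q = Q0 := by
    intro n
    obtain ⟨Q00, hQ00⟩ := cl_exists (Ω := L) hyps hG
      (pt_ne (P := P.map (algebraMap K L)) (a := x) (b := y))
    have h1 := cl_map hyps hG hQ00 (IsScalarTower.toAlgHom K L N)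
    rw [cm, pt_map] at h1
    obtain ⟨Q, hQ⟩ := div_un hG U hU e he Q00 n
    refine ⟨Q, ?_⟩
    rw [hQ]
    exact cl_uniq hG h1 hQ0
  have hloc : ∀ w : HeightOneSpectrum (𝓞 K), ∃ ι red,
      LR (toSA s e') P (w.adicCompletion K) (SeparableClosure (w.adicCompletion K)) ι red := by
    intro w
    obtain ⟨red, hr⟩ := exists_ok_gen hG (pw w) Ω
    obtain ⟨ι, h⟩ := sec_LR hG s e' (pw w) (hpw w)
      (IsAlgClosure.equiv (w.adicCompletion K) (AlgebraicClosure (w.adicCompletion K))
        (SeparableClosure (w.adicCompletion K))) hr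
    exact ⟨ι, _, h⟩
  obtain ⟨Q, hQ1, hQ2⟩ := main_glb hG hS h0 (toSA s e') (fun n T hT => tor_sub (Λ := Ω) hG _ n T hT)
    (fun n T0 hT h => tor_sub_inj (Λ := Ω) hG _ n T0 hT h) (P := Q0)
    (sec_fix s e' hG hQ0) hdiv hloc n
  obtain ⟨z, hz⟩ := fix_desc hG s e' hQ1
  haveI := FF_normal s.s s.cont
  haveI : Algebra.IsAlgebraic (FF s.s) N := Algebra.IsAlgebraic.tower_top (K := L) (FF s.s)
  haveI : CharZero (FF s.s) := charZero_of_injective_algebraMap (algebraMap L (FF s.s)).injective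
  haveI : IsGalois (FF s.s) N := ⟨⟩
  refine div_pt (C' := N) hG (z := z) ?_
  rw [map_nsmul, hz, hQ2]
  exact hQ0

end fin

end Run7.h23.Se
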