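import Pool.Agent.Run7.h23.Se.Rd
import Pool.Agent.TH954.SBir

/-!
# The reduction homomorphism of the Jacobian at a place
-/

set_option autoImplicit false
set_option linter.all false

open Polynomial Pool.Agent.Y160.SE

namespace Run7.h23.Se

open Run7.h23.Lo

section more

variable {W Λ C' : Type} [CommRing W] [IsDomain W] [Field Λ] [Field C'] {i : W →+* Λ}
  {ρ : W →+* C'} (P : Pl i ρ) {F : W[X]} {fL : Λ[X]} {fC : C'[X]} {hi : F.map i = fL}
  {hρ : F.map ρ = fC}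

include P

theorem Rd_mul [IsAlgClosed Λ] (hGL : Good 2 (-1 : Λ) fL) (h2 : (2 : C') ≠ 0)
    (hs : fC.Separable) (ho : Odd F.natDegree) {I J : Ideal (CR 2 fL)} (hI : I ≠ ⊥)
    (hJ : J ≠ ⊥) : Rd hi hρ (I * J) = Rd hi hρ I * Rd hi hρ J := by
  obtain ⟨I', h1⟩ := exists_Sp P (hi := hi) (hρ := hρ) hGL h2 hs I hI
  obtain ⟨J', h3⟩ := exists_Sp P (hi := hi) (hρ := hρ) hGL h2 hs J hJ
  rw [(h1.mul h3).rd P ho, h1.rd P ho, h3.rd P ho, Ideal.map_mul]

theorem Rd_span (hoC : Odd fC.natDegree) {z : CR 2 fL} (hz : z ≠ 0) :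
    ∃ w : CR 2 fC, w ≠ 0 ∧ Rd hi hρ (Ideal.span {z}) = Ideal.span {w} := by
  obtain ⟨c, h, hc, hz', hh⟩ := P.prim hi hρ hz
  refine ⟨crMap 2 ρ F fC hρ h, hh, ?_⟩
  rw [hz', Ideal.span_singleton_mul_left_unit
    ((isUnit_C.2 (isUnit_iff_ne_zero.2 hc)).map (AdjoinRoot.of _)), Rd,
    P.comap_span hi hρ hoC hh, Ideal.map_span, Set.image_singleton]

theorem Rd_ne {I : Ideal (CR 2 fL)} (hI : I ≠ ⊥) : Rd hi hρ I ≠ ⊥ := by
  obtain ⟨z, hz, hz0⟩ := Submodule.exists_mem_ne_zero_of_ne_bot hI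
  obtain ⟨c, h, hc, hz', hh⟩ := P.prim hi hρ hz0
  have h1 : crMap 2 i F fL hi h ∈ I := by
    have h2 : crMap 2 i F fL hi h = xp 2 fL (C c⁻¹) * z := by
      rw [hz', ← mul_assoc, ← xp_mul, ← C_mul, inv_mul_cancel₀ hc, C_1, xp_one, one_mul]
    rw [h2]
    exact I.mul_mem_left _ hz
  intro h3
  have h4 : crMap 2 ρ F fC hρ h ∈ Rd hi hρ I := Ideal.mem_map_of_mem _ (Ideal.mem_comap.2 h1)
  rw [h3, Ideal.mem_bot] at h4
  exact hh h4

theorem Rd_eqv [IsAlgClosed Λ] (hGL : Good 2 (-1 : Λ) fL) (h2 : (2 : C') ≠ 0)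
    (hs : fC.Separable) (ho : Odd F.natDegree) (hoC : Odd fC.natDegree)
    {I J : Ideal (CR 2 fL)} (hI : I ≠ ⊥) (hJ : J ≠ ⊥) (h : Eqv I J) :
    Eqv (Rd hi hρ I) (Rd hi hρ J) := by
  obtain ⟨a, b, ha, hb, hab⟩ := h
  obtain ⟨a', ha', hA⟩ := Rd_span P (hi := hi) (hρ := hρ) hoC ha
  obtain ⟨b', hb', hB⟩ := Rd_span P (hi := hi) (hρ := hρ) hoC hb
  refine ⟨a', b', ha', hb', ?_⟩
  rw [← hA, ← hB, ← Rd_mul P hGL h2 hs ho (by rwa [Ne, Ideal.span_singleton_eq_bot]) hI,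
    ← Rd_mul P hGL h2 hs ho (by rwa [Ne, Ideal.span_singleton_eq_bot]) hJ, hab]

/-- Semilinear automorphisms. -/
theorem Sp.aut {γ : W →+* W} {G : Λ →+* Λ} {σ : C' →+* C'} (hG : ∀ w, G (i w) = i (γ w))
    (hσ : ∀ w, σ (ρ w) = ρ (γ w)) (hF : F.map γ = F) (hFL : fL.map G = fL)
    {I : Ideal (CR 2 fL)} {J : Ideal (CR 2 F)} (h : Sp hi hρ I J) :
    Sp hi hρ (I.map (crMap 2 G fL fL hFL)) (J.map (crMap 2 γ F F hF)) := by
  obtain ⟨J', u, M, e, hu, hJ, hI, he, he1⟩ := h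
  have hcomp : (crMap 2 G fL fL hFL).comp (crMap 2 i F fL hi) =
      (crMap 2 i F fL hi).comp (crMap 2 γ F F hF) := by
    apply cr_hom_ext
    · intro c
      simp only [RingHom.comp_apply, crMap_xp, map_C, hG]
    · simp only [RingHom.comp_apply, crMap_xp, map_X]
    · simp only [RingHom.comp_apply, crMap_yy]
  refine ⟨J'.map (crMap 2 γ F F hF), u.map γ, M.map (crMap 2 G fL fL hFL),
    crMap 2 γ F F hF e, hu.map γ, ?_, ?_, ?_, ?_⟩
  · rw [← Ideal.map_mul, hJ, Ideal.map_span, Set.image_singleton, crMap_xp]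
  · rw [hI, Ideal.map_mul, Ideal.map_map, Ideal.map_map, hcomp]
  · have h1 := congrArg (fun g => g e) hcomp
    simp only [RingHom.comp_apply] at h1
    rw [← h1]
    exact Ideal.mem_map_of_mem _ he
  · -- the value of `γ e`
    have h2 : ∀ z : CR 2 F, (c0 (crMap 2 ρ F fC hρ (crMap 2 γ F F hF z))) =
        (c0 (crMap 2 ρ F fC hρ z)).map σ := by
      intro z
      rw [c0_map, c0_map, c0_map, Polynomial.map_map, Polynomial.map_map]
      congr 1
      ext w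
      exact (hσ w).symm
    have h3 : ∀ z : CR 2 F, (c1 (crMap 2 ρ F fC hρ (crMap 2 γ F F hF z))) =
        (c1 (crMap 2 ρ F fC hρ z)).map σ := by
      intro z
      rw [c1_map, c1_map, c1_map, Polynomial.map_map, Polynomial.map_map]
      congr 1
      ext w
      exact (hσ w).symm
    apply el_ext
    · rw [h2, he1, ← xp_one, c0_xp, Polynomial.map_one]
    · rw [h3, he1, ← xp_one, c1_xp, Polynomial.map_zero]

end more

open Pool.Agent.TH954

section plc

variable {K M C' : Type} [Field K] [Field M] [Field C'] [Algebra K M] [Algebra K C']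

theorem pl_ok (pl : Plc K M C') : Pl (pl.W.subtype : pl.W →+* M) pl.ρ where
  inj := Subtype.val_injective
  loc := by
    intro w hw
    have hw0 : (w : M) ≠ 0 := by
      intro h
      apply hw
      have : w = 0 := Subtype.ext h
      rw [this, map_zero]
    exact IsUnit.of_mul_eq_one ⟨(w : M)⁻¹, pl.loc w hw⟩ (Subtype.ext (mul_inv_cancel₀ hw0))
  val := by
    intro z
    by_cases hz : z ∈ pl.W
    · exact Or.inl ⟨⟨z, hz⟩, rfl⟩
    · obtain ⟨h, e⟩ := pl.rho_inv hz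
      refine Or.inr ⟨⟨z⁻¹, h⟩, e, ?_⟩
      have hz0 : z ≠ 0 := by
        rintro rfl
        exact hz pl.W.zero_mem
      exact inv_mul_cancel₀ hz0

/-- The polynomial over the valuation ring. -/
noncomputable def fW (pl : Plc K M C') (f : K[X]) : (pl.W)[X] := f.map pl.cst

theorem fW_i (pl : Plc K M C') (f : K[X]) :
    (fW pl f).map (pl.W.subtype : pl.W →+* M) = f.map (algebraMap K M) := by
  rw [fW, Polynomial.map_map]
  congr 1

theorem fW_ρ (pl : Plc K M C') (f : K[X]) : (fW pl f).map pl.ρ = f.map (algebraMap K C') := by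
  rw [fW, Polynomial.map_map]
  congr 1
  ext c
  exact pl.rho_cst c

/-- `red` is the reduction homomorphism. -/
def IsRed (pl : Plc K M C') (f : K[X]) (red : Jac 2 f M →+ Jac 2 f C') : Prop :=
  ∀ I x, IsCl M I x → IsCl C' (Rd (fW_i pl f) (fW_ρ pl f) I) (red x)

theorem cl_uniq {Λ : Type} [Field Λ] [Algebra K Λ] {f : K[X]} (hg : Good 2 (-1 : K) f)
    {I : Ideal (CR 2 (f.map (algebraMap K Λ)))} {x y : Jac 2 f Λ} (hx : IsCl Λ I x)
    (hy : IsCl Λ I y) : x = y := by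
  haveI := hyps.ring 2 Λ _ _ (hg.up Λ)
  exact (cl_eq_iff hyps hg hx hy).2 (Pool.Agent.Y494.SE.Eqv.refl I)

theorem cl_of_eqv {Λ : Type} [Field Λ] [Algebra K Λ] {f : K[X]} (hg : Good 2 (-1 : K) f)
    {I J : Ideal (CR 2 (f.map (algebraMap K Λ)))} {x : Jac 2 f Λ} (hx : IsCl Λ I x)
    (hJ : J ≠ ⊥) (h : Eqv I J) : IsCl Λ J x := by
  obtain ⟨y, hy⟩ := cl_exists (Ω := Λ) hyps hg hJ
  rw [(cl_eq_iff hyps hg hx hy).2 h]
  exact hy

variable (pl : Plc K M C') {f : K[X]} (hg : Good 2 (-1 : K) f)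

theorem up' {Λ : Type} [Field Λ] [Algebra K Λ] (hg : Good 2 (-1 : K) f) :
    Good 2 (-1 : Λ) (f.map (algebraMap K Λ)) := by
  have h := hg.up Λ
  rw [map_neg, map_one] at h
  exact h

theorem odd_of (hg : Good 2 (-1 : K) f) : Odd f.natDegree := Nat.coprime_two_left.1 hg.cop

theorem odd_up {Λ : Type} [Field Λ] [Algebra K Λ] (hg : Good 2 (-1 : K) f) :
    Odd (f.map (algebraMap K Λ)).natDegree := Nat.coprime_two_left.1 (up' hg).cop

theorem odd_W (hg : Good 2 (-1 : K) f) : Odd (fW pl f).natDegree := by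
  rw [fW, hg.monic.natDegree_map]
  exact odd_of hg

theorem two_ne (hg : Good 2 (-1 : K) f) {Λ : Type} [Field Λ] [Algebra K Λ] : (2 : Λ) ≠ 0 := by
  intro h
  have h1 := (up' (Λ := Λ) hg).root.ne_one (by norm_num)
  apply h1
  have h2 : (1 : Λ) + 1 = 0 := by rw [one_add_one_eq_two]; exact h
  exact (neg_eq_of_add_eq_zero_left h2)

variable [IsAlgClosed M]

include hg

theorem exists_red : ∃ red : Jac 2 f M →+ Jac 2 f C', IsRed pl f red := by
  have P := pl_ok pl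
  have h1 : ∀ x : Jac 2 f M, ∃ y : Jac 2 f C', ∀ I, IsCl M I x →
      IsCl C' (Rd (fW_i pl f) (fW_ρ pl f) I) y := by
    intro x
    obtain ⟨I, hI, hIx⟩ := exists_cl (Ω := M) hyps hg x
    obtain ⟨y, hy⟩ := cl_exists (Ω := C') hyps hg
      (Rd_ne P (hi := fW_i pl f) (hρ := fW_ρ pl f) hI)
    refine ⟨y, fun J hJ => cl_of_eqv hg hy (Rd_ne P hJ.ne) ?_⟩
    exact Rd_eqv P (up' hg) (two_ne hg) (up' (Λ := C') hg).sep (odd_W pl hg) (odd_up hg) hI hJ.ne
      ((cl_eq_iff hyps hg hIx hJ).1 rfl)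
  choose r hr using h1
  refine ⟨AddMonoidHom.mk' r ?_, fun I x hx => hr x I hx⟩
  intro x y
  obtain ⟨I, hI, hIx⟩ := exists_cl (Ω := M) hyps hg x
  obtain ⟨J, hJ, hJy⟩ := exists_cl (Ω := M) hyps hg y
  have h2 := hr _ _ (cl_mul hyps hg hIx hJy)
  rw [Rd_mul P (up' hg) (two_ne hg) (up' (Λ := C') hg).sep (odd_W pl hg) hI hJ] at h2
  exact cl_uniq hg h2 (cl_mul hyps hg (hr x I hIx) (hr y J hJy))

variable {pl}

omit [IsAlgClosed M] in
/-- Constant classes. -/
theorem red_const {red : Jac 2 f M →+ Jac 2 f C'} (hred : IsRed pl f red) {A : Type} [Field A]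
    [Algebra K A] [Algebra.IsAlgebraic K A] (j : A →ₐ[K] M) (x : Jac 2 f A) :
    red (jm 2 f j x) = jm 2 f (pl.iot j) x := by
  have P := pl_ok pl
  obtain ⟨I, hI, hIx⟩ := exists_cl (Ω := A) hyps hg x
  set κ : A →+* pl.W := (j : A →+* M).codRestrict pl.W
    (fun z => pl.mem_of_integral (((Algebra.IsAlgebraic.isAlgebraic z).isIntegral).map j)) with hκ
  have hκf : (f.map (algebraMap K A)).map κ = fW pl f := by
    rw [Polynomial.map_map, fW]
    congr 1
    ext c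
    exact j.commutes c
  obtain ⟨⟨u, hu, hprod⟩, -⟩ := hyps.nmi 2 A _ _ (hg.up A) I hI
  rw [Finset.prod_range_succ, Finset.prod_range_one] at hprod
  have e0 : I.map ((hg.up A).tw ^ 0) = I := by
    rw [pow_zero]
    exact Ideal.map_id I
  rw [e0] at hprod
  set J := I.map (crMap 2 κ _ _ hκf) with hJ
  have h1 : J * (I.map ((hg.up A).tw ^ 1)).map (crMap 2 κ _ _ hκf) =
      Ideal.span {xp 2 (fW pl f) (u.map κ)} := by
    rw [hJ, ← Ideal.map_mul, hprod, Ideal.map_span, Set.image_singleton, crMap_xp]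
  have h2 := (Sp.const (hi := fW_i pl f) (hρ := fW_ρ pl f) (hu.map κ) h1).rd P (odd_W pl hg)
  have h3 : J.map (crMap 2 _ _ _ (fW_i pl f)) = I.map (cm 2 f j) := by
    rw [hJ, Ideal.map_map]
    congr 1
    apply cr_hom_ext
    · intro c
      simp only [RingHom.comp_apply, crMap_xp, cm, map_C]
      rfl
    · simp only [RingHom.comp_apply, crMap_xp, cm, map_X]
    · simp only [RingHom.comp_apply, crMap_yy, cm]
  have h4 : J.map (crMap 2 _ _ _ (fW_ρ pl f)) = I.map (cm 2 f (pl.iot j)) := by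
    rw [hJ, Ideal.map_map]
    congr 1
    apply cr_hom_ext
    · intro c
      simp only [RingHom.comp_apply, crMap_xp, cm, map_C]
      rfl
    · simp only [RingHom.comp_apply, crMap_xp, cm, map_X]
    · simp only [RingHom.comp_apply, crMap_yy, cm]
  rw [h3, h4] at h2
  have h5 := hred _ _ (cl_map hyps hg hIx j)
  rw [h2] at h5
  exact cl_uniq hg h5 (cl_map hyps hg hIx (pl.iot j))

/-- Semilinear automorphisms. -/
theorem red_aut {red : Jac 2 f M →+ Jac 2 f C'} (hred : IsRed pl f red) (G : M →ₐ[K] M)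
    (σ : C' →ₐ[K] C') (hG : ∀ x : pl.W, ∃ h : G x ∈ pl.W, pl.ρ ⟨G x, h⟩ = σ (pl.ρ x))
    (x : Jac 2 f M) : red (jm 2 f G x) = jm 2 f σ (red x) := by
  have P := pl_ok pl
  obtain ⟨I, hI, hIx⟩ := exists_cl (Ω := M) hyps hg x
  set γ : pl.W →+* pl.W := ((G : M →+* M).comp (pl.W.subtype : pl.W →+* M)).codRestrict pl.W
    (fun w => (hG w).1) with hγ
  have hγf : (fW pl f).map γ = fW pl f := by
    rw [fW, Polynomial.map_map]
    congr 1
    ext c
    exact G.commutes c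
  obtain ⟨J, hJ⟩ := exists_Sp P (hi := fW_i pl f) (hρ := fW_ρ pl f) (up' hg) (two_ne hg)
    (up' (Λ := C') hg).sep I hI
  have h1 := Sp.aut P (γ := γ) (G := (G : M →+* M)) (σ := (σ : C' →+* C')) (fun w => rfl)
    (fun w => by
      obtain ⟨h, e⟩ := hG w
      exact e.symm) hγf (map_alg G) hJ
  have h2 := h1.rd P (odd_W pl hg)
  have h3 := hJ.rd P (odd_W pl hg)
  have h4 : (J.map (crMap 2 γ _ _ hγf)).map (crMap 2 _ _ _ (fW_ρ pl f)) =
      (J.map (crMap 2 _ _ _ (fW_ρ pl f))).map (cm 2 f σ) := by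
    rw [Ideal.map_map, Ideal.map_map]
    congr 1
    apply cr_hom_ext
    · intro c
      simp only [RingHom.comp_apply, crMap_xp, cm, map_C]
      obtain ⟨h, e⟩ := hG c
      exact congrArg _ (congrArg _ e)
    · simp only [RingHom.comp_apply, crMap_xp, cm, map_X]
    · simp only [RingHom.comp_apply, crMap_yy, cm]
  rw [h4, ← h3] at h2
  have h5 := hred _ _ (cl_map hyps hg hIx G)
  rw [show I.map (cm 2 f G) = I.map (crMap 2 (G : M →+* M) _ _ (map_alg G)) from rfl, h2] at h5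
  exact cl_uniq hg h5 (cl_map hyps hg (hred _ _ hIx) σ)

omit [IsAlgClosed M] in
/-- Points at infinity. -/
theorem red_inf {red : Jac 2 f M →+ Jac 2 f C'} (hred : IsRed pl f red) {a b : M} (ha : a ∉ pl.W)
    {x : Jac 2 f M} (hx : IsCl M (pt _ a b) x) : red x = 0 := by
  have P := pl_ok pl
  obtain ⟨h, e⟩ := pl.rho_inv ha
  have ha0 : a ≠ 0 := by
    rintro rfl
    exact ha pl.W.zero_mem
  have h1 := (Sp.inf (hi := fW_i pl f) (hρ := fW_ρ pl f) (a := a) (b := b)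
    (w := (⟨a⁻¹, h⟩ : pl.W)) e (inv_mul_cancel₀ ha0)).rd P (odd_W pl hg)
  rw [Ideal.map_top] at h1
  have h2 := hred _ _ hx
  rw [h1] at h2
  exact cl_uniq hg h2 (cl_top hyps hg)

omit [IsAlgClosed M] in
/-- Points with integral coordinates. -/
theorem red_int {red : Jac 2 f M →+ Jac 2 f C'} (hred : IsRed pl f red) {a b : pl.W}
    (hab : (b : M) ^ 2 = (f.map (algebraMap K M)).eval (a : M))
    {x : Jac 2 f M} (hx : IsCl M (pt _ (a : M) (b : M)) x) :
    IsCl C' (pt _ (pl.ρ a) (pl.ρ b)) (red x) := by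
  have P := pl_ok pl
  have hab' : b ^ 2 = (fW pl f).eval a := by
    apply Subtype.val_injective
    rw [show ((b ^ 2 : pl.W) : M) = (b : M) ^ 2 from rfl, hab, ← fW_i pl f, eval_map]
    exact eval₂_hom (p := fW pl f) (pl.W.subtype : pl.W →+* M) a
  have h1 := (Sp.int P (hi := fW_i pl f) (hρ := fW_ρ pl f) (two_ne hg) (up' (Λ := C') hg).sep
    hab').rd P (odd_W pl hg)
  have h2 := hred _ _ hx
  rw [show pt (f.map (algebraMap K M)) (a : M) (b : M) = pt _ ((pl.W.subtype : pl.W →+* M) a)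
    ((pl.W.subtype : pl.W →+* M) b) from rfl, h1, pt_map] at h2
  exact h2

end plc

end Run7.h23.Se
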