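import Pool.Agent.Run7.h23.Se.Act
import Pool.Agent.N783.PF.Jac

/-!
# Sections and the Tate-Shafarevich group: divisibility of the local points
-/

set_option autoImplicit false
set_option linter.all false

open Polynomial Pool.Agent.Y160.SE Topology NumberField IsDedekindDomain
open scoped Classical

namespace Run7.h23.Se

open Run7.h23.Lo
open Pool.Agent.TH115.GD (incl rs ak)
open Pool.Agent.N106.JB (ACoc ACob ATriv ad mu ad_mapJ ad_inj ad_mul ad_div ad_mu ad_pow)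
open Pool.Agent.Y713.Jac (IsCocycle IsCoboundary IsTrivialOver Gal)
open Pool.Agent.N874.Jac (ShaTwoTrivialReal)

section conv

variable {K : Type} [Field K] {f : K[X]} {c : Gal K → Jac 2 f (SeparableClosure K)}

theorem coc_of (h : ACoc c) : IsCocycle 2 f (fun σ => mu (c σ)) := by
  refine ⟨h.1.comp mu, fun σ τ => ad_inj ?_⟩
  rw [ad_mul, ad_mapJ]
  exact h.2 σ τ

theorem triv_of {E : Type} [Field E] [Algebra K E] (h : ATriv E c) :
    IsTrivialOver 2 f E (fun σ => mu (c σ)) := by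
  obtain ⟨ι, P, hP⟩ := h
  refine ⟨ι, mu P, fun τ σ hx => ad_inj ?_⟩
  rw [ad_mapJ, ad_div, ad_mapJ]
  exact hP τ σ hx

theorem sha_add [NumberField K] (h : ShaTwoTrivialReal f (𝓞 K)) (m : ℕ) (hc : ACoc c)
    (h1 : ∀ v : HeightOneSpectrum (𝓞 K), ATriv (v.adicCompletion K) c)
    (h2 : ∀ ρ : K →+* ℝ, letI := ρ.toAlgebra; ATriv ℝ c) (hb : ∀ σ, 2 ^ m • c σ = 0) :
    ∃ T, ∀ σ, c σ = jm 2 f (ak σ) T - T := by
  have h3 : IsCoboundary 2 f (fun σ => mu (c σ)) := by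
    refine h (fun σ => mu (c σ)) m (coc_of hc) (fun v => triv_of (h1 v))
      (fun ρ => @triv_of K _ f c ℝ _ ρ.toAlgebra (h2 ρ)) ?_
    refine ⟨1, fun σ => ?_⟩
    have e1 : mu (c σ) ^ 2 ^ m = 1 := ad_inj (by rw [ad_pow]; exact hb σ)
    have e2 : mu (c σ) ^ 2 ^ m = Pool.Agent.Y713.Jac.mapJ 2 f σ.toAlgHom 1 / 1 := by
      rw [e1, map_one, div_one]
    exact e2
  exact Pool.Agent.N106.JB.acob_iff.1 h3

end conv

section real

/-- Automorphisms of the algebraic closure of the real numbers. -/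
theorem real_aut {C' : Type} [Field C'] [Algebra ℝ C'] [IsAlgClosure ℝ C'] {τ τ' : C' ≃ₐ[ℝ] C'}
    (h : τ ≠ 1) (h' : τ' ≠ 1) : τ = τ' ∧ τ * τ = 1 := by
  haveI : IsAlgClosure ℝ ℂ := ⟨Complex.isAlgClosed, inferInstance⟩
  set e : C' ≃ₐ[ℝ] ℂ := IsAlgClosure.equiv ℝ C' ℂ with he
  have key : ∀ τ : C' ≃ₐ[ℝ] C', τ ≠ 1 → ∀ z, e (τ z) = (starRingEnd ℂ) (e z) := by
    intro τ hτ
    set φ : ℂ →ₐ[ℝ] ℂ := (e : C' →ₐ[ℝ] ℂ).comp ((τ : C' →ₐ[ℝ] C').comp (e.symm : ℂ →ₐ[ℝ] C')) with hφ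
    have hφe : ∀ z, e (τ z) = φ (e z) := by
      intro z
      show _ = e (τ (e.symm (e z)))
      rw [e.symm_apply_apply]
    rcases Complex.real_algHom_eq_id_or_conj φ with h1 | h1
    · exfalso
      apply hτ
      ext z
      apply e.injective
      rw [hφe, h1]
      rfl
    · intro z
      rw [hφe, h1]
      rfl
  constructor
  · ext z
    apply e.injective
    rw [key τ h, key τ' h']
  · ext z
    apply e.injective
    rw [AlgEquiv.mul_apply, key τ h, key τ h, Complex.conj_conj]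
    rfl

variable {K : Type} [Field K] [CharZero K] {f : K[X]} {c : Gal K → Jac 2 f (SeparableClosure K)}

/-- Twice a cocycle is trivial over the real numbers. -/
theorem real_triv [Algebra K ℝ] (hc : ACoc c) : ATriv ℝ fun σ => 2 • c σ := by
  obtain ⟨ι⟩ : Nonempty (SeparableClosure K →ₐ[K] SeparableClosure ℝ) :=
    ⟨IsSepClosed.lift⟩
  have hc1 : c 1 = 0 := by
    have h := hc.2 1 1
    have e : jm 2 f (ak (1 : Gal K)) (c 1) = c 1 := jm_id _
    rw [mul_one, e] at h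
    exact left_eq_add.1 h
  have huniq : ∀ (σ σ' : Gal K), (∀ x, ι (σ x) = ι (σ' x)) → σ = σ' := fun σ σ' h =>
    AlgEquiv.ext fun x => ι.injective (h x)
  by_cases hex : ∃ τ : SeparableClosure ℝ ≃ₐ[ℝ] SeparableClosure ℝ, τ ≠ 1
  · obtain ⟨τ0, hτ0⟩ := hex
    obtain ⟨σ0, hσ0⟩ := exists_res ι τ0
    have hsq : σ0 * σ0 = 1 := by
      apply huniq
      intro x
      rw [AlgEquiv.mul_apply, ← hσ0, ← hσ0, ← AlgEquiv.mul_apply, (real_aut hτ0 hτ0).2]
      rfl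
    have hadd : c σ0 + jm 2 f (ak σ0) (c σ0) = 0 := by
      rw [← hc.2, hsq, hc1]
    refine ⟨ι, -jm 2 f ι (c σ0), fun τ σ hx => ?_⟩
    by_cases hτ : τ = 1
    · subst hτ
      have hσ : σ = 1 := huniq _ _ fun x => by rw [← hx]; rfl
      subst hσ
      show jm 2 f ι (2 • c 1) = _
      rw [hc1, smul_zero, map_zero]
      have e : jm 2 f (rs K (1 : SeparableClosure ℝ ≃ₐ[ℝ] SeparableClosure ℝ)) (-jm 2 f ι (c σ0)) =
        -jm 2 f ι (c σ0) := jm_id _
      rw [e, sub_self]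
    · have h1 := (real_aut hτ hτ0).1
      subst h1
      have hσ : σ = σ0 := huniq _ _ fun x => by rw [← hx, ← hσ0]
      subst hσ
      have e : jm 2 f (rs K τ) (jm 2 f ι (c σ)) = jm 2 f ι (jm 2 f (ak σ) (c σ)) := by
        rw [jm_jm, jm_jm]
        have h : (rs K τ).comp ι = ι.comp (ak σ) := AlgHom.ext fun z => hσ0 z
        rw [h]
      have e2 : jm 2 f (ak σ) (c σ) = - c σ := by
        rw [eq_neg_iff_add_eq_zero, add_comm]; exact hadd
      rw [map_neg, e, e2, map_neg, map_nsmul, two_nsmul]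
      abel
  · push Not at hex
    refine ⟨ι, 0, fun τ σ hx => ?_⟩
    have hτ := hex τ
    subst hτ
    have hσ : σ = 1 := huniq _ _ fun x => by rw [← hx]; rfl
    subst hσ
    show jm 2 f ι (2 • c 1) = _
    rw [hc1, smul_zero, map_zero, map_zero, sub_zero]

end real

section main

variable {K : Type} [Field K] [NumberField K] {f : K[X]} (hg : Good 2 (-1 : K) f)

include hg

theorem main_div (hS : ShaTwoTrivialReal f (𝓞 K)) (h0 : ∀ x : Jac 2 f K, x = 0) {M : Type}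
    [Field M] [Algebra K M] (A : SA K (SeparableClosure K) M)
    (htor : ∀ n, ∀ T : Jac 2 f M, 2 ^ n • T = 0 → ∃ T0 : Jac 2 f (SeparableClosure K),
      2 ^ n • T0 = 0 ∧ jm 2 f A.j T0 = T)
    (hinj : ∀ n, ∀ T0 : Jac 2 f (SeparableClosure K), 2 ^ n • T0 = 0 → jm 2 f A.j T0 = 0 →
      T0 = 0)
    {P : Jac 2 f M} (hP : ∀ τ, A.ac f τ P = P) (hdiv : ∀ n, ∃ Q, 2 ^ n • Q = P)
    (hloc : ∀ v : HeightOneSpectrum (𝓞 K), ∃ ι red,
      LR A f (v.adicCompletion K) (SeparableClosure (v.adicCompletion K)) ι red)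
    {E C' : Type} [Field E] [Field C'] [Algebra K E] [Algebra E C'] [Algebra K C']
    [IsScalarTower K E C'] [IsGalois E C'] {ι : SeparableClosure K →ₐ[K] C'}
    {red : Jac 2 f M →+ Jac 2 f C'} (R : LR A f E C' ι red) (n : ℕ) :
    ∃ y : Jac 2 f E, jm 2 f (incl K E C') (2 ^ n • y) = red P := by
  obtain ⟨Q, hQ⟩ := hdiv (n + 1)
  obtain ⟨c, hc1, hc2, hc3, hc4⟩ := A.exists_coc hg (n := n + 1) (Q := Q)
    (fun τ => by rw [hQ]; exact hP τ) (htor (n + 1)) (hinj (n + 1))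
  have hc : ACoc c := ⟨hc1, hc2⟩
  have h2c : ∀ σ, jm 2 f A.j (2 • c σ) = A.ac f σ (2 • Q) - 2 • Q := by
    intro σ
    rw [map_nsmul, hc4, map_nsmul, smul_sub]
  obtain ⟨T, hT⟩ := sha_add (c := fun σ => 2 • c σ) hS n (hc.nsmul 2)
    (fun v => by
      obtain ⟨ι', red', R'⟩ := hloc v
      exact ⟨ι', red' (2 • Q), fun τ σ hx => R'.coc h2c τ σ hx⟩)
    (fun ρ => @real_triv K _ _ f c ρ.toAlgebra hc)
    (fun σ => by rw [← tps]; exact hc3 σ)
  have hfix : ∀ σ : SeparableClosure K ≃ₐ[K] SeparableClosure K,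
      jm 2 f (rs K σ) (2 ^ n • T) = 2 ^ n • T := by
    intro σ
    have h1 : 2 ^ n • (2 • c σ) = 2 ^ n • (jm 2 f (ak σ) T - T) := congrArg _ (hT σ)
    rw [← tps, hc3, smul_sub, ← map_nsmul] at h1
    exact (sub_eq_zero.1 h1.symm)
  obtain ⟨y, hy⟩ := fixed_class (E := K) hyps hg (2 ^ n • T) hfix
  rw [h0 y, map_zero] at hy
  obtain ⟨z, hz⟩ := R.fin hg h2c hT hy.symm
  exact ⟨z, by rw [hz, ← tps, hQ]⟩

end main

end Run7.h23.Se
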