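import Pool.Agent.Run7.h23.Se.Red
import Pool.Agent.N352.JB.All

/-!
# Torsion classes are constant
-/

set_option autoImplicit false
set_option linter.all false

open Polynomial Pool.Agent.Y160.SE
open scoped Classical

namespace Run7.h23.Se

open Run7.h23.Lo
open Pool.Agent.TH115.GD (incl rs ak)

section grp

variable {A : Type*} [AddCommGroup A]

theorem tps (n : ℕ) (x : A) : 2 ^ (n + 1) • x = 2 ^ n • (2 • x) := by
  rw [pow_succ, mul_smul]

theorem tps' (n : ℕ) (x : A) : 2 ^ (n + 1) • x = 2 • (2 ^ n • x) := by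
  rw [pow_succ', mul_smul]

theorem tp0 (x : A) : 2 ^ 0 • x = x := by
  rw [pow_zero, one_smul]

end grp

section tors

variable {K : Type} [Field K] {f : K[X]} (hg : Good 2 (-1 : K) f)
variable {B Λ : Type} [Field B] [Field Λ] [Algebra K B] [Algebra K Λ] [IsSepClosed B]
  [IsSepClosed Λ] (j : B →ₐ[K] Λ)

include hg

theorem tor_iff2 {Λ : Type} [Field Λ] [Algebra K Λ] (x : Jac 2 f Λ) : Tor hg x ↔ 2 • x = 0 :=
  (Pool.Agent.N615.JB.dbl K Λ f hg).1 x

theorem dbl_surj {Λ : Type} [Field Λ] [Algebra K Λ] [IsSepClosed Λ] (x : Jac 2 f Λ) :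
    ∃ y, 2 • y = x := (Pool.Agent.N615.JB.dbl K Λ f hg).2.2 x

theorem dblpow_surj {Λ : Type} [Field Λ] [Algebra K Λ] [IsSepClosed Λ] (n : ℕ) (x : Jac 2 f Λ) :
    ∃ y, 2 ^ n • y = x := by
  induction n generalizing x with
  | zero => exact ⟨x, tp0 x⟩
  | succ n ih =>
    obtain ⟨y, hy⟩ := ih x
    obtain ⟨z, hz⟩ := dbl_surj hg y
    exact ⟨z, by rw [tps, hz, hy]⟩

theorem roots_const : (f.map (algebraMap K Λ)).roots = (f.map (algebraMap K B)).roots.map j := by
  have h1 := (splits_up (Ω := B) hg).roots_map (j : B →+* Λ)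
  rw [Polynomial.map_map, j.comp_algebraMap] at h1
  exact h1

theorem root_const {β : Λ} (hβ : Rt f β) : ∃ β0 : B, Rt f β0 ∧ j β0 = β := by
  have h0 : (f.map (algebraMap K Λ)) ≠ 0 := (up' hg).monic.ne_zero
  have h1 : β ∈ (f.map (algebraMap K Λ)).roots := (mem_roots h0).2 hβ.ev
  rw [roots_const hg j, Multiset.mem_map] at h1
  obtain ⟨β0, h2, h3⟩ := h1
  exact ⟨β0, rt_of ((mem_roots'.1 h2).2), h3⟩

theorem tor2_const {T : Jac 2 f Λ} (hT : 2 • T = 0) :
    ∃ T0 : Jac 2 f B, 2 • T0 = 0 ∧ jm 2 f j T0 = T := by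
  have hTor : Tor hg T := (tor_iff2 hg T).2 hT
  have h1 : ∀ β : B, ∃ z : B, Rt f β → j z = chi hg (j β) T := by
    intro β
    by_cases hβ : Rt f β
    · obtain ⟨i, hi⟩ := chi_mem hyps hg hTor (hβ.map j)
      exact ⟨algebraMap K B ((-1) ^ i), fun _ => by rw [j.commutes, hi]⟩
    · exact ⟨0, fun h => absurd h hβ⟩
  choose z hz using h1
  obtain ⟨T0, hT0, hT0'⟩ := chi_surj (Ω := B) hyps hg (z := z) (fun β hβ => by
    have hj : Function.Injective j := j.injective
    apply hj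
    rw [map_pow, map_one, hz β hβ]
    exact chi_pow hyps hg hTor (hβ.map j)) (by
    have hj : Function.Injective j := j.injective
    apply hj
    rw [map_one, map_multiset_prod, Multiset.map_map]
    have h2 := chi_prod hyps hg hTor
    rw [roots_const hg j, Multiset.map_map] at h2
    rw [← h2]
    congr 1
    apply Multiset.map_congr rfl
    intro β hβ
    exact hz β (rt_of ((mem_roots'.1 hβ).2)))
  refine ⟨T0, (tor_iff2 hg T0).1 hT0, ?_⟩
  refine chi_ext hyps hg (hT0.map j) hTor fun β hβ => ?_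
  obtain ⟨β0, h3, rfl⟩ := root_const hg j hβ
  rw [chi_map hyps hg hT0 h3 j, hT0' β0 h3, hz β0 h3]

theorem tor_const (n : ℕ) {T : Jac 2 f Λ} (hT : 2 ^ n • T = 0) :
    ∃ T0 : Jac 2 f B, 2 ^ n • T0 = 0 ∧ jm 2 f j T0 = T := by
  induction n generalizing T with
  | zero =>
    rw [tp0] at hT
    exact ⟨0, by rw [smul_zero], by rw [map_zero, hT]⟩
  | succ n ih =>
    obtain ⟨T0', h1, h2⟩ := ih (T := 2 • T) (by rw [← tps]; exact hT)
    obtain ⟨S0, hS0⟩ := dbl_surj hg T0'
    obtain ⟨T1, h3, h4⟩ := tor2_const hg j (T := T - jm 2 f j S0) (by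
      rw [smul_sub, ← map_nsmul, hS0, h2, sub_self])
    refine ⟨S0 + T1, ?_, ?_⟩
    · rw [smul_add, tps, tps, hS0, h1, h3, smul_zero, add_zero]
    · rw [map_add, h4, add_sub_cancel]

theorem tor2_inj {T : Jac 2 f B} (hT : 2 • T = 0) (h : jm 2 f j T = 0) : T = 0 := by
  have hTor : Tor hg T := (tor_iff2 hg T).2 hT
  refine chi_inj hyps hg hTor fun β hβ => ?_
  have hj : Function.Injective j := j.injective
  apply hj
  rw [← chi_map hyps hg hTor hβ j, h, map_one, chi_zero hyps hg (hβ.map j)]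

theorem tor_inj (n : ℕ) {T : Jac 2 f B} (hT : 2 ^ n • T = 0) (h : jm 2 f j T = 0) : T = 0 := by
  induction n generalizing T with
  | zero => rwa [tp0] at hT
  | succ n ih =>
    have h1 : 2 • T = 0 := ih (T := 2 • T) (by rw [← tps]; exact hT)
      (by rw [map_nsmul, h, smul_zero])
    exact tor2_inj hg j h1 h

end tors

end Run7.h23.Se
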