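import Pool.Agent.Run7.h23.Se.Ext
import Pool.Agent.Run7.h23.Se.Core

/-!
# Division classes of points over function fields are unramified
-/

set_option autoImplicit false
set_option linter.all false

open Polynomial Pool.Agent.Y160.SE Topology
open scoped Classical

namespace Run7.h23.Se

open Run7.h23.Lo
open Pool.Agent.TH115.GD (incl rs ak)
open Pool.Agent.TH954 (GalSection Plc resScal fix_nhds finite_map exists_res_place)
open Pool.Agent.W620.SC (inertia unramified mem_unramified inertia_spec)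

section cont

variable {K M T : Type} [Field K] [Field M] [Algebra K M] {f : K[X]} (hg : Good 2 (-1 : K) f)

include hg

theorem cont_gen (l : Filter T) (g : T → (M →ₐ[K] M)) (h : ∀ x, ∀ᶠ t in l, g t x = x)
    (x : Jac 2 f M) : ∀ᶠ t in l, jm 2 f (g t) x = x := by
  haveI := hyps.ring 2 M _ _ (hg.up M)
  have hp : ∀ p : M[X], ∀ᶠ t in l, p.map ((g t : M →ₐ[K] M) : M →+* M) = p := by
    intro p
    have h1 : ∀ᶠ t in l, ∀ n ∈ p.support, g t (p.coeff n) = p.coeff n :=
      (Filter.eventually_all_finset _).2 fun n _ => h _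
    filter_upwards [h1] with t ht
    ext n
    rw [coeff_map]
    by_cases hn : n ∈ p.support
    · exact ht n hn
    · rw [notMem_support_iff.1 hn, map_zero]
  have hcr : ∀ a : CR 2 (f.map (algebraMap K M)), ∀ᶠ t in l, cm 2 f (g t) a = a := by
    intro a
    filter_upwards [hp (c0 a), hp (c1 a)] with t h0 h1
    apply el_ext
    · rw [cm, c0_map]; exact h0
    · rw [cm, c1_map]; exact h1
  obtain ⟨I, hI, hIx⟩ := exists_cl (Ω := M) hyps hg x
  obtain ⟨s, hs⟩ := (isNoetherianRing_iff_ideal_fg _).1 inferInstance I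
  have h1 : ∀ᶠ t in l, ∀ a ∈ s, cm 2 f (g t) a = a :=
    (Filter.eventually_all_finset _).2 fun a _ => hcr a
  filter_upwards [h1] with t ht
  have h2 : I.map (cm 2 f (g t)) = I := map_fix _ hs ht
  have h3 := cl_map hyps hg hIx (g t)
  rw [h2] at h3
  exact cl_uniq hg h3 hIx

end cont

section inj

variable {K M Λ : Type} [Field K] [Field M] [Field Λ] [Algebra K M] [Algebra K Λ] [Algebra M Λ]
  [IsScalarTower K M Λ] [IsGalois M Λ] {f : K[X]} (hg : Good 2 (-1 : K) f)

include hg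

theorem jm_inj {x y : Jac 2 f M} (h : jm 2 f (IsScalarTower.toAlgHom K M Λ) x =
    jm 2 f (IsScalarTower.toAlgHom K M Λ) y) : x = y := by
  obtain ⟨I, hI, hIx⟩ := exists_cl (Ω := M) hyps hg x
  obtain ⟨J, hJ, hJy⟩ := exists_cl (Ω := M) hyps hg y
  have h1 := cl_map hyps hg hIx (IsScalarTower.toAlgHom K M Λ)
  have h2 := cl_map hyps hg hJy (IsScalarTower.toAlgHom K M Λ)
  have h3 := (cl_eq_iff hyps hg h1 h2).1 h
  have hPC : (f.map (algebraMap K M)).map (algebraMap M Λ) = f.map (algebraMap K Λ) := by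
    rw [Polynomial.map_map, ← IsScalarTower.algebraMap_eq]
  exact (cl_eq_iff hyps hg hIx hJy).2 (inj_ideal hPC (up' hg) hI hJ h3)

end inj

section inertia

variable {K Λ B : Type} [Field K] [CharZero K] [Field Λ] [Field B] [Algebra K Λ] [Algebra K B]
  [IsAlgClosed Λ] [IsSepClosed B] [Algebra.IsAlgebraic K B] {f : K[X]}
  (hg : Good 2 (-1 : K) f)

include hg

/-- Automorphisms in an inertia group fix the division classes of the classes they fix. -/
theorem fixed_div (j : B →ₐ[K] Λ) (W : ValuationSubring Λ) (hW : ∀ c : K, algebraMap K Λ c ∈ W)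
    (σ : Λ →ₐ[K] Λ) (hσ : ∀ x ∈ W, σ x ∈ W ∧ σ x - x ∈ W.nonunits) {n : ℕ} {Q : Jac 2 f Λ}
    (hQ : jm 2 f σ (2 ^ n • Q) = 2 ^ n • Q) : jm 2 f σ Q = Q := by
  obtain ⟨C', _, _, _, pl, hpl⟩ := exists_res_place W hW
  obtain ⟨red, hred⟩ := exists_red pl hg
  obtain ⟨T0, hT0, hT0'⟩ := tor_const hg j n (T := jm 2 f σ Q - Q) (by
    rw [smul_sub, ← map_nsmul, hQ, sub_self])
  have h4 : red (jm 2 f σ Q) = red Q := by
    rw [red_aut hg hred σ (AlgHom.id K C') (fun x => hpl σ hσ x) Q]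
    exact jm_id _
  have h5 : jm 2 f (pl.iot j) T0 = 0 := by
    rw [← red_const hg hred j T0, hT0', map_sub, h4, sub_self]
  have h6 : T0 = 0 := by
    refine tor_inj hg ((IsScalarTower.toAlgHom K C' (AlgebraicClosure C')).comp (pl.iot j)) n hT0 ?_
    rw [← jm_jm, h5, map_zero]
  rw [h6, map_zero] at hT0'
  exact sub_eq_zero.1 hT0'.symm

end inertia

section un

variable {K F Λ : Type} [Field K] [CharZero K] [Field F] [Field Λ] [Algebra K F] [Algebra F Λ]
  [Algebra K Λ] [IsScalarTower K F Λ] [IsAlgClosed Λ] [Algebra.IsAlgebraic F Λ] {f : K[X]}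
  (hg : Good 2 (-1 : K) f)

theorem tow (N : IntermediateField F Λ) : IsScalarTower K N Λ :=
  IsScalarTower.of_algebraMap_eq fun z => rfl

attribute [local instance] tow

include hg

/-- The division classes are defined over the maximal unramified extension. -/
theorem desc_un (U : Set (ValuationSubring F)) (hU : ∀ O ∈ U, ∀ c : K, algebraMap K F c ∈ O)
    {n : ℕ} {Q : Jac 2 f Λ} {Q0 : Jac 2 f F}
    (hQ : 2 ^ n • Q = jm 2 f (IsScalarTower.toAlgHom K F Λ) Q0) :
    ∃ y : Jac 2 f (unramified F Λ U),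
      jm 2 f (IsScalarTower.toAlgHom K (unramified F Λ U) Λ) y = Q := by
  haveI : CharZero F := charZero_of_injective_algebraMap (algebraMap K F).injective
  haveI : IsAlgClosure F Λ := ⟨inferInstance, inferInstance⟩
  haveI : Normal F Λ := IsAlgClosure.normal F Λ
  haveI : IsGalois F Λ := ⟨⟩
  -- the stabiliser
  have hfixF : ∀ τ : Λ ≃ₐ[F] Λ, jm 2 f (rs K τ) (2 ^ n • Q) = 2 ^ n • Q := by
    intro τ
    rw [hQ, jm_jm]
    congr 1
    have e : (rs K τ).comp (IsScalarTower.toAlgHom K F Λ) = IsScalarTower.toAlgHom K F Λ :=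
      AlgHom.ext fun z => τ.commutes z
    rw [e]
  have hmul : ∀ σ τ : Λ ≃ₐ[F] Λ, jm 2 f (rs K (σ * τ)) Q = jm 2 f (rs K σ) (jm 2 f (rs K τ) Q) := by
    intro σ τ
    rw [jm_jm]
    rfl
  set H : Subgroup (Λ ≃ₐ[F] Λ) :=
    { carrier := {τ | jm 2 f (rs K τ) Q = Q}
      mul_mem' := by
        intro σ τ hσ hτ
        show jm 2 f (rs K (σ * τ)) Q = Q
        have h1 : jm 2 f (rs K σ) Q = Q := hσ
        have h2 : jm 2 f (rs K τ) Q = Q := hτ
        rw [hmul, h2, h1]
      one_mem' := jm_id _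
      inv_mem' := by
        intro σ hσ
        show jm 2 f (rs K σ⁻¹) Q = Q
        have h1 : jm 2 f (rs K σ) Q = Q := hσ
        have h2 := hmul σ⁻¹ σ
        rw [inv_mul_cancel, h1] at h2
        rw [← h2]
        exact jm_id _ } with hH
  have hmem : ∀ τ : Λ ≃ₐ[F] Λ, τ ∈ H ↔ jm 2 f (rs K τ) Q = Q := fun τ => Iff.rfl
  have hopen : (H : Set (Λ ≃ₐ[F] Λ)) ∈ 𝓝 (1 : Λ ≃ₐ[F] Λ) :=
    cont_gen hg (𝓝 (1 : Λ ≃ₐ[F] Λ)) (fun τ => rs K τ) (fun x => fix_nhds x) Q
  have hHo : IsOpen (H : Set (Λ ≃ₐ[F] Λ)) := Subgroup.isOpen_of_mem_nhds H hopen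
  have hHc : IsClosed (H : Set (Λ ≃ₐ[F] Λ)) := Subgroup.isClosed_of_isOpen H hHo
  -- inertia
  have hin : ∀ W : ValuationSubring Λ, W.comap (algebraMap F Λ) ∈ U → ∀ σ ∈ inertia F Λ W,
      σ ∈ H := by
    intro W hW σ hσ
    rw [hmem]
    refine fixed_div hg (IsSepClosed.lift : SeparableClosure K →ₐ[K] Λ) W (fun c => ?_) (rs K σ)
      (fun x hx => inertia_spec hσ hx) (n := n) (hfixF σ)
    have := hU _ hW c
    rw [ValuationSubring.mem_comap, ← IsScalarTower.algebraMap_apply] at this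
    exact this
  have hle : IntermediateField.fixedField H ≤ unramified F Λ U := by
    intro x hx
    rw [IntermediateField.mem_fixedField_iff] at hx
    exact mem_unramified.2 fun W hW σ hσ => hx σ (hin W hW σ hσ)
  have hfix : ∀ τ : Λ ≃ₐ[unramified F Λ U] Λ, jm 2 f (rs K τ) Q = Q := by
    intro τ
    have h1 : τ.restrictScalars F ∈ (IntermediateField.fixedField H).fixingSubgroup := by
      rw [IntermediateField.mem_fixingSubgroup_iff]
      intro x hx
      exact τ.commutes ⟨x, hle hx⟩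
    have h2 := InfiniteGalois.fixingSubgroup_fixedField (⟨H, hHc⟩ : ClosedSubgroup (Λ ≃ₐ[F] Λ))
    have h3 : τ.restrictScalars F ∈ H := by
      have h4 : (IntermediateField.fixedField H).fixingSubgroup = H := h2
      rw [h4] at h1
      exact h1
    exact h3
  obtain ⟨y, hy⟩ := fixed_class (E := unramified F Λ U) hyps hg Q hfix
  exact ⟨y, hy⟩

/-- Division classes over the fields which contain the maximal unramified extension. -/
theorem div_un (U : Set (ValuationSubring F)) (hU : ∀ O ∈ U, ∀ c : K, algebraMap K F c ∈ O)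
    {M : Type} [Field M] [Algebra F M] [Algebra K M] [IsScalarTower K F M] (e : M →ₐ[F] Λ)
    (he : unramified F Λ U ≤ e.fieldRange) (Q0 : Jac 2 f F) (n : ℕ) :
    ∃ Q : Jac 2 f M, 2 ^ n • Q = jm 2 f (IsScalarTower.toAlgHom K F M) Q0 := by
  haveI : CharZero F := charZero_of_injective_algebraMap (algebraMap K F).injective
  obtain ⟨Q, hQ⟩ := dblpow_surj hg n (jm 2 f (IsScalarTower.toAlgHom K F Λ) Q0)
  obtain ⟨y, hy⟩ := desc_un hg U hU hQ
  letI a1 : Algebra M Λ := e.toRingHom.toAlgebra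
  have hal : ∀ z : M, algebraMap M Λ z = e z := fun z => rfl
  haveI : IsScalarTower F M Λ := IsScalarTower.of_algebraMap_eq fun z => (e.commutes z).symm
  haveI : IsScalarTower K M Λ := IsScalarTower.of_algebraMap_eq fun z => by
    rw [hal, IsScalarTower.algebraMap_apply K F Λ, IsScalarTower.algebraMap_apply K F M]
    exact (e.commutes _).symm
  haveI : Algebra.IsAlgebraic M Λ := Algebra.IsAlgebraic.tower_top (K := F) M
  haveI : CharZero M := charZero_of_injective_algebraMap (algebraMap K M).injective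
  haveI : IsAlgClosure M Λ := ⟨inferInstance, inferInstance⟩
  haveI : Normal M Λ := IsAlgClosure.normal M Λ
  haveI : IsGalois M Λ := ⟨⟩
  have hinj : Function.Injective e := e.injective
  have h1 : ∀ z : unramified F Λ U, ∃ w : M, e w = z := fun z => he z.2
  choose φ hφ using h1
  set Φ : unramified F Λ U →ₐ[K] M :=
    { toFun := φ
      map_one' := hinj (by rw [hφ, map_one]; rfl)
      map_mul' := fun a b => hinj (by rw [hφ, map_mul, hφ, hφ]; rfl)
      map_zero' := hinj (by rw [hφ, map_zero]; rfl)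
      map_add' := fun a b => hinj (by rw [hφ, map_add, hφ, hφ]; rfl)
      commutes' := fun c => hinj (by
        rw [hφ]
        have e1 : e (algebraMap K M c) = algebraMap K Λ c := by
          rw [← hal, ← IsScalarTower.algebraMap_apply]
        rw [e1]
        rfl) } with hΦ
  refine ⟨jm 2 f Φ y, jm_inj (Λ := Λ) hg ?_⟩
  have h2 : (IsScalarTower.toAlgHom K M Λ).comp Φ = IsScalarTower.toAlgHom K (unramified F Λ U) Λ :=
    AlgHom.ext fun z => hφ z
  have h3 : (IsScalarTower.toAlgHom K M Λ).comp (IsScalarTower.toAlgHom K F M) =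
      IsScalarTower.toAlgHom K F Λ := AlgHom.ext fun z => e.commutes z
  rw [map_nsmul, jm_jm, h2, hy, jm_jm, h3, hQ]

/-- Torsion classes over subfields. -/
theorem tor_sub {M : Type} [Field M] [Algebra K M] [Algebra M Λ] [IsScalarTower K M Λ]
    [IsGalois M Λ] {B : Type} [Field B] [Algebra K B] [IsSepClosed B] (j : B →ₐ[K] M) (n : ℕ)
    (T : Jac 2 f M) (hT : 2 ^ n • T = 0) :
    ∃ T0 : Jac 2 f B, 2 ^ n • T0 = 0 ∧ jm 2 f j T0 = T := by
  obtain ⟨T0, h1, h2⟩ := tor_const hg ((IsScalarTower.toAlgHom K M Λ).comp j) n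
    (T := jm 2 f (IsScalarTower.toAlgHom K M Λ) T) (by rw [← map_nsmul, hT, map_zero])
  refine ⟨T0, h1, jm_inj (Λ := Λ) hg ?_⟩
  rw [jm_jm, h2]

omit [Algebra.IsAlgebraic F Λ] in
theorem tor_sub_inj {M : Type} [Field M] [Algebra K M] [Algebra M Λ] [IsScalarTower K M Λ]
    {B : Type} [Field B] [Algebra K B] [IsSepClosed B] (j : B →ₐ[K] M) (n : ℕ)
    (T0 : Jac 2 f B) (hT : 2 ^ n • T0 = 0) (h : jm 2 f j T0 = 0) : T0 = 0 := by
  refine tor_inj hg ((IsScalarTower.toAlgHom K M Λ).comp j) n hT ?_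
  rw [← jm_jm, h, map_zero]

end un

end Run7.h23.Se
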